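import Mathlib

/-!
Packing of lines in `ℝ ^ r` (a linear programming bound). If `v_1, ..., v_n` are unit vectors of `ℝ ^ r` with `⟨v_i, v_j⟩ ^ 2 ≤ 49 / 100`
for `i ≠ j`, then `n ≤ C (r + 1) ^ 2 2 ^ (50 r / 51)`.

Proof. `F_d = ∑ ⟨v_i, v_j⟩ ^ d`. In the polynomial ring with the Fischer inner product `B` (multiplication by `X_a` is adjoint to
`∂_a`) the sum `G_d` of the `⟨v_i, x⟩ ^ d` has `B(G_d, G_d) = d! F_d`, and `0 ≤ B(G_{d+2} - t |x|² G_d, G_{d+2} - t |x|² G_d)` gives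
`F_{d+2} ≥ (d + 1) / (r + d) F_d` for even `d` by induction.
-/

set_option autoImplicit false

open MvPolynomial

namespace Pool.Agent.LibUM24

variable {r : ℕ}

/-- product of the factorials of the exponents -/
private noncomputable def PK_fac (α : Fin r →₀ ℕ) : ℝ := ∏ i, ((α i).factorial : ℝ)

private theorem PK_fac_nonneg (α : Fin r →₀ ℕ) : 0 ≤ PK_fac α :=
  Finset.prod_nonneg fun _ _ => Nat.cast_nonneg _

private theorem PK_fac_zero : PK_fac (0 : Fin r →₀ ℕ) = 1 := by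
  simp [PK_fac]

private theorem PK_fac_sub (α : Fin r →₀ ℕ) (i : Fin r) (h : α i ≠ 0) :
    (α i : ℝ) * PK_fac (α - Finsupp.single i 1) = PK_fac α := by
  unfold PK_fac
  rw [← Finset.mul_prod_erase Finset.univ _ (Finset.mem_univ i),
    ← Finset.mul_prod_erase Finset.univ (fun j => ((α j).factorial : ℝ)) (Finset.mem_univ i)]
  have h1 : ∀ j ∈ Finset.univ.erase i,
      (((α - Finsupp.single i 1 : Fin r →₀ ℕ) j).factorial : ℝ) = ((α j).factorial : ℝ) := by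
    intro j hj
    have : j ≠ i := Finset.ne_of_mem_erase hj
    simp [this.symm]
  rw [Finset.prod_congr rfl h1, ← mul_assoc]
  congr 1
  obtain ⟨m, hm⟩ := Nat.exists_eq_succ_of_ne_zero h
  simp [hm, Nat.factorial_succ]

/-- the Fischer inner product -/
private noncomputable def PK_B : MvPolynomial (Fin r) ℝ →ₗ[ℝ] MvPolynomial (Fin r) ℝ →ₗ[ℝ] ℝ :=
  (basisMonomials (Fin r) ℝ).constr ℝ (fun α => PK_fac α • lcoeff ℝ α)

private theorem PK_B_mon (α : Fin r →₀ ℕ) (a : ℝ) (g : MvPolynomial (Fin r) ℝ) :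
    PK_B (monomial α a) g = a * PK_fac α * coeff α g := by
  have h : monomial α a = a • (basisMonomials (Fin r) ℝ α) := by
    rw [coe_basisMonomials, smul_monomial]
    simp
  rw [h, map_smul, PK_B, Module.Basis.constr_basis]
  simp [lcoeff]
  ring

private theorem PK_B_sum (f g : MvPolynomial (Fin r) ℝ) :
    PK_B f g = ∑ α ∈ f.support, PK_fac α * (coeff α f * coeff α g) := by
  conv_lhs => rw [← support_sum_monomial_coeff f]
  rw [map_sum, LinearMap.sum_apply]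
  refine Finset.sum_congr rfl fun α _ => ?_
  rw [PK_B_mon]
  ring

private theorem PK_B_nonneg (f : MvPolynomial (Fin r) ℝ) : 0 ≤ PK_B f f := by
  rw [PK_B_sum]
  exact Finset.sum_nonneg fun α _ => mul_nonneg (PK_fac_nonneg _) (mul_self_nonneg _)

private theorem PK_B_comm (f g : MvPolynomial (Fin r) ℝ) : PK_B f g = PK_B g f := by
  rw [PK_B_sum, PK_B_sum]
  have h1 : ∑ α ∈ f.support, PK_fac α * (coeff α f * coeff α g) =
      ∑ α ∈ f.support ∪ g.support, PK_fac α * (coeff α f * coeff α g) := by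
    refine Finset.sum_subset Finset.subset_union_left fun α _ hα => ?_
    rw [notMem_support_iff.1 hα]
    simp
  have h2 : ∑ α ∈ g.support, PK_fac α * (coeff α g * coeff α f) =
      ∑ α ∈ f.support ∪ g.support, PK_fac α * (coeff α g * coeff α f) := by
    refine Finset.sum_subset Finset.subset_union_right fun α _ hα => ?_
    rw [notMem_support_iff.1 hα]
    simp
  rw [h1, h2]
  exact Finset.sum_congr rfl fun α _ => by ring

/-- multiplication by `X i` is adjoint to `∂ i` -/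
private theorem PK_B_adj (i : Fin r) (f g : MvPolynomial (Fin r) ℝ) :
    PK_B (pderiv i f) g = PK_B f (X i * g) := by
  conv_lhs => rw [← support_sum_monomial_coeff f]
  conv_rhs => rw [← support_sum_monomial_coeff f]
  rw [map_sum, map_sum, map_sum, LinearMap.sum_apply, LinearMap.sum_apply]
  refine Finset.sum_congr rfl fun α _ => ?_
  rw [pderiv_monomial, PK_B_mon, PK_B_mon, coeff_X_mul']
  by_cases h : α i = 0
  · have h' : i ∉ α.support := by simpa using h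
    rw [if_neg h', h]
    simp
  · have h' : i ∈ α.support := by simpa using h
    rw [if_pos h', ← PK_fac_sub α i h]
    ring

private theorem PK_B_adj' (i : Fin r) (f g : MvPolynomial (Fin r) ℝ) :
    PK_B (X i * f) g = PK_B f (pderiv i g) := by
  rw [PK_B_comm, ← PK_B_adj, PK_B_comm]

private theorem PK_B_one : PK_B (1 : MvPolynomial (Fin r) ℝ) 1 = 1 := by
  have h : (1 : MvPolynomial (Fin r) ℝ) = monomial 0 1 := rfl
  conv_lhs => rw [h]
  rw [PK_B_mon, PK_fac_zero]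
  simp

/-- linear forms -/
private noncomputable def PK_L (v : Fin r → ℝ) : MvPolynomial (Fin r) ℝ := ∑ a, v a • X a

private theorem PK_dL (v : Fin r → ℝ) (a : Fin r) : pderiv a (PK_L v) = C (v a) := by
  classical
  unfold PK_L
  rw [map_sum]
  simp_rw [Derivation.map_smul, pderiv_X, Pi.single_apply, smul_eq_C_mul]
  simp

private theorem PK_dLpow (v : Fin r → ℝ) (a : Fin r) (d : ℕ) :
    pderiv a (PK_L v ^ (d + 1)) = (((d : ℝ) + 1) * v a) • PK_L v ^ d := by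
  rw [Derivation.leibniz_pow, PK_dL, Nat.add_sub_cancel, smul_eq_mul, mul_comm (PK_L v ^ d), C_mul']
  rw [← Nat.cast_smul_eq_nsmul ℝ, smul_smul]
  push_cast
  rfl

private theorem PK_dLzero (v : Fin r → ℝ) (a : Fin r) : pderiv a (PK_L v ^ 0) = 0 := by
  simp

/-- `B (⟨v, x⟩ ^ d, ⟨w, x⟩ ^ d) = d! ⟨v, w⟩ ^ d` -/
private theorem PK_B_pow (v w : Fin r → ℝ) (d : ℕ) :
    PK_B (PK_L v ^ d) (PK_L w ^ d) = (d.factorial : ℝ) * (∑ a, v a * w a) ^ d := by
  induction d with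
  | zero => simp [PK_B_one]
  | succ d ih =>
    have h1 : PK_L v ^ (d + 1) = ∑ a, v a • (X a * PK_L v ^ d) := by
      have e : PK_L v ^ (d + 1) = (∑ a, v a • X a) * PK_L v ^ d := pow_succ' _ _
      rw [e, Finset.sum_mul]
      exact Finset.sum_congr rfl fun a _ => by rw [smul_mul_assoc]
    rw [h1, map_sum, LinearMap.sum_apply]
    have h2 : ∀ a ∈ (Finset.univ : Finset (Fin r)), (PK_B (v a • (X a * PK_L v ^ d))) (PK_L w ^ (d + 1)) =
        (v a * w a) * (((d : ℝ) + 1) * PK_B (PK_L v ^ d) (PK_L w ^ d)) := by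
      intro a _
      rw [map_smul, LinearMap.smul_apply, PK_B_adj', PK_dLpow, map_smul, smul_eq_mul, smul_eq_mul]
      ring
    rw [Finset.sum_congr rfl h2, ← Finset.sum_mul, ih, Nat.factorial_succ, pow_succ]
    push_cast
    ring

/-- the Laplace operator -/
private noncomputable def PK_D (f : MvPolynomial (Fin r) ℝ) : MvPolynomial (Fin r) ℝ :=
  ∑ a, pderiv a (pderiv a f)

/-- `|x| ^ 2` -/
private noncomputable def PK_q : MvPolynomial (Fin r) ℝ := ∑ a, X a * X a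

private theorem PK_B_q (f g : MvPolynomial (Fin r) ℝ) : PK_B f (PK_q * g) = PK_B (PK_D f) g := by
  rw [PK_q, Finset.sum_mul, map_sum, PK_D, map_sum, LinearMap.sum_apply]
  refine Finset.sum_congr rfl fun a _ => ?_
  rw [PK_B_adj, PK_B_adj, mul_assoc]

private theorem PK_D_sum {n : ℕ} (f : Fin n → MvPolynomial (Fin r) ℝ) :
    PK_D (∑ i, f i) = ∑ i, PK_D (f i) := by
  unfold PK_D
  simp_rw [map_sum]
  exact Finset.sum_comm

private theorem PK_D_L (v : Fin r → ℝ) (hv : ∑ a, v a ^ 2 = 1) (d : ℕ) :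
    PK_D (PK_L v ^ (d + 2)) = (((d : ℝ) + 2) * ((d : ℝ) + 1)) • PK_L v ^ d := by
  unfold PK_D
  have h : ∀ a ∈ (Finset.univ : Finset (Fin r)), pderiv a (pderiv a (PK_L v ^ (d + 2))) =
      (v a ^ 2 * (((d : ℝ) + 2) * ((d : ℝ) + 1))) • PK_L v ^ d := by
    intro a _
    rw [PK_dLpow v a (d + 1), Derivation.map_smul, PK_dLpow, smul_smul]
    congr 1
    push_cast
    ring
  rw [Finset.sum_congr rfl h, ← Finset.sum_smul, ← Finset.sum_mul, hv, one_mul]

/-- `Δ (|x| ^ 2 g) = 2 r g + 4 ∑ x_a ∂_a g + |x| ^ 2 Δ g` -/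
private theorem PK_D_q (g : MvPolynomial (Fin r) ℝ) :
    PK_D (PK_q * g) = (2 * (r : ℝ)) • g + (4 : ℝ) • (∑ a, X a * pderiv a g) + PK_q * PK_D g := by
  classical
  have h1 : ∀ a : Fin r, pderiv a (PK_q : MvPolynomial (Fin r) ℝ) = (2 : ℝ) • X a := by
    intro a
    unfold PK_q
    rw [map_sum]
    simp_rw [Derivation.leibniz, pderiv_X, Pi.single_apply]
    rw [Finset.sum_add_distrib]
    simp [two_smul]
  have h2 : ∀ a ∈ (Finset.univ : Finset (Fin r)), pderiv a (pderiv a (PK_q * g)) =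
      (2 : ℝ) • g + (4 : ℝ) • (X a * pderiv a g) + PK_q * pderiv a (pderiv a g) := by
    intro a _
    rw [Derivation.leibniz, h1, map_add, smul_eq_mul, smul_eq_mul, Derivation.leibniz, Derivation.leibniz, h1,
      Derivation.map_smul, pderiv_X_self]
    simp only [smul_eq_mul, smul_eq_C_mul]
    have e2 : (C (2 : ℝ) : MvPolynomial (Fin r) ℝ) = 2 := map_ofNat C 2
    have e4 : (C (4 : ℝ) : MvPolynomial (Fin r) ℝ) = 4 := map_ofNat C 4
    rw [e2, e4]
    ring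
  rw [PK_D, Finset.sum_congr rfl h2, Finset.sum_add_distrib, Finset.sum_add_distrib, ← Finset.smul_sum, ← Finset.mul_sum,
    ← PK_D]
  rw [Finset.sum_const, Finset.card_univ, Fintype.card_fin, ← Nat.cast_smul_eq_nsmul ℝ, smul_smul, mul_comm (2 : ℝ),
    ← Finset.smul_sum]

private theorem PK_E_L (v : Fin r → ℝ) (d : ℕ) :
    ∑ a, X a * pderiv a (PK_L v ^ d) = (d : ℝ) • PK_L v ^ d := by
  cases d with
  | zero => simp
  | succ d =>
    have h : ∀ a ∈ (Finset.univ : Finset (Fin r)), X a * pderiv a (PK_L v ^ (d + 1)) =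
        ((d : ℝ) + 1) • ((v a • X a) * PK_L v ^ d) := by
      intro a _
      rw [PK_dLpow, mul_smul_comm, smul_mul_assoc, smul_smul]
    rw [Finset.sum_congr rfl h, ← Finset.smul_sum, ← Finset.sum_mul, ← PK_L, ← pow_succ']
    push_cast
    rfl

/-- moments of the inner products -/
private noncomputable def PK_F {n : ℕ} (v : Fin n → Fin r → ℝ) (d : ℕ) : ℝ :=
  ∑ i, ∑ j, (∑ a, v i a * v j a) ^ d

private noncomputable def PK_G {n : ℕ} (v : Fin n → Fin r → ℝ) (d : ℕ) : MvPolynomial (Fin r) ℝ :=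
  ∑ i, PK_L (v i) ^ d

private theorem PK_B_G {n : ℕ} (v : Fin n → Fin r → ℝ) (d : ℕ) :
    PK_B (PK_G v d) (PK_G v d) = (d.factorial : ℝ) * PK_F v d := by
  unfold PK_G PK_F
  simp only [map_sum, LinearMap.sum_apply, PK_B_pow, Finset.mul_sum]
  exact Finset.sum_comm

private theorem PK_D_G {n : ℕ} (v : Fin n → Fin r → ℝ) (hv : ∀ i, ∑ a, v i a ^ 2 = 1) (d : ℕ) :
    PK_D (PK_G v (d + 2)) = (((d : ℝ) + 2) * ((d : ℝ) + 1)) • PK_G v d := by
  unfold PK_G
  rw [PK_D_sum, Finset.smul_sum]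
  exact Finset.sum_congr rfl fun i _ => PK_D_L _ (hv i) d

private theorem PK_D_G_zero {n : ℕ} (v : Fin n → Fin r → ℝ) : PK_D (PK_G v 0) = 0 := by
  unfold PK_G
  rw [PK_D_sum]
  refine Finset.sum_eq_zero fun i _ => ?_
  unfold PK_D
  simp

private theorem PK_E_G {n : ℕ} (v : Fin n → Fin r → ℝ) (d : ℕ) :
    ∑ a, X a * pderiv a (PK_G v d) = (d : ℝ) • PK_G v d := by
  unfold PK_G
  simp_rw [map_sum, Finset.mul_sum]
  rw [Finset.sum_comm, Finset.smul_sum]
  exact Finset.sum_congr rfl fun i _ => PK_E_L _ _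

private theorem PK_B_fh {n : ℕ} (v : Fin n → Fin r → ℝ) (hv : ∀ i, ∑ a, v i a ^ 2 = 1) (d : ℕ) :
    PK_B (PK_G v (d + 2)) (PK_q * PK_G v d) =
      ((d : ℝ) + 2) * ((d : ℝ) + 1) * ((d.factorial : ℝ) * PK_F v d) := by
  rw [PK_B_q, PK_D_G v hv, map_smul, LinearMap.smul_apply, PK_B_G, smul_eq_mul]

private theorem PK_B_hh {n : ℕ} (v : Fin n → Fin r → ℝ) (d : ℕ) :
    PK_B (PK_q * PK_G v d) (PK_q * PK_G v d) =
      (2 * (r : ℝ) + 4 * (d : ℝ)) * ((d.factorial : ℝ) * PK_F v d) + PK_B (PK_D (PK_G v d)) (PK_D (PK_G v d)) := by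
  rw [PK_B_q, PK_D_q, PK_E_G, smul_smul, map_add, map_add, LinearMap.add_apply, LinearMap.add_apply, map_smul, map_smul,
    LinearMap.smul_apply, LinearMap.smul_apply, PK_B_G, smul_eq_mul, smul_eq_mul, PK_B_comm (PK_q * _), PK_B_q]
  ring

/-- one step: the bound for `B (h, h)` gives the ratio -/
private theorem PK_step {n : ℕ} (hr : 0 < r) (v : Fin n → Fin r → ℝ) (hv : ∀ i, ∑ a, v i a ^ 2 = 1) (d : ℕ)
    (hh : PK_B (PK_q * PK_G v d) (PK_q * PK_G v d) ≤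
      (d.factorial : ℝ) * (((d : ℝ) + 2) * ((r : ℝ) + d) * PK_F v d)) :
    ((d : ℝ) + 1) * PK_F v d ≤ ((r : ℝ) + d) * PK_F v (d + 2) := by
  have hr' : (0 : ℝ) < r := by exact_mod_cast hr
  have hrd : (0 : ℝ) < (r : ℝ) + d := by positivity
  set t : ℝ := ((d : ℝ) + 1) / ((r : ℝ) + d) with ht
  have h0 := PK_B_nonneg (PK_G v (d + 2) - t • (PK_q * PK_G v d))
  have hff := PK_B_G v (d + 2)
  have hfh := PK_B_fh v hv d
  have hhf : PK_B (PK_q * PK_G v d) (PK_G v (d + 2)) =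
      ((d : ℝ) + 2) * ((d : ℝ) + 1) * ((d.factorial : ℝ) * PK_F v d) := by
    rw [PK_B_comm, hfh]
  simp only [map_sub, LinearMap.sub_apply, map_smul, LinearMap.smul_apply, smul_eq_mul, hff, hfh, hhf] at h0
  have hfac : ((d + 2).factorial : ℝ) = ((d : ℝ) + 2) * ((d : ℝ) + 1) * (d.factorial : ℝ) := by
    rw [Nat.factorial_succ, Nat.factorial_succ]
    push_cast
    ring
  rw [hfac] at h0
  have hd : (0 : ℝ) < (d.factorial : ℝ) := by exact_mod_cast Nat.factorial_pos d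
  have ht2 : 0 ≤ t * t := mul_self_nonneg t
  have h1 := mul_le_mul_of_nonneg_left hh ht2
  have h2 : 0 ≤ (d.factorial : ℝ) * (((d : ℝ) + 2) * (((d : ℝ) + 1) * PK_F v (d + 2) - 2 * t * ((d : ℝ) + 1) * PK_F v d +
      t * t * ((r : ℝ) + d) * PK_F v d)) := by
    nlinarith [h0, h1]
  have h3 : 0 ≤ ((d : ℝ) + 2) * (((d : ℝ) + 1) * PK_F v (d + 2) - 2 * t * ((d : ℝ) + 1) * PK_F v d +
      t * t * ((r : ℝ) + d) * PK_F v d) := nonneg_of_mul_nonneg_right h2 hd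
  have h4 : 0 ≤ ((d : ℝ) + 1) * PK_F v (d + 2) - 2 * t * ((d : ℝ) + 1) * PK_F v d +
      t * t * ((r : ℝ) + d) * PK_F v d := nonneg_of_mul_nonneg_right h3 (by positivity)
  have h5 : t * ((r : ℝ) + d) = (d : ℝ) + 1 := by
    rw [ht]
    field_simp
  have h6 : t * t * ((r : ℝ) + d) = t * ((d : ℝ) + 1) := by rw [mul_assoc, h5]
  rw [h6] at h4
  have h7 : 0 ≤ ((d : ℝ) + 1) * (PK_F v (d + 2) - t * PK_F v d) := by nlinarith [h4]
  have h8 : 0 ≤ PK_F v (d + 2) - t * PK_F v d := nonneg_of_mul_nonneg_right h7 (by positivity)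
  calc ((d : ℝ) + 1) * PK_F v d = ((r : ℝ) + d) * (t * PK_F v d) := by rw [← h5]; ring
    _ ≤ ((r : ℝ) + d) * PK_F v (d + 2) := mul_le_mul_of_nonneg_left (by linarith) hrd.le

private theorem PK_ratio {n : ℕ} (hr : 0 < r) (v : Fin n → Fin r → ℝ) (hv : ∀ i, ∑ a, v i a ^ 2 = 1) (k : ℕ) :
    (2 * (k : ℝ) + 1) * PK_F v (2 * k) ≤ ((r : ℝ) + 2 * k) * PK_F v (2 * (k + 1)) := by
  induction k with
  | zero =>
    have h := PK_step hr v hv 0 (by
      rw [PK_B_hh, PK_D_G_zero]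
      simp)
    simpa using h
  | succ k ih =>
    have h := PK_step hr v hv (2 * (k + 1)) (by
      have e : 2 * (k + 1) = 2 * k + 2 := by ring
      rw [PK_B_hh]
      have h1 : PK_D (PK_G v (2 * (k + 1))) = (((2 * k : ℕ) : ℝ) + 2) • ((((2 * k : ℕ) : ℝ) + 1) • PK_G v (2 * k)) := by
        rw [e, PK_D_G v hv, smul_smul]
      rw [h1]
      simp only [map_smul, LinearMap.smul_apply, smul_eq_mul, PK_B_G]
      have hfac : ((2 * (k + 1)).factorial : ℝ) = (((2 * k : ℕ) : ℝ) + 2) * (((2 * k : ℕ) : ℝ) + 1) * ((2 * k).factorial : ℝ) := by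
        rw [e, Nat.factorial_succ, Nat.factorial_succ]
        push_cast
        ring
      have hf0 : (0 : ℝ) ≤ ((2 * (k + 1)).factorial : ℝ) := Nat.cast_nonneg _
      have h2 : (((2 * k : ℕ) : ℝ) + 2) * ((((2 * k : ℕ) : ℝ) + 1) * ((((2 * k : ℕ) : ℝ) + 2) *
          ((((2 * k : ℕ) : ℝ) + 1) * (((2 * k).factorial : ℝ) * PK_F v (2 * k))))) =
          ((2 * (k + 1)).factorial : ℝ) * ((((2 * k : ℕ) : ℝ) + 2) * ((((2 * k : ℕ) : ℝ) + 1) * PK_F v (2 * k))) := by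
        rw [hfac]
        ring
      rw [h2]
      have h3 : (((2 * k : ℕ) : ℝ) + 2) * ((((2 * k : ℕ) : ℝ) + 1) * PK_F v (2 * k)) ≤
          (((2 * k : ℕ) : ℝ) + 2) * (((r : ℝ) + 2 * k) * PK_F v (2 * (k + 1))) := by
        refine mul_le_mul_of_nonneg_left ?_ (by positivity)
        push_cast
        exact ih
      have h4 := mul_le_mul_of_nonneg_left h3 hf0
      push_cast at h4 ⊢
      nlinarith [h4])
    push_cast at h ⊢
    have e2 : 2 * (k + 1) + 2 = 2 * (k + 1 + 1) := by ring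
    rw [e2] at h
    exact h

private theorem PK_F_zero {n : ℕ} (v : Fin n → Fin r → ℝ) : PK_F v (2 * 0) = (n : ℝ) ^ 2 := by
  simp [PK_F, sq]

private theorem PK_F_nonneg {n : ℕ} (v : Fin n → Fin r → ℝ) (k : ℕ) : 0 ≤ PK_F v (2 * k) :=
  Finset.sum_nonneg fun i _ => Finset.sum_nonneg fun j _ => by
    rw [pow_mul]
    positivity

private theorem PK_chain {n : ℕ} (hr : 0 < r) (v : Fin n → Fin r → ℝ) (hv : ∀ i, ∑ a, v i a ^ 2 = 1) (m : ℕ) :
    (n : ℝ) ^ 2 ≤ (∏ k ∈ Finset.range m, ((r : ℝ) + 2 * k) / (2 * k + 1)) * PK_F v (2 * m) := by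
  induction m with
  | zero => simpa using (PK_F_zero v).ge
  | succ m ih =>
    rw [Finset.prod_range_succ, mul_assoc]
    refine ih.trans (mul_le_mul_of_nonneg_left ?_ (Finset.prod_nonneg fun k _ => by positivity))
    have h := PK_ratio hr v hv m
    rw [div_mul_eq_mul_div, le_div_iff₀ (by positivity)]
    linarith

private theorem PK_prod (r m : ℕ) :
    (∏ k ∈ Finset.range (m + 1), ((r : ℝ) + 2 * k) / (2 * k + 1)) ≤ (r : ℝ) * (((r + 1) / 2 + m).choose m : ℝ) := by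
  induction m with
  | zero => simp
  | succ m ih =>
    rw [Finset.prod_range_succ]
    have h0 : (0 : ℝ) ≤ ((r : ℝ) + 2 * ((m + 1 : ℕ) : ℝ)) / (2 * ((m + 1 : ℕ) : ℝ) + 1) := by positivity
    refine (mul_le_mul_of_nonneg_right ih h0).trans ?_
    have hρ : (r : ℝ) ≤ 2 * (((r + 1) / 2 : ℕ) : ℝ) := by
      have : r ≤ 2 * ((r + 1) / 2) := by omega
      exact_mod_cast this
    set ρ : ℕ := (r + 1) / 2 with hρd
    have h1 : ((r : ℝ) + 2 * ((m + 1 : ℕ) : ℝ)) / (2 * ((m + 1 : ℕ) : ℝ) + 1) ≤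
        ((ρ : ℝ) + m + 1) / ((m : ℝ) + 1) := by
      rw [div_le_div_iff₀ (by positivity) (by positivity)]
      push_cast
      have hm : (0 : ℝ) ≤ m := Nat.cast_nonneg m
      have hρ0 : (0 : ℝ) ≤ ρ := Nat.cast_nonneg ρ
      nlinarith [mul_le_mul_of_nonneg_right hρ (by linarith : (0 : ℝ) ≤ (m : ℝ) + 1)]
    have h2 : (((ρ + (m + 1)).choose (m + 1) : ℕ) : ℝ) = ((ρ + m).choose m : ℝ) * (((ρ : ℝ) + m + 1) / ((m : ℝ) + 1)) := by
      have h3 := Nat.add_one_mul_choose_eq (ρ + m) m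
      have h4 : ((ρ : ℝ) + m + 1) * ((ρ + m).choose m : ℝ) = ((ρ + (m + 1)).choose (m + 1) : ℝ) * ((m : ℝ) + 1) := by
        have : ρ + (m + 1) = (ρ + m).succ := rfl
        rw [this]
        exact_mod_cast h3
      rw [mul_div_assoc', eq_div_iff (by positivity), ← h4]
      ring
    rw [h2, mul_assoc]
    refine mul_le_mul_of_nonneg_left (mul_le_mul_of_nonneg_left h1 (Nat.cast_nonneg _)) (Nat.cast_nonneg _)

/-- the linear programming bound with `t ^ (2 m + 2) (t ^ 2 - β)` -/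
theorem packing_gen {r n : ℕ} (v : Fin n → Fin r → ℝ) (hv : ∀ i, ∑ a, v i a ^ 2 = 1) (β : ℝ) (hβ : β ≤ 1)
    (h : ∀ i j, i ≠ j → (∑ a, v i a * v j a) ^ 2 ≤ β) (m : ℕ)
    (hm : 1 ≤ 2 * ((m : ℝ) + 1) + 1 - β * ((r : ℝ) + 2 * (m + 1))) :
    (n : ℝ) ≤ (1 - β) * ((r : ℝ) + 2 * (m + 1)) * ((r : ℝ) * (2 : ℝ) ^ ((r + 1) / 2 + m)) := by
  have hrm : (0 : ℝ) ≤ (r : ℝ) + 2 * (m + 1) := by positivity
  rcases Nat.eq_zero_or_pos n with hn | hn
  · rw [hn, Nat.cast_zero]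
    have : 0 ≤ 1 - β := by linarith
    positivity
  have hr : 0 < r := by
    rcases Nat.eq_zero_or_pos r with hr | hr
    · subst hr
      have := hv ⟨0, hn⟩
      simp at this
    · exact hr
  have hn' : (0 : ℝ) < n := by exact_mod_cast hn
  have hr' : (1 : ℝ) ≤ r := by exact_mod_cast hr
  -- off diagonal
  have hoff : PK_F v (2 * (m + 1 + 1)) ≤ β * PK_F v (2 * (m + 1)) + (1 - β) * n := by
    have hterm : ∀ i j : Fin n, (∑ a, v i a * v j a) ^ (2 * (m + 1 + 1)) ≤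
        β * (∑ a, v i a * v j a) ^ (2 * (m + 1)) + (if i = j then (1 - β) else 0) := by
      intro i j
      by_cases hij : i = j
      · subst hij
        have : ∑ a, v i a * v i a = 1 := by
          rw [← hv i]
          exact Finset.sum_congr rfl fun a _ => by ring
        rw [this]
        norm_num
      · rw [if_neg hij, add_zero]
        have e : 2 * (m + 1 + 1) = 2 + 2 * (m + 1) := by ring
        rw [e, pow_add]
        refine mul_le_mul_of_nonneg_right (h i j hij) ?_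
        rw [pow_mul]
        positivity
    calc PK_F v (2 * (m + 1 + 1)) ≤ ∑ i, ∑ j, (β * (∑ a, v i a * v j a) ^ (2 * (m + 1)) +
          (if i = j then (1 - β) else 0)) := Finset.sum_le_sum fun i _ => Finset.sum_le_sum fun j _ => hterm i j
      _ = β * PK_F v (2 * (m + 1)) + (1 - β) * n := by
        simp_rw [Finset.sum_add_distrib, ← Finset.mul_sum]
        simp [PK_F]
        ring
  have hrat := PK_ratio hr v hv (m + 1)
  have hF0 := PK_F_nonneg v (m + 1)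
  have hF1 : PK_F v (2 * (m + 1)) ≤ (1 - β) * (n * ((r : ℝ) + 2 * (m + 1))) := by
    have h1 : ((r : ℝ) + 2 * ((m + 1 : ℕ) : ℝ)) * PK_F v (2 * (m + 1 + 1)) ≤
        ((r : ℝ) + 2 * ((m + 1 : ℕ) : ℝ)) * (β * PK_F v (2 * (m + 1)) + (1 - β) * n) :=
      mul_le_mul_of_nonneg_left hoff (by positivity)
    push_cast at h1 hrat
    have h2 : 1 * PK_F v (2 * (m + 1)) ≤
        (2 * ((m : ℝ) + 1) + 1 - β * ((r : ℝ) + 2 * (m + 1))) * PK_F v (2 * (m + 1)) :=
      mul_le_mul_of_nonneg_right hm hF0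
    nlinarith [h1, hrat, h2]
  have hch := PK_chain hr v hv (m + 1)
  have hP := PK_prod r m
  have hP0 : (0 : ℝ) ≤ ∏ k ∈ Finset.range (m + 1), ((r : ℝ) + 2 * k) / (2 * k + 1) :=
    Finset.prod_nonneg fun k _ => by positivity
  set P : ℝ := ∏ k ∈ Finset.range (m + 1), ((r : ℝ) + 2 * k) / (2 * k + 1) with hPd
  have h3 : (n : ℝ) ≤ (1 - β) * ((r : ℝ) + 2 * (m + 1)) * P := by
    have h4 : (n : ℝ) ^ 2 ≤ P * ((1 - β) * (n * ((r : ℝ) + 2 * (m + 1)))) :=
      hch.trans (mul_le_mul_of_nonneg_left hF1 hP0)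
    have h7 : (n : ℝ) * n ≤ (n : ℝ) * ((1 - β) * ((r : ℝ) + 2 * (m + 1)) * P) := by
      rw [← sq]
      refine h4.trans (le_of_eq ?_)
      ring
    exact le_of_mul_le_mul_left h7 hn'
  have h9 : ((((r + 1) / 2 + m).choose m : ℕ) : ℝ) ≤ (2 : ℝ) ^ ((r + 1) / 2 + m) := by
    exact_mod_cast Nat.choose_le_two_pow _ _
  have h10 : P ≤ (r : ℝ) * (2 : ℝ) ^ ((r + 1) / 2 + m) :=
    hP.trans (mul_le_mul_of_nonneg_left h9 (Nat.cast_nonneg _))
  exact h3.trans (mul_le_mul_of_nonneg_left h10 (mul_nonneg (by linarith) hrm))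

/-- bound for the number of lines of `ℝ ^ r` with `cos ^ 2 ≤ 49 / 100` -/
noncomputable def pkM (r : ℕ) : ℝ := 3 * ((r : ℝ) + 1) ^ 2 * (2 : ℝ) ^ (50 / 51 * (r : ℝ))

theorem packing_vecM {r n : ℕ} (v : Fin n → Fin r → ℝ) (hv : ∀ i, ∑ a, v i a ^ 2 = 1)
    (h : ∀ i j, i ≠ j → (∑ a, v i a * v j a) ^ 2 ≤ 49 / 100) : (n : ℝ) ≤ pkM r := by
  obtain ⟨m, hm⟩ : ∃ m : ℕ, m = 49 * r / 102 := ⟨_, rfl⟩
  have hm1 : 102 * m ≤ 49 * r := by omega
  have hm2 : 49 * r + 1 ≤ 102 * (m + 1) := by omega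
  have hm1' : 102 * (m : ℝ) ≤ 49 * r := by exact_mod_cast hm1
  have hm2' : 49 * (r : ℝ) + 1 ≤ 102 * ((m : ℝ) + 1) := by exact_mod_cast hm2
  have hr0 : (0 : ℝ) ≤ r := Nat.cast_nonneg r
  have h1 := packing_gen v hv (49 / 100) (by norm_num) h m (by linarith)
  have h10 : (2 : ℝ) ^ ((r + 1) / 2 + m) ≤ (2 : ℝ) ^ (50 / 51 * (r : ℝ) + 1) := by
    rw [← Real.rpow_natCast]
    refine Real.rpow_le_rpow_of_exponent_le (by norm_num) ?_
    have h11 : 2 * ((r + 1) / 2) ≤ r + 1 := by omega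
    have h11' : 2 * (((r + 1) / 2 : ℕ) : ℝ) ≤ (r : ℝ) + 1 := by exact_mod_cast h11
    push_cast
    linarith
  rw [Real.rpow_add (by norm_num), Real.rpow_one] at h10
  have hz : (0 : ℝ) < (2 : ℝ) ^ (50 / 51 * (r : ℝ)) := by positivity
  refine h1.trans ?_
  have h5 : (1 - 49 / 100 : ℝ) * ((r : ℝ) + 2 * (m + 1)) ≤ 51 / 50 * ((r : ℝ) + 1) := by linarith
  have h6 : (r : ℝ) * (2 : ℝ) ^ ((r + 1) / 2 + m) ≤ 2 * (r : ℝ) * (2 : ℝ) ^ (50 / 51 * (r : ℝ)) := by
    calc (r : ℝ) * (2 : ℝ) ^ ((r + 1) / 2 + m) ≤ (r : ℝ) * ((2 : ℝ) ^ (50 / 51 * (r : ℝ)) * 2) :=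
          mul_le_mul_of_nonneg_left h10 hr0
      _ = _ := by ring
  calc (1 - 49 / 100 : ℝ) * ((r : ℝ) + 2 * (m + 1)) * ((r : ℝ) * (2 : ℝ) ^ ((r + 1) / 2 + m)) ≤
        (51 / 50 * ((r : ℝ) + 1)) * (2 * (r : ℝ) * (2 : ℝ) ^ (50 / 51 * (r : ℝ))) :=
        mul_le_mul h5 h6 (by positivity) (by positivity)
    _ = (51 / 50 * ((r : ℝ) + 1) * (2 * (r : ℝ))) * (2 : ℝ) ^ (50 / 51 * (r : ℝ)) := by ring
    _ ≤ pkM r := by
      unfold pkM
      refine mul_le_mul_of_nonneg_right ?_ hz.le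
      nlinarith

end Pool.Agent.LibUM24
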