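import Mathlib

/-!
ROW V1 (SHORT). Simultaneous Dirichlet approximation with different tolerances (pigeonhole).

PLAN. Copy `Pool/Agent/LibDP24/D1.lean` (theorem `dirichlet` and its private lemma) with `L` replaced by `L i`: boxes `(i : Fin r) → Fin (L i)`
(dependent functions; `Fintype.card_pi`, `∏ i, L i`), `t ∈ Fin (∏ i, L i + 1)`.
-/

set_option autoImplicit false

namespace Pool.Agent.LibUM24

private theorem V1_aux (r : ℕ) (c : Fin r → ℝ) (L : Fin r → ℕ) (hL : ∀ i, 0 < L i) (s t : ℕ)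
    (hst : s < t) (ht : t ≤ ∏ i, L i)
    (h : ∀ i, ⌊(L i : ℝ) * Int.fract ((s : ℝ) * c i)⌋₊ = ⌊(L i : ℝ) * Int.fract ((t : ℝ) * c i)⌋₊) :
    ∃ t : ℕ, 1 ≤ t ∧ t ≤ ∏ i, L i ∧ ∃ a : Fin r → ℤ, ∀ i, |(t : ℝ) * c i - a i| ≤ 1 / L i := by
  refine ⟨t - s, by omega, by omega, fun i => ⌊(t : ℝ) * c i⌋ - ⌊(s : ℝ) * c i⌋, fun i => ?_⟩
  have hL' : (0 : ℝ) < L i := by exact_mod_cast hL i
  have e1 : ((t - s : ℕ) : ℝ) * c i - ((⌊(t : ℝ) * c i⌋ - ⌊(s : ℝ) * c i⌋ : ℤ) : ℝ) =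
      Int.fract ((t : ℝ) * c i) - Int.fract ((s : ℝ) * c i) := by
    rw [Nat.cast_sub hst.le, Int.cast_sub, Int.fract, Int.fract]
    ring
  rw [e1]
  have h1 := Int.fract_nonneg ((t : ℝ) * c i)
  have h2 := Int.fract_nonneg ((s : ℝ) * c i)
  have a1 := Nat.floor_le (mul_nonneg hL'.le h1)
  have a2 := Nat.floor_le (mul_nonneg hL'.le h2)
  have b1 := Nat.lt_floor_add_one ((L i : ℝ) * Int.fract ((t : ℝ) * c i))
  have b2 := Nat.lt_floor_add_one ((L i : ℝ) * Int.fract ((s : ℝ) * c i))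
  rw [h i] at a2 b2
  rw [abs_le, le_div_iff₀ hL', neg_le, ← neg_sub, neg_neg, le_div_iff₀ hL']
  constructor <;> nlinarith

theorem dirichletU (r : ℕ) (c : Fin r → ℝ) (L : Fin r → ℕ) (hL : ∀ i, 0 < L i) :
    ∃ t : ℕ, 1 ≤ t ∧ t ≤ ∏ i, L i ∧ ∃ a : Fin r → ℤ, ∀ i, |(t : ℝ) * c i - a i| ≤ 1 / L i := by
  have key : ∀ (t : ℕ) (i : Fin r), ⌊(L i : ℝ) * Int.fract ((t : ℝ) * c i)⌋₊ < L i := by
    intro t i
    have hL' : (0 : ℝ) < L i := by exact_mod_cast hL i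
    rw [Nat.floor_lt (mul_nonneg hL'.le (Int.fract_nonneg _))]
    have := Int.fract_lt_one ((t : ℝ) * c i)
    nlinarith
  obtain ⟨s, t, hne, heq⟩ := Fintype.exists_ne_map_eq_of_card_lt
    (fun (t : Fin (∏ i, L i + 1)) =>
      ((fun i => ⟨⌊(L i : ℝ) * Int.fract (((t : ℕ) : ℝ) * c i)⌋₊, key t i⟩) :
        (i : Fin r) → Fin (L i)))
    (by simp)
  have h : ∀ i, ⌊(L i : ℝ) * Int.fract (((s : ℕ) : ℝ) * c i)⌋₊ =
      ⌊(L i : ℝ) * Int.fract (((t : ℕ) : ℝ) * c i)⌋₊ := by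
    intro i
    have := congrFun heq i
    exact congrArg Fin.val this
  rcases lt_or_gt_of_ne (fun hh : (s : ℕ) = t => hne (Fin.ext hh)) with h1 | h1
  · exact V1_aux r c L hL s t h1 (by omega) h
  · exact V1_aux r c L hL t s h1 (by omega) (fun i => (h i).symm)

end Pool.Agent.LibUM24
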