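import Pool.Agent.LibUM24.V1
import Pool.Agent.LibDM24.MI

/-!
ROW V2 (SHORT/MEDIUM). Small relations between points of different heights (cites V1 as stated, LibDP24.H3 `sqrt_hh_sum`, `hh_zsmul`; compare the proof of
`small_relation'` in `Pool/Agent/LibDM24/MI.lean`, copy it).

PLAN. `m ≠ 0`, `∑ m i • P i = 0`; `i₀` with `|m i₀| * q i₀` MAXIMAL (so `m i₀ ≠ 0`), `c i = m i / m i₀`, so `|c i| * q i ≤ q i₀`. `L i = ⌈Λ * q i⌉₊`:
`Λ q i ≤ L i ≤ Λ q i + 1 ≤ 2 Λ q i`. `dirichletU` for the `r` numbers `c (i₀.succAbove j)` with tolerances `L (i₀.succAbove j)`: `1 ≤ t ≤ ∏ j, L (i₀.succAbove j)`,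
`a i₀ = t`, `a (i₀.succAbove j) = a' j`, `|t c i - a i| ≤ 1 / L i ≤ 1 / (Λ q i)` for `i ≠ i₀` (and `= 0` for `i = i₀`).
Torsion: otherwise `lam ≤ hh (∑ a i • P i)`, but `√hh ≤ ∑ 1 / (Λ q i) * q i ≤ (r + 1) / Λ`, so `lam Λ² ≤ (r+1)²`, absurd.
Size: `|a i| ≤ t |c i| + 1`, `|a i| q i ≤ t q i₀ + q i ≤ ((2Λ)^r ∏ j, q (i₀.succAbove j)) q i₀ + q i ≤ 2 (2Λ)^r ∏ q` (`Fin.prod_univ_succAbove`; `q i ≤ ∏ q` as all `q ≥ 1`).
-/

set_option autoImplicit false

namespace Pool.Agent.LibUM24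

open Pool.Agent.LibDP24

theorem small_relationU {G : Type*} [AddCommGroup G] {hh : G → ℝ}
    (par : ∀ R S, hh (R + S) + hh (R - S) = 2 * hh R + 2 * hh S) (nonneg : ∀ R, 0 ≤ hh R)
    {lam : ℝ} (hlow : ∀ R, ¬ IsOfFinAddOrder R → lam ≤ hh R)
    {r : ℕ} (P : Fin (r + 1) → G) (hP : ¬ LinearIndependent ℤ P) (q : Fin (r + 1) → ℝ)
    (hq1 : ∀ i, 1 ≤ q i) (hq : ∀ i, hh (P i) ≤ q i ^ 2)
    (Λ : ℝ) (hΛ : 1 ≤ Λ) (hΛ2 : ((r : ℝ) + 1) ^ 2 < lam * Λ ^ 2) :
    ∃ a : Fin (r + 1) → ℤ, a ≠ 0 ∧ (∀ i, |(a i : ℝ)| * q i ≤ 2 * (2 * Λ) ^ r * ∏ j, q j) ∧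
      IsOfFinAddOrder (∑ i, a i • P i) := by
  classical
  obtain ⟨m, hm, i1, hi1⟩ := Fintype.not_linearIndependent_iff.1 hP
  obtain ⟨i₀, -, hmax⟩ := Finset.exists_max_image (Finset.univ : Finset (Fin (r + 1)))
    (fun i => |(m i : ℝ)| * q i) ⟨0, Finset.mem_univ _⟩
  have hq0 : ∀ i, 0 < q i := fun i => lt_of_lt_of_le one_pos (hq1 i)
  have hΛ0 : 0 < Λ := lt_of_lt_of_le one_pos hΛ
  have hm0 : m i₀ ≠ 0 := by
    intro h
    have h1 := hmax i1 (Finset.mem_univ _)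
    simp only [h, Int.cast_zero, abs_zero, zero_mul] at h1
    have h2 : (m i1 : ℝ) ≠ 0 := by exact_mod_cast hi1
    have h3 := mul_pos (abs_pos.2 h2) (hq0 i1)
    linarith
  have hm0R : (m i₀ : ℝ) ≠ 0 := by exact_mod_cast hm0
  have hm0P : 0 < |(m i₀ : ℝ)| := abs_pos.2 hm0R
  -- the integer tolerances
  obtain ⟨L, hLdef⟩ : ∃ L : Fin (r + 1) → ℕ, ∀ i, L i = ⌈Λ * q i⌉₊ := ⟨fun i => ⌈Λ * q i⌉₊, fun _ => rfl⟩
  have hΛq : ∀ i, 1 ≤ Λ * q i := fun i => by nlinarith [hq1 i]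
  have hLlo : ∀ i, Λ * q i ≤ L i := fun i => by
    rw [hLdef]
    exact Nat.le_ceil _
  have hLup : ∀ i, (L i : ℝ) ≤ 2 * Λ * q i := fun i => by
    have h1 := Nat.ceil_lt_add_one (a := Λ * q i) (by linarith [hΛq i])
    rw [← hLdef] at h1
    linarith [hΛq i]
  have hLR : ∀ i, (0 : ℝ) < L i := fun i => by linarith [hLlo i, hΛq i]
  have hL0 : ∀ i, 0 < L i := fun i => by exact_mod_cast hLR i
  obtain ⟨t, ht1, ht2, a', ha⟩ := dirichletU r (fun j => (m (i₀.succAbove j) : ℝ) / m i₀)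
    (fun j => L (i₀.succAbove j)) (fun j => hL0 _)
  have htR : (t : ℝ) ≤ (2 * Λ) ^ r * ∏ j, q (i₀.succAbove j) := by
    have h1 : (t : ℝ) ≤ ∏ j : Fin r, (L (i₀.succAbove j) : ℝ) := by exact_mod_cast ht2
    have h2 : ∏ j : Fin r, (L (i₀.succAbove j) : ℝ) ≤ ∏ j : Fin r, (2 * Λ * q (i₀.succAbove j)) :=
      Finset.prod_le_prod (fun j _ => (hLR _).le) (fun j _ => hLup _)
    rw [Finset.prod_mul_distrib, Finset.prod_const, Finset.card_univ, Fintype.card_fin] at h2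
    exact h1.trans h2
  have ht0 : (0 : ℝ) ≤ t := by positivity
  -- the new coefficients
  obtain ⟨b, hb0, hbs⟩ : ∃ b : Fin (r + 1) → ℤ, b i₀ = t ∧ ∀ j, b (i₀.succAbove j) = a' j :=
    ⟨Fin.insertNth i₀ (t : ℤ) a', Fin.insertNth_apply_same _ _ _, fun j => Fin.insertNth_apply_succAbove _ _ _ _⟩
  have key : ∀ i, |(t : ℝ) * ((m i : ℝ) / m i₀) - (b i : ℤ)| ≤ 1 / L i := by
    intro i
    rcases Fin.eq_self_or_eq_succAbove i₀ i with h | ⟨j, h⟩
    · rw [h, hb0, div_self hm0R]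
      simp
    · rw [h, hbs]
      exact ha j
  have hprod : ∏ j, q j = q i₀ * ∏ j, q (i₀.succAbove j) := Fin.prod_univ_succAbove _ _
  have hprod1 : ∀ i, q i ≤ ∏ j, q j := fun i => by
    have h1 := Finset.mul_prod_erase Finset.univ q (Finset.mem_univ i)
    have h2 : 1 ≤ ∏ j ∈ Finset.univ.erase i, q j := by
      have h3 := Finset.prod_le_prod (s := Finset.univ.erase i) (f := fun _ => (1 : ℝ)) (g := q)
        (fun _ _ => zero_le_one) (fun j _ => hq1 j)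
      rwa [Finset.prod_const_one] at h3
    rw [← h1]
    nlinarith [hq0 i]
  have hΛr : 1 ≤ (2 * Λ) ^ r := one_le_pow₀ (by linarith)
  refine ⟨b, ?_, ?_, ?_⟩
  · intro h
    have h1 := congrFun h i₀
    rw [hb0, Pi.zero_apply] at h1
    have : t = 0 := by exact_mod_cast h1
    omega
  · intro i
    have h1 := key i
    have h2 : |(t : ℝ) * ((m i : ℝ) / m i₀)| * q i ≤ t * q i₀ := by
      rw [abs_mul, abs_of_nonneg ht0, abs_div, mul_assoc]
      refine mul_le_mul_of_nonneg_left ?_ ht0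
      rw [div_mul_eq_mul_div, div_le_iff₀ hm0P, mul_comm (q i₀)]
      exact hmax i (Finset.mem_univ _)
    have h3 : |((b i : ℤ) : ℝ)| ≤ |(t : ℝ) * ((m i : ℝ) / m i₀)| + 1 := by
      have h4 := abs_sub_abs_le_abs_sub ((b i : ℤ) : ℝ)
        ((t : ℝ) * ((m i : ℝ) / m i₀))
      rw [abs_sub_comm] at h4
      have h5 : (1 : ℝ) / L i ≤ 1 := by
        rw [div_le_one (hLR i)]
        linarith [hLlo i, hΛq i]
      linarith
    have h6 := mul_le_mul_of_nonneg_right h3 (hq0 i).le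
    have h7 : (t : ℝ) * q i₀ ≤ (2 * Λ) ^ r * ∏ j, q j := by
      rw [hprod]
      have h8 := mul_le_mul_of_nonneg_right htR (hq0 i₀).le
      linarith
    have h9 := hprod1 i
    have h10 : 0 < ∏ j, q j := Finset.prod_pos (fun j _ => hq0 j)
    nlinarith
  · by_contra hS
    have h1 := hlow _ hS
    have h2 : m i₀ • ∑ i, b i • P i =
        ∑ i, (m i₀ * b i - t * m i) • P i := by
      rw [Finset.smul_sum]
      have h3 : ∀ i, (m i₀ * b i - t * m i) • P i =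
          m i₀ • b i • P i - (t : ℤ) • m i • P i := by
        intro i
        rw [sub_smul, mul_smul, mul_smul]
      rw [Finset.sum_congr rfl fun i _ => h3 i, Finset.sum_sub_distrib, ← Finset.smul_sum (r := (t : ℤ)), hm,
        smul_zero, sub_zero]
    have h4 := sqrt_hh_sum par nonneg Finset.univ
      (fun i => m i₀ * b i - t * m i) P
    rw [← h2, hh_zsmul par, Real.sqrt_mul (sq_nonneg _), Real.sqrt_sq_eq_abs] at h4
    have h5 : ∀ i ∈ (Finset.univ : Finset (Fin (r + 1))),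
        |((m i₀ * b i - t * m i : ℤ) : ℝ)| * √(hh (P i)) ≤ |(m i₀ : ℝ)| / Λ := by
      intro i _
      have h6 : |((m i₀ * b i - t * m i : ℤ) : ℝ)| ≤ |(m i₀ : ℝ)| / (Λ * q i) := by
        have e : ((m i₀ * b i - t * m i : ℤ) : ℝ) =
            -((m i₀ : ℝ) * ((t : ℝ) * ((m i : ℝ) / m i₀) - (b i : ℤ))) := by
          push_cast
          field_simp
          ring
        have h7 : (1 : ℝ) / L i ≤ 1 / (Λ * q i) :=
          one_div_le_one_div_of_le (by linarith [hΛq i]) (hLlo i)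
        have h8 := mul_le_mul_of_nonneg_left ((key i).trans h7) (abs_nonneg (m i₀ : ℝ))
        rw [e, abs_neg, abs_mul]
        exact h8.trans (le_of_eq (by ring))
      have h7 : √(hh (P i)) ≤ q i := by
        rw [← Real.sqrt_sq (hq0 i).le]
        exact Real.sqrt_le_sqrt (hq i)
      have h8 := mul_le_mul h6 h7 (Real.sqrt_nonneg _) (by have := hΛq i; positivity)
      refine h8.trans (le_of_eq ?_)
      have := (hq0 i).ne'
      field_simp
    have h8 := Finset.sum_le_sum h5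
    rw [Finset.sum_const, Finset.card_univ, Fintype.card_fin, nsmul_eq_mul] at h8
    have h9 : |(m i₀ : ℝ)| * √(hh (∑ i, b i • P i)) ≤
        |(m i₀ : ℝ)| * (((r : ℝ) + 1) / Λ) := by
      refine h4.trans (h8.trans (le_of_eq ?_))
      push_cast
      ring
    have h10 := le_of_mul_le_mul_left h9 hm0P
    have h11 := pow_le_pow_left₀ (Real.sqrt_nonneg _) h10 2
    rw [Real.sq_sqrt (nonneg _), div_pow] at h11
    have h12 : ((r : ℝ) + 1) ^ 2 / Λ ^ 2 < lam := by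
      rw [div_lt_iff₀ (by positivity)]
      exact hΛ2
    linarith

end Pool.Agent.LibUM24
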