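import Mathlib

/-!
ROW V3 (MEDIUM, pure integer matrices). Multiples of a unit vector modulo a lattice.

PLAN. `d = b.det ≠ 0`, `adj = b.adjugate` : `∑ j, adj i₀ j * b j l = d * δ` (`Matrix.adjugate_mul`, entry `(i₀, l)`). `|d| ≤ r! A^r` (`Matrix.det_le`, applied to
`b.map (Int.cast : ℤ → ℝ)` or over `ℤ` with a real bound), `|adj i₀ j| ≤ r! A^r` (`Matrix.adjugate_apply`: a determinant of `b` with one row replaced by a unit vector, entries
`≤ A` because `A ≥ 1`). `D = |d|` (natAbs). `τ j = adj i₀ j / d` (real): `∑ j, τ j * b j l = δ`, `|τ j| ≤ r! A^r` as `|d| ≥ 1`. For `n ≤ D`: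
`y j = ⌊n τ j⌋`, `c l = n δ - ∑ j, y j * b j l` (an integer), `c l = ∑ j, Int.fract (n τ j) * b j l`, so `|c l| ≤ r A`; `|y j| ≤ n |τ j| + 1 ≤ (r! A^r)² + 1`.
For `n = D`: `D τ j = ± adj i₀ j` is an integer, so `fract = 0` and `c = 0`.
-/

set_option autoImplicit false

namespace Pool.Agent.LibUM24

private theorem V3_det_le {r : ℕ} (M : Matrix (Fin r) (Fin r) ℤ) (A : ℝ)
    (hM : ∀ i j, |(M i j : ℝ)| ≤ A) : |(M.det : ℝ)| ≤ (r.factorial : ℝ) * A ^ r := by
  have h1 := Matrix.det_le (A := M.map (Int.castRingHom ℝ)) (abv := AbsoluteValue.abs) (x := A)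
    (fun i j => by simpa using hM i j)
  rw [← RingHom.mapMatrix_apply, ← RingHom.map_det] at h1
  simpa [nsmul_eq_mul] using h1

private theorem V3_adj_le {r : ℕ} (b : Matrix (Fin r) (Fin r) ℤ) (A : ℝ) (hA : 1 ≤ A)
    (hbA : ∀ i j, |(b i j : ℝ)| ≤ A) (i j : Fin r) :
    |(b.adjugate i j : ℝ)| ≤ (r.factorial : ℝ) * A ^ r := by
  rw [Matrix.adjugate_apply]
  apply V3_det_le
  intro k l
  by_cases hk : k = j
  · subst hk
    rw [Matrix.updateRow_self]
    by_cases hl : l = i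
    · subst hl
      simpa using hA
    · rw [Pi.single_eq_of_ne hl]
      simp
      linarith
  · rw [Matrix.updateRow_ne hk]
    exact hbA k l

theorem lattice_steps {r : ℕ} (b : Matrix (Fin r) (Fin r) ℤ) (hb : b.det ≠ 0) (A : ℝ) (hA : 1 ≤ A)
    (hbA : ∀ i j, |(b i j : ℝ)| ≤ A) (i₀ : Fin r) :
    ∃ D : ℕ, 1 ≤ D ∧ ∀ n : ℕ, n ≤ D → ∃ c y : Fin r → ℤ,
      (∀ l, (if l = i₀ then (n : ℤ) else 0) = c l + ∑ j, y j * b j l) ∧ (∀ l, |(c l : ℝ)| ≤ r * A) ∧
      (∀ j, |(y j : ℝ)| ≤ ((r.factorial : ℝ) * A ^ r) ^ 2 + 1) ∧ (n = D → ∀ l, c l = 0) := by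
  set d : ℤ := b.det with hd
  have hdR : (d : ℝ) ≠ 0 := by exact_mod_cast hb
  have hd1 : (1 : ℝ) ≤ |(d : ℝ)| := by
    have : (1 : ℤ) ≤ |d| := Int.one_le_abs hb
    exact_mod_cast this
  have hM1 : (1 : ℝ) ≤ (r.factorial : ℝ) * A ^ r := by
    have h1 : (1 : ℝ) ≤ r.factorial := by exact_mod_cast r.factorial_pos
    have h2 : (1 : ℝ) ≤ A ^ r := one_le_pow₀ hA
    exact one_le_mul_of_one_le_of_one_le h1 h2
  set M : ℝ := (r.factorial : ℝ) * A ^ r with hM
  have hadj : ∀ j, |(b.adjugate i₀ j : ℝ)| ≤ M := fun j => V3_adj_le b A hA hbA i₀ j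
  have hmul : ∀ l, ∑ j, b.adjugate i₀ j * b j l = if l = i₀ then d else 0 := by
    intro l
    have h := congrFun (congrFun (Matrix.adjugate_mul b) i₀) l
    rw [Matrix.mul_apply, Matrix.smul_apply, Matrix.one_apply, ← hd] at h
    rw [h]
    by_cases hl : l = i₀
    · subst hl; simp
    · rw [if_neg hl, if_neg (Ne.symm hl)]; simp
  refine ⟨d.natAbs, Int.natAbs_pos.2 hb, fun n hn => ?_⟩
  have hnR : (n : ℝ) ≤ |(d : ℝ)| := by
    have h1 : (n : ℝ) ≤ (d.natAbs : ℝ) := by exact_mod_cast hn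
    rwa [Nat.cast_natAbs, Int.cast_abs] at h1
  set t : Fin r → ℝ := fun j => n * ((b.adjugate i₀ j : ℝ) / d) with ht
  have htsum : ∀ l, ∑ j, t j * (b j l : ℝ) = if l = i₀ then (n : ℝ) else 0 := by
    intro l
    have h1 : ∑ j, t j * (b j l : ℝ) = n / d * ∑ j, (b.adjugate i₀ j : ℝ) * (b j l : ℝ) := by
      rw [Finset.mul_sum]
      refine Finset.sum_congr rfl fun j _ => ?_
      rw [ht]; ring
    have h2 : ∑ j, (b.adjugate i₀ j : ℝ) * (b j l : ℝ) = ((if l = i₀ then d else 0 : ℤ) : ℝ) := by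
      rw [← hmul l]; push_cast; rfl
    rw [h1, h2]
    by_cases hl : l = i₀
    · rw [if_pos hl, if_pos hl]; field_simp
    · rw [if_neg hl, if_neg hl]; simp
  have hc : ∀ l, (((if l = i₀ then (n : ℤ) else 0) - ∑ j, ⌊t j⌋ * b j l : ℤ) : ℝ) =
      ∑ j, Int.fract (t j) * (b j l : ℝ) := by
    intro l
    have h1 : (((if l = i₀ then (n : ℤ) else 0 : ℤ)) : ℝ) = if l = i₀ then (n : ℝ) else 0 := by
      split_ifs <;> simp
    rw [Int.cast_sub, h1, ← htsum l, Int.cast_sum, ← Finset.sum_sub_distrib]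
    refine Finset.sum_congr rfl fun j _ => ?_
    unfold Int.fract
    push_cast
    ring
  refine ⟨fun l => (if l = i₀ then (n : ℤ) else 0) - ∑ j, ⌊t j⌋ * b j l, fun j => ⌊t j⌋,
    fun l => by ring, ?_, ?_, ?_⟩
  · intro l
    show |(((if l = i₀ then (n : ℤ) else 0) - ∑ j, ⌊t j⌋ * b j l : ℤ) : ℝ)| ≤ r * A
    rw [hc l]
    calc |∑ j, Int.fract (t j) * (b j l : ℝ)| ≤ ∑ j, |Int.fract (t j) * (b j l : ℝ)| :=
          Finset.abs_sum_le_sum_abs _ _
      _ ≤ ∑ _j : Fin r, A := by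
          refine Finset.sum_le_sum fun j _ => ?_
          rw [abs_mul, abs_of_nonneg (Int.fract_nonneg _)]
          calc Int.fract (t j) * |(b j l : ℝ)| ≤ 1 * |(b j l : ℝ)| :=
                mul_le_mul_of_nonneg_right (Int.fract_lt_one _).le (abs_nonneg _)
            _ ≤ A := by rw [one_mul]; exact hbA j l
      _ = r * A := by simp
  · intro j
    have h1 : |t j| ≤ M := by
      rw [ht]
      show |(n : ℝ) * ((b.adjugate i₀ j : ℝ) / d)| ≤ M
      rw [abs_mul, abs_div, abs_of_nonneg (Nat.cast_nonneg n), ← mul_div_assoc,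
        div_le_iff₀ (by linarith)]
      calc (n : ℝ) * |(b.adjugate i₀ j : ℝ)| ≤ |(d : ℝ)| * M :=
            mul_le_mul hnR (hadj j) (abs_nonneg _) (abs_nonneg _)
        _ = M * |(d : ℝ)| := mul_comm _ _
    have h2 : |((⌊t j⌋ : ℤ) : ℝ)| ≤ |t j| + 1 := by
      have h3 : ((⌊t j⌋ : ℤ) : ℝ) = t j - Int.fract (t j) := by
        unfold Int.fract; ring
      rw [h3]
      calc |t j - Int.fract (t j)| ≤ |t j| + |Int.fract (t j)| := abs_sub _ _
        _ ≤ |t j| + 1 := by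
            rw [abs_of_nonneg (Int.fract_nonneg (t j))]
            linarith [Int.fract_lt_one (t j)]
    have h4 : M ≤ M ^ 2 := by nlinarith
    linarith
  · intro hnD l
    have h1 : ∀ j, Int.fract (t j) = 0 := by
      intro j
      have h2 : ∃ s : ℤ, (n : ℝ) / d = s := by
        rcases Int.natAbs_eq d with h | h
        · refine ⟨1, ?_⟩
          have h3 : d = (n : ℤ) := by rw [hnD]; exact h
          have h4 : (d : ℝ) = n := by rw [h3]; simp
          rw [← h4]; simp [hdR]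
        · refine ⟨-1, ?_⟩
          have h3 : d = -(n : ℤ) := by rw [hnD]; exact h
          have h4 : (d : ℝ) = -n := by rw [h3]; simp
          have h5 : (n : ℝ) = -d := by linarith
          rw [h5, neg_div, div_self hdR]; simp
      obtain ⟨s, hs⟩ := h2
      have h3 : t j = ((s * b.adjugate i₀ j : ℤ) : ℝ) := by
        rw [ht]
        show (n : ℝ) * ((b.adjugate i₀ j : ℝ) / d) = _
        rw [Int.cast_mul, ← hs]; ring
      rw [h3, Int.fract_intCast]
    have h2 := hc l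
    have h3 : ∑ j, Int.fract (t j) * (b j l : ℝ) = 0 :=
      Finset.sum_eq_zero (fun j _ => by rw [h1 j, zero_mul])
    rw [h3] at h2
    show ((if l = i₀ then (n : ℤ) else 0) - ∑ j, ⌊t j⌋ * b j l : ℤ) = 0
    exact Int.cast_eq_zero.1 h2

end Pool.Agent.LibUM24
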