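import Pool.Agent.LibUM24.V3
import Pool.Agent.LibDM24.MJ

/-!
ROW V4 (MEDIUM/STRONG). A giant layer and a lower layer cannot both have full rank (cites V3 `lattice_steps`, LibDM24: MF `near_addM`, MG `near_zsumM`, MH `near_intM`,
MJ `comboM` as stated).

PLAN. `r ≥ 1`. `c₁` from `comboM C₀ _ (r + 1)`. `κ = |k|`. All `x i ≥ X`, `z i ≥ X`, and `X³ ≥ C κ`, so `near_intM`: `Near`, `1/2 ≤ x u² ≤ 2`, so `|u (P i)| ≤ √(2/X)`,
`|u (P i)| ≥ √(1/(2 x i)) ≥ exp(-T/4) / √2`, `|u (Q j)| ≤ √2 exp(-T/2)`. `X ≤ x i ≤ exp(T/2)`, so `exp(-T/4) ≤ X^(-1/2)`.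
(1) For every `j`: the relation `a`: `T_j = a 0 • Q j + ∑ i, a (i+1) • P i` is torsion, so `= 0` by `comboM` (with `N = r + 1`, family `Fin.cons (Q j) P`, bound `A`). `a 0 ≠ 0` (otherwise
`∑ a (i+1) • P i = 0`, `P` independent, `a = 0`). Put `α j = a 0`, `b j i = a (i+1)`: `∑ i, b j i • P i = - α j • Q j`.
(2) `b.det ≠ 0`: otherwise `∑ j, w j * b j i = 0` for all `i` with `w ≠ 0` (`Matrix.exists_vecMul_eq_zero_iff`), so `∑ j, (w j * α j) • Q j = 0`, so `w j α j = 0`, `w = 0`.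
(3) `lattice_steps` with `i₀ = 0 : Fin r`: for `n ≤ D`: `n • P 0 = ∑ l, c l • P l + ∑ j, y j • (∑ l, b j l • P l) = ∑ l, c l • P l - ∑ j, (y j * α j) • Q j`.
`S₁ = ∑ |c l| |u (P l)| ≤ r² A √(2/X)`, `S₂ = ∑ |y j α j| |u (Q j)| ≤ r A ((r! A^r)² + 1) √2 exp(-T/2) ≤ 3 r (r!)² A^(2r+1) exp(-T/2) ≤ (1/100) exp(-T/4)` by the hypothesis
`C A^(2r+1) ≤ exp(T/4)` (`C ≥ 300 r (r!)²`), and `exp(-T/4) ≤ X^(-1/2)`: so `S := S₁ + S₂ ≤ 3 r² A X^(-1/2)` and `κ (10 S)^6 ≤ 10^(-9)` if `C ≥ (30 r²)^6 10^9` (hypothesis `C A^6 κ ≤ X³`).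
`near_zsumM` for the `2 r` points (`Fin.append P Q` or `Fin.addCases`): `Near (n • P 0)`, `|u (n • P 0)| ≤ S + S/100 ≤ 2 S`.
(4) By induction on `n ≤ D`: `|u (n • P 0) - n u₀| ≤ n |u₀| / 100`, `u₀ = u (P 0)`: `near_addM` for `n • P 0` and `P 0` (`|u₀| ≤ √(2/X) ≤ 3 S'` with `S' = 3 r² A X^(-1/2)`; `κ (3 S')^6` tiny):
the error is `≤ 100 κ (|u(nP)| + |u₀|)^5 |u(nP)| |u₀| ≤ |u₀| / 100`. (`u (0 • P 0) = uu 0 = 0`.) So `|u (D • P 0)| ≥ 0.99 D |u₀| ≥ 0.99 |u₀| ≥ 0.69 exp(-T/4)`.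
(5) For `n = D`: `c = 0`, `D • P 0 = - ∑ j, (y j * α j) • Q j`, `near_zsumM` for `Q`: `|u (D • P 0)| ≤ 1.01 S₂ ≤ 0.02 exp(-T/4)`. Contradiction.
-/

set_option autoImplicit false

open WeierstrassCurve Pool.Agent.LibDP24 Pool.Agent.LibDM24

namespace Pool.Agent.LibUM24

/-- the relations -/
private theorem V4_rel {G : Type*} [AddCommGroup G] {r : ℕ} (P Q : Fin r → G) (hP : LinearIndependent ℤ P)
    (a : Fin r → Fin (r + 1) → ℤ) (ha0 : ∀ j, a j ≠ 0)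
    (hrel : ∀ j, ∑ i, a j i • (Fin.cons (Q j) P : Fin (r + 1) → G) i = 0) :
    (∀ j, a j 0 ≠ 0) ∧ ∀ j, ∑ i : Fin r, a j i.succ • P i = -(a j 0 • Q j) := by
  have h1 : ∀ j, a j 0 • Q j + ∑ i : Fin r, a j i.succ • P i = 0 := by
    intro j
    have h2 := hrel j
    rw [Fin.sum_univ_succ] at h2
    simpa only [Fin.cons_zero, Fin.cons_succ] using h2
  refine ⟨fun j h0 => ?_, fun j => ?_⟩
  · have h2 := h1 j
    rw [h0, zero_smul, zero_add] at h2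
    have h3 := Fintype.linearIndependent_iff.mp hP (fun i => a j i.succ) h2
    apply ha0 j
    funext i
    refine Fin.cases ?_ (fun i => ?_) i
    · exact h0
    · exact h3 i
  · exact (neg_eq_of_add_eq_zero_right (h1 j)).symm

/-- the matrix of the relations is regular -/
private theorem V4_det {G : Type*} [AddCommGroup G] {r : ℕ} (P Q : Fin r → G) (hQ : LinearIndependent ℤ Q)
    (b : Matrix (Fin r) (Fin r) ℤ) (α : Fin r → ℤ) (hα : ∀ j, α j ≠ 0)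
    (h : ∀ j, ∑ i, b j i • P i = -(α j • Q j)) : b.det ≠ 0 := by
  intro hdet
  obtain ⟨w, hw0, hw⟩ := Matrix.exists_vecMul_eq_zero_iff.mpr hdet
  apply hw0
  have h1 : ∑ j, (w j * α j) • Q j = 0 := by
    have h2 : ∑ j, w j • ∑ i, b j i • P i = 0 := by
      have h3 : ∑ j, w j • ∑ i, b j i • P i = ∑ i, (∑ j, w j * b j i) • P i := by
        simp_rw [Finset.smul_sum, smul_smul, Finset.sum_smul]
        exact Finset.sum_comm
      rw [h3]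
      refine Finset.sum_eq_zero fun i _ => ?_
      have h4 : ∑ j, w j * b j i = 0 := congrFun hw i
      rw [h4, zero_smul]
    have h5 : ∑ j, w j • ∑ i, b j i • P i = -∑ j, (w j * α j) • Q j := by
      rw [← Finset.sum_neg_distrib]
      refine Finset.sum_congr rfl fun j _ => ?_
      rw [h j, smul_neg, smul_smul]
    rw [h5, neg_eq_zero] at h2
    exact h2
  have h2 := Fintype.linearIndependent_iff.mp hQ (fun j => w j * α j) h1
  funext j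
  exact (mul_eq_zero.mp (h2 j)).resolve_right (hα j)

/-- a multiple of one point -/
private theorem V4_step {G : Type*} [AddCommGroup G] {r : ℕ} (P Q : Fin r → G) (b : Matrix (Fin r) (Fin r) ℤ)
    (α : Fin r → ℤ) (h : ∀ j, ∑ i, b j i • P i = -(α j • Q j)) (i₀ : Fin r) (n : ℕ) (c y : Fin r → ℤ)
    (hcy : ∀ l, (if l = i₀ then (n : ℤ) else 0) = c l + ∑ j, y j * b j l) :
    n • P i₀ = ∑ l, c l • P l + ∑ j, (-(y j * α j)) • Q j := by
  have h1 : n • P i₀ = ∑ l, (if l = i₀ then (n : ℤ) else 0) • P l := by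
    simp [ite_smul]
  have h2 : ∑ l, (∑ j, y j * b j l) • P l = ∑ j, (-(y j * α j)) • Q j := by
    have h3 : ∑ j, y j • ∑ i, b j i • P i = ∑ l, (∑ j, y j * b j l) • P l := by
      simp_rw [Finset.smul_sum, smul_smul, Finset.sum_smul]
      exact Finset.sum_comm
    rw [← h3]
    refine Finset.sum_congr rfl fun j _ => ?_
    rw [h j, smul_neg, smul_smul, neg_smul]
  rw [h1, ← h2, ← Finset.sum_add_distrib]
  refine Finset.sum_congr rfl fun l _ => ?_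
  rw [hcy l, add_smul]

/-- combinations of two families -/
private theorem V4_app {k : ℤ} {r : ℕ} (P Q : Fin r → Pt 0 k) (hP : ∀ i, Near (P i)) (hQ : ∀ i, Near (Q i))
    (c w : Fin r → ℤ) (S₁ S₂ : ℝ) (h1 : ∑ i, |(c i : ℝ)| * |uu (P i)| ≤ S₁)
    (h2 : ∑ i, |(w i : ℝ)| * |uu (Q i)| ≤ S₂) (h : |(k : ℝ)| * (S₁ + S₂) ^ 6 ≤ 1 / 10 ^ 9) :
    Near (∑ l, c l • P l + ∑ j, w j • Q j) ∧
      |uu (∑ l, c l • P l + ∑ j, w j • Q j)| ≤ 101 / 100 * (S₁ + S₂) := by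
  have hN : ∀ i : Fin (r + r), Near (Fin.append P Q i) := by
    intro i
    refine Fin.addCases (fun i => ?_) (fun i => ?_) i
    · rw [Fin.append_left]
      exact hP i
    · rw [Fin.append_right]
      exact hQ i
  have e1 : ∑ i, Fin.append c w i • Fin.append P Q i = ∑ l, c l • P l + ∑ j, w j • Q j := by
    rw [Fin.sum_univ_add]
    simp only [Fin.append_left, Fin.append_right]
  have e2 : ∑ i, |((Fin.append c w i : ℤ) : ℝ)| * |uu (Fin.append P Q i)| =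
      ∑ i, |(c i : ℝ)| * |uu (P i)| + ∑ i, |(w i : ℝ)| * |uu (Q i)| := by
    rw [Fin.sum_univ_add]
    simp only [Fin.append_left, Fin.append_right]
  have hS : ∑ i, |((Fin.append c w i : ℤ) : ℝ)| * |uu (Fin.append P Q i)| ≤ S₁ + S₂ := by
    rw [e2]
    exact add_le_add h1 h2
  obtain ⟨h3, h4⟩ := near_zsumM (Fin.append P Q) (Fin.append c w) hN (S₁ + S₂) hS h
  rw [e1] at h3 h4
  refine ⟨h3, ?_⟩
  have h5 : |∑ i, ((Fin.append c w i : ℤ) : ℝ) * uu (Fin.append P Q i)| ≤ S₁ + S₂ := by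
    refine (Finset.abs_sum_le_sum_abs _ _).trans (le_trans (le_of_eq ?_) hS)
    exact Finset.sum_congr rfl fun i _ => abs_mul _ _
  have h6 := abs_sub_abs_le_abs_sub (uu (∑ l, c l • P l + ∑ j, w j • Q j))
    (∑ i, ((Fin.append c w i : ℤ) : ℝ) * uu (Fin.append P Q i))
  linarith

/-- multiples of a point -/
private theorem V4_ind {k : ℤ} (P : Pt 0 k) (hP : Near P) (s : ℝ) (D : ℕ)
    (h : |(k : ℝ)| * (3 * s) ^ 6 ≤ 1 / 10 ^ 9) (hu : |uu P| ≤ s)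
    (hn : ∀ n : ℕ, n ≤ D → Near (n • P) ∧ |uu (n • P)| ≤ 2 * s) :
    ∀ n : ℕ, n ≤ D → |uu (n • P) - n * uu P| ≤ n * |uu P| / 100 := by
  have hs : 0 ≤ s := (abs_nonneg _).trans hu
  intro n
  induction n with
  | zero =>
    intro _
    have h0 : uu (0 • P) = 0 := by
      rw [zero_nsmul]
      rfl
    rw [h0]
    simp
  | succ n ih =>
    intro hD
    have ih' := ih (by omega)
    obtain ⟨h1, h2⟩ := hn n (by omega)
    have h3 : |uu (n • P)| + |uu P| ≤ 3 * s := by linarith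
    have h30 : 0 ≤ |uu (n • P)| + |uu P| := by positivity
    have h4 : |(k : ℝ)| * (|uu (n • P)| + |uu P|) ^ 6 ≤ 1 / 10 ^ 6 := by
      have h5 : |(k : ℝ)| * (|uu (n • P)| + |uu P|) ^ 6 ≤ |(k : ℝ)| * (3 * s) ^ 6 :=
        mul_le_mul_of_nonneg_left (pow_le_pow_left₀ h30 h3 6) (abs_nonneg _)
      refine (h5.trans h).trans (by norm_num)
    obtain ⟨-, h6⟩ := near_addM (n • P) P h1 hP h4
    have h7 : 100 * |(k : ℝ)| * (|uu (n • P)| + |uu P|) ^ 5 * |uu (n • P)| * |uu P| ≤ |uu P| / 100 := by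
      have h8 : (|uu (n • P)| + |uu P|) ^ 5 * |uu (n • P)| ≤ (3 * s) ^ 5 * (3 * s) :=
        mul_le_mul (pow_le_pow_left₀ h30 h3 5) (by linarith) (abs_nonneg _) (by positivity)
      calc 100 * |(k : ℝ)| * (|uu (n • P)| + |uu P|) ^ 5 * |uu (n • P)| * |uu P|
          = 100 * (|(k : ℝ)| * ((|uu (n • P)| + |uu P|) ^ 5 * |uu (n • P)|)) * |uu P| := by ring
        _ ≤ 100 * (|(k : ℝ)| * ((3 * s) ^ 5 * (3 * s))) * |uu P| := by
            have := abs_nonneg (k : ℝ)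
            have := abs_nonneg (uu P)
            gcongr
        _ = 100 * (|(k : ℝ)| * (3 * s) ^ 6) * |uu P| := by ring
        _ ≤ 100 * (1 / 10 ^ 9) * |uu P| := by
            have := abs_nonneg (uu P)
            gcongr
        _ ≤ |uu P| / 100 := by
            have := abs_nonneg (uu P)
            norm_num
            linarith
    have h9 : |uu (n • P + P) - uu (n • P) - uu P| ≤ |uu P| / 100 := h6.trans h7
    rw [succ_nsmul]
    have h10 : uu (n • P + P) - ((n + 1 : ℕ) : ℝ) * uu P =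
        (uu (n • P + P) - uu (n • P) - uu P) + (uu (n • P) - n * uu P) := by
      push_cast
      ring
    rw [h10]
    have h11 : ((n + 1 : ℕ) : ℝ) * |uu P| / 100 = |uu P| / 100 + n * |uu P| / 100 := by
      push_cast
      ring
    rw [h11]
    exact (abs_add_le _ _).trans (add_le_add h9 ih')

/-- the size of the coefficients of the giant points -/
private theorem V4_size (r : ℕ) (hr : 0 < r) (A ε C : ℝ) (hA : 1 ≤ A) (hε : 0 < ε)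
    (hC : 900 * (r : ℝ) * (r.factorial : ℝ) ^ 2 ≤ C) (hCA : C * A ^ (2 * r + 1) * ε ≤ 1) :
    (r : ℝ) * (((((r.factorial : ℝ) * A ^ r) ^ 2 + 1) * A) * (3 / 2 * ε ^ 2)) ≤ ε / 300 := by
  have hf : (1 : ℝ) ≤ r.factorial := by
    exact_mod_cast Nat.succ_le_of_lt r.factorial_pos
  have hAr : (1 : ℝ) ≤ A ^ r := one_le_pow₀ hA
  have hF : (1 : ℝ) ≤ (r.factorial : ℝ) * A ^ r := by nlinarith
  have hF2 : (1 : ℝ) ≤ ((r.factorial : ℝ) * A ^ r) ^ 2 := one_le_pow₀ hF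
  have hr0 : (0 : ℝ) < r := by exact_mod_cast hr
  have hA0 : 0 < A := by linarith
  have h1 : (r : ℝ) * (((((r.factorial : ℝ) * A ^ r) ^ 2 + 1) * A) * (3 / 2 * ε ^ 2)) ≤
      (r : ℝ) * (((2 * ((r.factorial : ℝ) * A ^ r) ^ 2) * A) * (3 / 2 * ε ^ 2)) := by
    gcongr
    linarith
  have h2 : (r : ℝ) * (((2 * ((r.factorial : ℝ) * A ^ r) ^ 2) * A) * (3 / 2 * ε ^ 2)) =
      (900 * (r : ℝ) * (r.factorial : ℝ) ^ 2) * A ^ (2 * r + 1) * ε * (ε / 300) := by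
    have h3 : A ^ (2 * r + 1) = (A ^ r) ^ 2 * A := by
      rw [pow_succ, ← pow_mul, mul_comm r 2]
    rw [h3]
    ring
  rw [h2] at h1
  refine h1.trans ?_
  have h4 : (900 * (r : ℝ) * (r.factorial : ℝ) ^ 2) * A ^ (2 * r + 1) * ε ≤ 1 := by
    refine le_trans ?_ hCA
    gcongr
  calc (900 * (r : ℝ) * (r.factorial : ℝ) ^ 2) * A ^ (2 * r + 1) * ε * (ε / 300) ≤ 1 * (ε / 300) := by
        gcongr
    _ = ε / 300 := one_mul _

theorem layers (C₀ : ℝ) (hC₀ : 0 ≤ C₀) (r : ℕ) (hr : 0 < r) : ∃ C : ℝ, 1 ≤ C ∧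
    ∀ k : ℤ, k ≠ 0 → ∀ hh : Pt 0 k → ℝ, IsCanM C₀ hh →
    ∀ (A X T : ℝ), 1 ≤ A → 0 < X → C * A ^ 6 * |(k : ℝ)| ≤ X ^ 3 → C * A ^ (2 * r + 1) ≤ Real.exp (T / 4) →
    ∀ (P Q : Fin r → Pt 0 k) (x z : Fin r → ℤ), (∀ i, IsInt (P i) (x i)) → (∀ i, IsInt (Q i) (z i)) →
      (∀ i, X ≤ x i) → (∀ i, X ≤ z i) → (∀ i, (x i : ℝ) ≤ Real.exp (T / 2)) → (∀ i, Real.exp T ≤ z i) →
      LinearIndependent ℤ P → LinearIndependent ℤ Q →
      (∀ j, ∃ a : Fin (r + 1) → ℤ, a ≠ 0 ∧ (∀ i, |(a i : ℝ)| ≤ A) ∧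
        IsOfFinAddOrder (∑ i, a i • (Fin.cons (Q j) P : Fin (r + 1) → Pt 0 k) i)) → False := by
  obtain ⟨c₁, hc0, hc6, hcombo⟩ := comboM C₀ hC₀ (r + 1)
  have hr1 : (1 : ℝ) ≤ r := by exact_mod_cast hr
  obtain ⟨C, hC⟩ : ∃ C : ℝ, C = 1 / c₁ + 900 * (r : ℝ) * (r.factorial : ℝ) ^ 2 + 10 ^ 18 * (r : ℝ) ^ 12 + 1 :=
    ⟨_, rfl⟩
  have hp1 : 0 < 1 / c₁ := by positivity
  have hp2 : 0 ≤ 900 * (r : ℝ) * (r.factorial : ℝ) ^ 2 := by positivity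
  have hp3 : 0 ≤ 10 ^ 18 * (r : ℝ) ^ 12 := by positivity
  have hC1 : 1 ≤ C := by linarith
  refine ⟨C, hC1, ?_⟩
  intro k hk hh hcan A X T hA hX hAX hAT P Q x z hPx hQz hXx hXz hxT hzT hP hQ hrel
  obtain ⟨κ, hκ⟩ : ∃ κ : ℝ, κ = |(k : ℝ)| := ⟨_, rfl⟩
  have hκ0 : 0 ≤ κ := by
    rw [hκ]
    exact abs_nonneg _
  rw [← hκ] at hAX
  have hX3 : 0 < X ^ 3 := by positivity
  have hA0 : 0 < A := by linarith
  have hA6 : 1 ≤ A ^ 6 := one_le_pow₀ hA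
  have hAκ : 0 ≤ A ^ 6 * κ := by positivity
  have hc1X : A ^ 6 * κ ≤ c₁ * X ^ 3 := by
    have h1 : 1 / c₁ * (A ^ 6 * κ) ≤ X ^ 3 := by
      have h2 : 1 / c₁ * (A ^ 6 * κ) ≤ C * (A ^ 6 * κ) :=
        mul_le_mul_of_nonneg_right (by linarith) hAκ
      calc 1 / c₁ * (A ^ 6 * κ) ≤ C * (A ^ 6 * κ) := h2
        _ = C * A ^ 6 * κ := by ring
        _ ≤ X ^ 3 := hAX
    calc A ^ 6 * κ = c₁ * (1 / c₁ * (A ^ 6 * κ)) := by
          field_simp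
      _ ≤ c₁ * X ^ 3 := mul_le_mul_of_nonneg_left h1 hc0.le
  have h18 : 10 ^ 18 * (r : ℝ) ^ 12 * (A ^ 6 * κ) ≤ X ^ 3 := by
    have h2 : 10 ^ 18 * (r : ℝ) ^ 12 * (A ^ 6 * κ) ≤ C * (A ^ 6 * κ) :=
      mul_le_mul_of_nonneg_right (by linarith) hAκ
    calc 10 ^ 18 * (r : ℝ) ^ 12 * (A ^ 6 * κ) ≤ C * (A ^ 6 * κ) := h2
      _ = C * A ^ 6 * κ := by ring
      _ ≤ X ^ 3 := hAX
  have hκX : 10 ^ 6 * κ ≤ X ^ 3 := by
    have h1 : κ ≤ A ^ 6 * κ := le_mul_of_one_le_left hκ0 hA6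
    have h2 : c₁ * X ^ 3 ≤ 1 / 10 ^ 6 * X ^ 3 := mul_le_mul_of_nonneg_right hc6 hX3.le
    linarith
  -- the relations
  choose a ha0 haA hator using hrel
  have hzero : ∀ j, ∑ i, a j i • (Fin.cons (Q j) P : Fin (r + 1) → Pt 0 k) i = 0 := by
    intro j
    have h1 := hcombo k hk hh hcan (Fin.cons (Q j) P : Fin (r + 1) → Pt 0 k)
      (Fin.cons (z j) x : Fin (r + 1) → ℤ)
      (by
        intro i
        refine Fin.cases ?_ (fun i => ?_) i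
        · exact hQz j
        · exact hPx i) X A hX hA
      (by
        intro i
        refine Fin.cases ?_ (fun i => ?_) i
        · exact hXz j
        · exact hXx i)
      (by rw [← hκ]; exact hc1X) (a j) (haA j)
    exact h1.2.1 (hator j)
  obtain ⟨hα, hb⟩ := V4_rel P Q hP a ha0 hzero
  obtain ⟨b, hbd⟩ : ∃ b : Matrix (Fin r) (Fin r) ℤ, b = Matrix.of fun j i => a j i.succ := ⟨_, rfl⟩
  obtain ⟨α, hαd⟩ : ∃ α : Fin r → ℤ, α = fun j => a j 0 := ⟨_, rfl⟩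
  have hα' : ∀ j, α j ≠ 0 := by
    rw [hαd]
    exact hα
  have hb' : ∀ j, ∑ i, b j i • P i = -(α j • Q j) := by
    rw [hbd, hαd]
    exact hb
  have hbA : ∀ i j, |(b i j : ℝ)| ≤ A := by
    rw [hbd]
    exact fun i j => haA i j.succ
  have hαA : ∀ j, |(α j : ℝ)| ≤ A := by
    rw [hαd]
    exact fun j => haA j 0
  have hdet : b.det ≠ 0 := V4_det P Q hQ b α hα' hb'
  obtain ⟨i₀, -⟩ : ∃ i₀ : Fin r, i₀ = ⟨0, hr⟩ := ⟨_, rfl⟩
  obtain ⟨D, hD1, hD⟩ := lattice_steps b hdet A hA hbA i₀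
  -- the points
  obtain ⟨t, ht⟩ : ∃ t : ℝ, t = Real.sqrt (2 / X) := ⟨_, rfl⟩
  have ht0 : 0 ≤ t := by
    rw [ht]
    exact Real.sqrt_nonneg _
  have ht2 : t ^ 2 = 2 / X := by
    rw [ht]
    exact Real.sq_sqrt (by positivity)
  obtain ⟨ε, hε⟩ : ∃ ε : ℝ, ε = Real.exp (-(T / 4)) := ⟨_, rfl⟩
  have hε0 : 0 < ε := by
    rw [hε]
    exact Real.exp_pos _
  have hεT : ε * Real.exp (T / 4) = 1 := by
    rw [hε, ← Real.exp_add, neg_add_cancel, Real.exp_zero]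
  have hε2 : ε ^ 2 * Real.exp (T / 2) = 1 := by
    have h1 : Real.exp (T / 2) = Real.exp (T / 4) ^ 2 := by
      rw [← Real.exp_nat_mul]
      congr 1
      push_cast
      ring
    rw [h1, ← mul_pow, hεT, one_pow]
  have hε4 : ε ^ 4 * Real.exp T = 1 := by
    have h1 : Real.exp T = Real.exp (T / 4) ^ 4 := by
      rw [← Real.exp_nat_mul]
      congr 1
      push_cast
      ring
    rw [h1, ← mul_pow, hεT, one_pow]
  have hptP : ∀ i, Near (P i) ∧ |uu (P i)| ≤ t := by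
    intro i
    have h1 : 10 ^ 6 * |(k : ℝ)| ≤ (x i : ℝ) ^ 3 := by
      rw [← hκ]
      exact hκX.trans (pow_le_pow_left₀ hX.le (hXx i) 3)
    obtain ⟨h2, -, h3, -, -⟩ := near_intM hk (hPx i) h1
    refine ⟨h2, abs_le_of_sq_le_sq ?_ ht0⟩
    rw [ht2, le_div_iff₀ hX]
    have h4 : uu (P i) ^ 2 * X ≤ uu (P i) ^ 2 * (x i : ℝ) := mul_le_mul_of_nonneg_left (hXx i) (sq_nonneg _)
    linarith
  have hptQ : ∀ j, Near (Q j) ∧ |uu (Q j)| ≤ 3 / 2 * ε ^ 2 := by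
    intro j
    have h1 : 10 ^ 6 * |(k : ℝ)| ≤ (z j : ℝ) ^ 3 := by
      rw [← hκ]
      exact hκX.trans (pow_le_pow_left₀ hX.le (hXz j) 3)
    obtain ⟨h2, -, h3, -, -⟩ := near_intM hk (hQz j) h1
    refine ⟨h2, abs_le_of_sq_le_sq ?_ (by positivity)⟩
    have h4 : uu (Q j) ^ 2 * Real.exp T ≤ uu (Q j) ^ 2 * (z j : ℝ) :=
      mul_le_mul_of_nonneg_left (hzT j) (sq_nonneg _)
    have h5 : uu (Q j) ^ 2 = ε ^ 4 * (uu (Q j) ^ 2 * Real.exp T) := by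
      calc uu (Q j) ^ 2 = uu (Q j) ^ 2 * (ε ^ 4 * Real.exp T) := by rw [hε4, mul_one]
        _ = _ := by ring
    have h6 : uu (Q j) ^ 2 ≤ ε ^ 4 * 2 := by
      rw [h5]
      exact mul_le_mul_of_nonneg_left (by linarith) (by positivity)
    have h7 : 0 ≤ ε ^ 4 := by positivity
    calc uu (Q j) ^ 2 ≤ ε ^ 4 * 2 := h6
      _ ≤ 9 / 4 * ε ^ 4 := by linarith
      _ = (3 / 2 * ε ^ 2) ^ 2 := by ring
  -- the lower bound for the first point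
  have hu0 : 7 / 10 * ε ≤ |uu (P i₀)| := by
    have h1 : 10 ^ 6 * |(k : ℝ)| ≤ (x i₀ : ℝ) ^ 3 := by
      rw [← hκ]
      exact hκX.trans (pow_le_pow_left₀ hX.le (hXx i₀) 3)
    obtain ⟨-, h3, -, -, -⟩ := near_intM hk (hPx i₀) h1
    have h4 : (x i₀ : ℝ) * uu (P i₀) ^ 2 ≤ Real.exp (T / 2) * uu (P i₀) ^ 2 :=
      mul_le_mul_of_nonneg_right (hxT i₀) (sq_nonneg _)
    have h5 : ε ^ 2 * (1 / 2) ≤ uu (P i₀) ^ 2 := by
      calc ε ^ 2 * (1 / 2) ≤ ε ^ 2 * (Real.exp (T / 2) * uu (P i₀) ^ 2) :=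
            mul_le_mul_of_nonneg_left (h3.trans h4) (by positivity)
        _ = ε ^ 2 * Real.exp (T / 2) * uu (P i₀) ^ 2 := by ring
        _ = uu (P i₀) ^ 2 := by rw [hε2, one_mul]
    have h6 : (7 / 10 * ε) ^ 2 ≤ |uu (P i₀)| ^ 2 := by
      rw [sq_abs]
      have h7 : 0 ≤ ε ^ 2 := by positivity
      have h8 : (7 / 10 * ε) ^ 2 = 49 / 100 * ε ^ 2 := by ring
      rw [h8]
      linarith
    exact (pow_le_pow_iff_left₀ (by positivity) (abs_nonneg _) two_ne_zero).mp h6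
  -- sizes
  have hεt : ε ≤ t := by
    refine abs_le_of_sq_le_sq' ?_ ht0 |>.2
    rw [ht2, le_div_iff₀ hX]
    have h1 : X ≤ Real.exp (T / 2) := (hXx i₀).trans (hxT i₀)
    have h2 : ε ^ 2 * X ≤ ε ^ 2 * Real.exp (T / 2) := mul_le_mul_of_nonneg_left h1 (by positivity)
    linarith
  obtain ⟨s, hs⟩ : ∃ s : ℝ, s = 2 * (r : ℝ) ^ 2 * A * t := ⟨_, rfl⟩
  have hr2 : (1 : ℝ) ≤ (r : ℝ) ^ 2 := one_le_pow₀ hr1
  have hr2A : 1 ≤ (r : ℝ) ^ 2 * A := by nlinarith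
  have hts : t ≤ (r : ℝ) ^ 2 * A * t := le_mul_of_one_le_left ht0 hr2A
  have hts2 : t ≤ s := by
    rw [hs]
    linarith
  have hs0 : 0 ≤ s := ht0.trans hts2
  have hs9 : κ * (10 * s) ^ 6 ≤ 1 / 10 ^ 9 := by
    have h1 : (10 * s) ^ 6 = 64 * 10 ^ 6 * (r : ℝ) ^ 12 * A ^ 6 * (t ^ 2) ^ 3 := by
      rw [hs]
      ring
    have h2 : (t ^ 2) ^ 3 = 8 / X ^ 3 := by
      rw [ht2]
      ring
    rw [h1, h2]
    have h3 : κ * (64 * 10 ^ 6 * (r : ℝ) ^ 12 * A ^ 6 * (8 / X ^ 3)) =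
        512 / 10 ^ 12 * ((10 ^ 18 * (r : ℝ) ^ 12 * (A ^ 6 * κ)) / X ^ 3) := by
      ring
    rw [h3]
    have h4 : (10 ^ 18 * (r : ℝ) ^ 12 * (A ^ 6 * κ)) / X ^ 3 ≤ 1 := by
      rw [div_le_one hX3]
      exact h18
    calc 512 / 10 ^ 12 * ((10 ^ 18 * (r : ℝ) ^ 12 * (A ^ 6 * κ)) / X ^ 3) ≤ 512 / 10 ^ 12 * 1 :=
          mul_le_mul_of_nonneg_left h4 (by norm_num)
      _ ≤ 1 / 10 ^ 9 := by norm_num
  have hpow : ∀ v : ℝ, 0 ≤ v → v ≤ 10 * s → |(k : ℝ)| * v ^ 6 ≤ 1 / 10 ^ 9 := by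
    intro v hv0 hv
    rw [← hκ]
    exact (mul_le_mul_of_nonneg_left (pow_le_pow_left₀ hv0 hv 6) hκ0).trans hs9
  have hCA : C * A ^ (2 * r + 1) * ε ≤ 1 := by
    calc C * A ^ (2 * r + 1) * ε ≤ Real.exp (T / 4) * ε := mul_le_mul_of_nonneg_right hAT hε0.le
      _ = 1 := by rw [mul_comm, hεT]
  have hsize := V4_size r hr A ε C hA hε0 (by linarith) hCA
  have hS2 : ∀ y : Fin r → ℤ, (∀ j, |(y j : ℝ)| ≤ ((r.factorial : ℝ) * A ^ r) ^ 2 + 1) →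
      ∑ j, |((-(y j * α j) : ℤ) : ℝ)| * |uu (Q j)| ≤ ε / 300 := by
    intro y hy
    refine le_trans ?_ hsize
    calc ∑ j, |((-(y j * α j) : ℤ) : ℝ)| * |uu (Q j)|
        ≤ ∑ _j : Fin r, ((((r.factorial : ℝ) * A ^ r) ^ 2 + 1) * A) * (3 / 2 * ε ^ 2) := by
          refine Finset.sum_le_sum fun j _ => ?_
          refine mul_le_mul ?_ (hptQ j).2 (abs_nonneg _) (by positivity)
          push_cast
          rw [abs_neg, abs_mul]
          exact mul_le_mul (hy j) (hαA j) (abs_nonneg _) (by positivity)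
      _ = _ := by
          rw [Finset.sum_const, Finset.card_univ, Fintype.card_fin, nsmul_eq_mul]
  have hS1 : ∀ c : Fin r → ℤ, (∀ l, |(c l : ℝ)| ≤ r * A) →
      ∑ l, |(c l : ℝ)| * |uu (P l)| ≤ (r : ℝ) ^ 2 * A * t := by
    intro c hc
    calc ∑ l, |(c l : ℝ)| * |uu (P l)| ≤ ∑ _l : Fin r, (r * A) * t :=
          Finset.sum_le_sum fun l _ => mul_le_mul (hc l) (hptP l).2 (abs_nonneg _) (by positivity)
      _ = (r : ℝ) ^ 2 * A * t := by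
          rw [Finset.sum_const, Finset.card_univ, Fintype.card_fin, nsmul_eq_mul]
          ring
  have hmult : ∀ n : ℕ, n ≤ D → Near (n • P i₀) ∧ |uu (n • P i₀)| ≤ 2 * s := by
    intro n hn
    obtain ⟨c, y, h1, h2, h3, -⟩ := hD n hn
    have h4 := V4_step P Q b α hb' i₀ n c y h1
    rw [h4]
    have h5 : (r : ℝ) ^ 2 * A * t + ε / 300 ≤ s := by
      rw [hs]
      linarith
    obtain ⟨h6, h7⟩ := V4_app P Q (fun i => (hptP i).1) (fun i => (hptQ i).1) c (fun j => -(y j * α j))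
      ((r : ℝ) ^ 2 * A * t) (ε / 300) (hS1 c h2) (hS2 y h3) (hpow _ (by positivity) (by linarith))
    exact ⟨h6, by linarith⟩
  have hlow := V4_ind (P i₀) (hptP i₀).1 s D (hpow _ (by positivity) (by linarith)) ((hptP i₀).2.trans hts2)
    hmult D le_rfl
  -- the last multiple
  obtain ⟨c, y, h1, h2, h3, h4⟩ := hD D le_rfl
  have h5 := V4_step P Q b α hb' i₀ D c y h1
  have hc0' := h4 rfl
  obtain ⟨-, h7⟩ := V4_app P Q (fun i => (hptP i).1) (fun i => (hptQ i).1) c (fun j => -(y j * α j))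
      0 (ε / 300) (le_of_eq (Finset.sum_eq_zero fun l _ => by rw [hc0' l]; simp)) (hS2 y h3)
      (hpow _ (by positivity) (by linarith))
  rw [← h5] at h7
  have h8 : (1 : ℝ) ≤ D := by exact_mod_cast hD1
  have h9 : (D : ℝ) * |uu (P i₀)| ≤ |uu (D • P i₀)| + D * |uu (P i₀)| / 100 := by
    have h10 := abs_sub_abs_le_abs_sub ((D : ℝ) * uu (P i₀)) (uu (D • P i₀))
    rw [abs_sub_comm, abs_mul, Nat.abs_cast] at h10
    linarith
  have h11 : |uu (P i₀)| ≤ (D : ℝ) * |uu (P i₀)| := le_mul_of_one_le_left (abs_nonneg _) h8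
  linarith

end Pool.Agent.LibUM24
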