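import Pool.Agent.LibUM24.V2
import Pool.Agent.LibUM24.V4
import Pool.Agent.LibDM24.MM
import Pool.Agent.LibHU64.Defs

/-!
ROW V5 (MEDIUM). Counting points in two layers with a gap (cites V2, V4, LibDM24: MD `canM_lower`, MM `count_largeM` as stated).

PLAN. `c₀` from `canM_lower`. Constants: `C ≥` twice those of `count_largeM C₀ _ r`, `count_largeM C₀ _ (r - 1)`, and with `Λ = (r + 2)/√c₀ + 1` and `C₁ = 2 (2Λ)^r`: the constant `C₄` of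
`layers C₀ _ r` times `C₁^6` and times `C₁^(2r+1)`.
`M = {i | x i ≤ exp (T/2)}`, `U` = the others (`exp T ≤ x i`). Numbers: `N_s = 2^(s+1) - s - 2`; `#M + #U = N ≥ N_r + N_(r-1) + 1`.
`count_largeM` for a subfamily of `M` with `q = q₁` would give `x i ^ 3 ≤ C₃ q₁^(6s) κ` or `x i ^ 6 ≤ C₃ q₁^(6s) κ⁴` (`s ≤ r`; `q₁^(6s) ≤ q₁^(6r)`), against (h1), (h2) and `X ≤ x i`; for a
subfamily of `U` with `q = q₂` against (h3), (h4) and `exp T ≤ x i`. So: a subfamily of `M` or of `U` all whose `(s+1)`-subfamilies are dependent has at most `N_s` members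
(`s = r` always: `RankLe r P`).
`r = 0`: `N ≥ 1`, but `#M ≤ 0`, `#U ≤ 0`. `r ≥ 1`: (a) `M` contains no `r` independent points: `#M ≤ N_(r-1)` (`s = r - 1`), `#U ≤ N_r`, absurd. (b) the same with `M`, `U` exchanged.
(c) otherwise `P ∘ f`, `f : Fin r → Fin N` with values in `M`, and `P ∘ g`, `g` with values in `U`, both independent. For every `j`: `Fin.cons (P (g j)) (P ∘ f) = P ∘ Fin.cons (g j) f` is dependent;
`small_relationU` with `q 0 = q₂`, `q (i+1) = q₁`: `∏ q = q₂ q₁^r`, so `|a i| q₁ ≤ C₁ q₂ q₁^r` (also for `i = 0`: `q₁ ≤ q₂`), `|a i| ≤ C₁ q₂ q₁^(r-1) =: A`. `layers` with this `A`.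
-/

set_option autoImplicit false

open WeierstrassCurve Pool.Agent.LibDP24 Pool.Agent.LibDM24 Pool.Agent.LibHU64

namespace Pool.Agent.LibUM24

/-- a subfamily whose `(s+1)`-subfamilies are dependent is small -/
private theorem V5_sub {C₀ K : ℝ} (s : ℕ)
    (hK : ∀ k : ℤ, k ≠ 0 → ∀ hh : Pt 0 k → ℝ, IsCanM C₀ hh → ∀ q : ℝ, 1 ≤ q →
      ∀ (N : ℕ), 2 ^ (s + 1) ≤ N + s + 1 → ∀ (P : Fin N → Pt 0 k) (x : Fin N → ℤ),
      (∀ i, IsInt (P i) (x i)) → Function.Injective x → (∀ i, hh (P i) ≤ q ^ 2) →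
      (∀ f : Fin (s + 1) → Fin N, ¬ LinearIndependent ℤ (P ∘ f)) →
      ∃ i, (x i : ℝ) ^ 3 ≤ K * q ^ (6 * s) * |(k : ℝ)| ∨
        (x i : ℝ) ^ 6 ≤ K * q ^ (6 * s) * |(k : ℝ)| ^ 4)
    {k : ℤ} (hk : k ≠ 0) {hh : Pt 0 k → ℝ} (hcan : IsCanM C₀ hh) {q : ℝ} (hq : 1 ≤ q)
    {N : ℕ} (P : Fin N → Pt 0 k) (x : Fin N → ℤ) (hP : ∀ i, IsInt (P i) (x i))
    (hx : Function.Injective x) (S : Finset (Fin N)) (hhS : ∀ i ∈ S, hh (P i) ≤ q ^ 2)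
    (h1 : ∀ i ∈ S, K * q ^ (6 * s) * |(k : ℝ)| < (x i : ℝ) ^ 3)
    (h2 : ∀ i ∈ S, K * q ^ (6 * s) * |(k : ℝ)| ^ 4 < (x i : ℝ) ^ 6)
    (hdep : ∀ f : Fin (s + 1) → Fin N, (∀ a, f a ∈ S) → ¬ LinearIndependent ℤ (P ∘ f)) :
    S.card + s + 2 ≤ 2 ^ (s + 1) := by
  by_contra hcon
  let e : Fin S.card ≃ S := S.equivFin.symm
  obtain ⟨i, hi⟩ := hK k hk hh hcan q hq S.card (by omega) (fun i => P (e i)) (fun i => x (e i))
    (fun i => hP (e i)) (fun i j hij => e.injective (Subtype.ext (hx hij)))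
    (fun i => hhS (e i) (e i).2)
    (fun f => hdep (fun a => (e (f a) : Fin N)) (fun a => (e (f a)).2))
  rcases hi with hi | hi
  · exact absurd hi (not_le.mpr (h1 (e i) (e i).2))
  · exact absurd hi (not_le.mpr (h2 (e i) (e i).2))

private theorem V5_bd {K C q κ : ℝ} {s r : ℕ} (hK : 1 ≤ K) (hKC : K ≤ C) (hq : 1 ≤ q) (hsr : s ≤ r)
    (hκ : 0 ≤ κ) : K * q ^ (6 * s) * κ ≤ C * q ^ (6 * r) * κ := by
  have h1 : q ^ (6 * s) ≤ q ^ (6 * r) := pow_le_pow_right₀ hq (by omega)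
  have h2 : K * q ^ (6 * s) ≤ C * q ^ (6 * r) :=
    mul_le_mul hKC h1 (by positivity) (by linarith)
  exact mul_le_mul_of_nonneg_right h2 hκ

theorem layers_count (C₀ : ℝ) (hC₀ : 0 ≤ C₀) (r : ℕ) : ∃ C : ℝ, 1 ≤ C ∧
    ∀ k : ℤ, k ≠ 0 → ∀ hh : Pt 0 k → ℝ, IsCanM C₀ hh →
    ∀ (q₁ q₂ X T : ℝ), 1 ≤ q₁ → q₁ ≤ q₂ → 0 < X →
      C * q₁ ^ (6 * r) * |(k : ℝ)| < X ^ 3 → C * q₁ ^ (6 * r) * |(k : ℝ)| ^ 4 < X ^ 6 →
      C * q₂ ^ (6 * r) * |(k : ℝ)| < Real.exp T ^ 3 → C * q₂ ^ (6 * r) * |(k : ℝ)| ^ 4 < Real.exp T ^ 6 →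
      C * (q₂ * q₁ ^ (r - 1)) ^ 6 * |(k : ℝ)| ≤ X ^ 3 →
      C * (q₂ * q₁ ^ (r - 1)) ^ (2 * r + 1) ≤ Real.exp (T / 4) →
    ∀ (N : ℕ), 3 * 2 ^ r ≤ N + 2 * r + 2 → ∀ (P : Fin N → Pt 0 k) (x : Fin N → ℤ),
      (∀ i, IsInt (P i) (x i)) → Function.Injective x → RankLe r P → (∀ i, X ≤ x i) →
      (∀ i, hh (P i) ≤ q₂ ^ 2) → (∀ i, (x i : ℝ) ≤ Real.exp (T / 2) → hh (P i) ≤ q₁ ^ 2) →
      (∀ i, (x i : ℝ) ≤ Real.exp (T / 2) ∨ Real.exp T ≤ x i) → False := by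
  classical
  -- the part common to all ranks
  have common : ∀ (s : ℕ) (K : ℝ), s ≤ r → 1 ≤ K →
      (∀ k : ℤ, k ≠ 0 → ∀ hh : Pt 0 k → ℝ, IsCanM C₀ hh → ∀ q : ℝ, 1 ≤ q →
        ∀ (N : ℕ), 2 ^ (s + 1) ≤ N + s + 1 → ∀ (P : Fin N → Pt 0 k) (x : Fin N → ℤ),
        (∀ i, IsInt (P i) (x i)) → Function.Injective x → (∀ i, hh (P i) ≤ q ^ 2) →
        (∀ f : Fin (s + 1) → Fin N, ¬ LinearIndependent ℤ (P ∘ f)) →
        ∃ i, (x i : ℝ) ^ 3 ≤ K * q ^ (6 * s) * |(k : ℝ)| ∨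
          (x i : ℝ) ^ 6 ≤ K * q ^ (6 * s) * |(k : ℝ)| ^ 4) →
      ∀ C : ℝ, K ≤ C → ∀ k : ℤ, k ≠ 0 → ∀ hh : Pt 0 k → ℝ, IsCanM C₀ hh →
      ∀ (q₁ q₂ X T : ℝ), 1 ≤ q₁ → q₁ ≤ q₂ → 0 < X →
      C * q₁ ^ (6 * r) * |(k : ℝ)| < X ^ 3 → C * q₁ ^ (6 * r) * |(k : ℝ)| ^ 4 < X ^ 6 →
      C * q₂ ^ (6 * r) * |(k : ℝ)| < Real.exp T ^ 3 → C * q₂ ^ (6 * r) * |(k : ℝ)| ^ 4 < Real.exp T ^ 6 →
      ∀ (N : ℕ) (P : Fin N → Pt 0 k) (x : Fin N → ℤ),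
      (∀ i, IsInt (P i) (x i)) → Function.Injective x → (∀ i, X ≤ x i) →
      (∀ i, hh (P i) ≤ q₂ ^ 2) → (∀ i, (x i : ℝ) ≤ Real.exp (T / 2) → hh (P i) ≤ q₁ ^ 2) →
      (∀ S : Finset (Fin N), (∀ i ∈ S, (x i : ℝ) ≤ Real.exp (T / 2)) →
        (∀ f : Fin (s + 1) → Fin N, (∀ a, f a ∈ S) → ¬ LinearIndependent ℤ (P ∘ f)) →
        S.card + s + 2 ≤ 2 ^ (s + 1)) ∧
      (∀ S : Finset (Fin N), (∀ i ∈ S, Real.exp T ≤ (x i : ℝ)) →
        (∀ f : Fin (s + 1) → Fin N, (∀ a, f a ∈ S) → ¬ LinearIndependent ℤ (P ∘ f)) →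
        S.card + s + 2 ≤ 2 ^ (s + 1)) := by
    intro s K hsr hK1 hK C hKC k hk hh hcan q₁ q₂ X T hq₁ hq₁₂ hX h1 h2 h3 h4 N P x hP hx hXx hh2 hh1
    have hκ : 0 ≤ |(k : ℝ)| := abs_nonneg _
    have hq₂ : 1 ≤ q₂ := hq₁.trans hq₁₂
    refine ⟨fun S hS hdep => ?_, fun S hS hdep => ?_⟩
    · refine V5_sub s hK hk hcan hq₁ P x hP hx S (fun i hi => hh1 i (hS i hi)) ?_ ?_ hdep
      · intro i _
        refine ((V5_bd hK1 hKC hq₁ hsr hκ).trans_lt h1).trans_le ?_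
        exact pow_le_pow_left₀ hX.le (hXx i) 3
      · intro i _
        refine ((V5_bd hK1 hKC hq₁ hsr (by positivity)).trans_lt h2).trans_le ?_
        exact pow_le_pow_left₀ hX.le (hXx i) 6
    · refine V5_sub s hK hk hcan hq₂ P x hP hx S (fun i _ => hh2 i) ?_ ?_ hdep
      · intro i hi
        refine ((V5_bd hK1 hKC hq₂ hsr hκ).trans_lt h3).trans_le ?_
        exact pow_le_pow_left₀ (Real.exp_pos T).le (hS i hi) 3
      · intro i hi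
        refine ((V5_bd hK1 hKC hq₂ hsr (by positivity)).trans_lt h4).trans_le ?_
        exact pow_le_pow_left₀ (Real.exp_pos T).le (hS i hi) 6
  rcases Nat.eq_zero_or_pos r with hr | hr
  · obtain ⟨K, hK1, hK⟩ := count_largeM C₀ hC₀ r
    refine ⟨K, hK1, ?_⟩
    intro k hk hh hcan q₁ q₂ X T hq₁ hq₁₂ hX h1 h2 h3 h4 _ _ N hN P x hP hx hrank hXx hh2 hh1 hdich
    obtain ⟨hM, hU⟩ := common r K le_rfl hK1 hK K le_rfl k hk hh hcan q₁ q₂ X T hq₁ hq₁₂ hX h1 h2 h3 h4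
      N P x hP hx hXx hh2 hh1
    have c1 := hM (Finset.univ.filter fun i => (x i : ℝ) ≤ Real.exp (T / 2))
      (fun i hi => (Finset.mem_filter.mp hi).2) (fun f _ => hrank f)
    have c2 := hU (Finset.univ.filter fun i => ¬ (x i : ℝ) ≤ Real.exp (T / 2))
      (fun i hi => (hdich i).resolve_left (Finset.mem_filter.mp hi).2) (fun f _ => hrank f)
    have c3 := Finset.card_filter_add_card_filter_not (s := (Finset.univ : Finset (Fin N)))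
      (fun i => (x i : ℝ) ≤ Real.exp (T / 2))
    rw [Finset.card_univ, Fintype.card_fin] at c3
    subst hr
    simp only [pow_zero, zero_add, pow_one] at c1 c2 hN
    omega
  · obtain ⟨s, rfl⟩ : ∃ s, r = s + 1 := ⟨r - 1, by omega⟩
    obtain ⟨K, hK1, hK⟩ := count_largeM C₀ hC₀ (s + 1)
    obtain ⟨K', hK'1, hK'⟩ := count_largeM C₀ hC₀ s
    obtain ⟨C₄, hC₄1, hC₄⟩ := layers C₀ hC₀ (s + 1) hr
    obtain ⟨c₀, hc₀, hlow⟩ := canM_lower C₀ hC₀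
    obtain ⟨Λ, hΛd⟩ : ∃ Λ : ℝ, Λ = (((s + 1 : ℕ) : ℝ) + 2) / √c₀ + 1 := ⟨_, rfl⟩
    have hsc : 0 < √c₀ := Real.sqrt_pos.mpr hc₀
    have hΛ1 : 1 ≤ Λ := by
      rw [hΛd]
      have : 0 ≤ (((s + 1 : ℕ) : ℝ) + 2) / √c₀ := by positivity
      linarith
    have hΛ2 : (((s + 1 : ℕ) : ℝ) + 1) ^ 2 < c₀ * Λ ^ 2 := by
      have e1 : √c₀ * Λ = (((s + 1 : ℕ) : ℝ) + 2) + √c₀ := by
        rw [hΛd, mul_add, mul_one, mul_div_cancel₀ _ hsc.ne']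
      have e2 : c₀ * Λ ^ 2 = (√c₀ * Λ) ^ 2 := by
        rw [mul_pow, Real.sq_sqrt hc₀.le]
      rw [e2, e1]
      have h0 : (0 : ℝ) ≤ ((s + 1 : ℕ) : ℝ) := Nat.cast_nonneg _
      exact pow_lt_pow_left₀ (by linarith) (by linarith) (by norm_num)
    obtain ⟨C₁, hC₁d⟩ : ∃ C₁ : ℝ, C₁ = 2 * (2 * Λ) ^ (s + 1) := ⟨_, rfl⟩
    have hC₁1 : 1 ≤ C₁ := by
      rw [hC₁d]
      have := one_le_pow₀ (n := s + 1) (show (1 : ℝ) ≤ 2 * Λ by linarith)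
      linarith
    have hp1 : 1 ≤ C₁ ^ 6 := one_le_pow₀ hC₁1
    have hp2 : 1 ≤ C₁ ^ (2 * (s + 1) + 1) := one_le_pow₀ hC₁1
    have hB1 : 0 ≤ C₄ * C₁ ^ 6 := by positivity
    have hB2 : 0 ≤ C₄ * C₁ ^ (2 * (s + 1) + 1) := by positivity
    obtain ⟨C, hCd⟩ : ∃ C : ℝ, C = K + K' + C₄ * C₁ ^ 6 + C₄ * C₁ ^ (2 * (s + 1) + 1) := ⟨_, rfl⟩
    refine ⟨C, by linarith, ?_⟩
    intro k hk hh hcan q₁ q₂ X T hq₁ hq₁₂ hX h1 h2 h3 h4 h5 h6 N hN P x hP hx hrank hXx hh2 hh1 hdich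
    have hq₂ : 1 ≤ q₂ := hq₁.trans hq₁₂
    obtain ⟨hM, hU⟩ := common (s + 1) K le_rfl hK1 hK C (by linarith) k hk hh hcan q₁ q₂ X T hq₁ hq₁₂ hX
      h1 h2 h3 h4 N P x hP hx hXx hh2 hh1
    obtain ⟨hM', hU'⟩ := common s K' (Nat.le_succ s) hK'1 hK' C (by linarith) k hk hh hcan q₁ q₂ X T
      hq₁ hq₁₂ hX h1 h2 h3 h4 N P x hP hx hXx hh2 hh1
    obtain ⟨M, hMd⟩ : ∃ M : Finset (Fin N), M = Finset.univ.filter fun i => (x i : ℝ) ≤ Real.exp (T / 2) :=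
      ⟨_, rfl⟩
    obtain ⟨U, hUd⟩ : ∃ U : Finset (Fin N), U = Finset.univ.filter fun i => ¬ (x i : ℝ) ≤ Real.exp (T / 2) :=
      ⟨_, rfl⟩
    have hMm : ∀ i ∈ M, (x i : ℝ) ≤ Real.exp (T / 2) := by
      intro i hi
      rw [hMd] at hi
      exact (Finset.mem_filter.mp hi).2
    have hUm : ∀ i ∈ U, Real.exp T ≤ (x i : ℝ) := by
      intro i hi
      rw [hUd] at hi
      exact (hdich i).resolve_left (Finset.mem_filter.mp hi).2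
    have c3 : M.card + U.card = N := by
      have := Finset.card_filter_add_card_filter_not (s := (Finset.univ : Finset (Fin N)))
        (fun i => (x i : ℝ) ≤ Real.exp (T / 2))
      rw [Finset.card_univ, Fintype.card_fin] at this
      rw [hMd, hUd]
      exact this
    have c1 := hM M hMm (fun f _ => hrank f)
    have c2 := hU U hUm (fun f _ => hrank f)
    have hpw : 2 ^ (s + 1 + 1) = 2 * 2 ^ (s + 1) := by ring
    by_cases ha : ∀ f : Fin (s + 1) → Fin N, (∀ a, f a ∈ M) → ¬ LinearIndependent ℤ (P ∘ f)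
    · have c4 := hM' M hMm ha
      omega
    by_cases hb : ∀ f : Fin (s + 1) → Fin N, (∀ a, f a ∈ U) → ¬ LinearIndependent ℤ (P ∘ f)
    · have c4 := hU' U hUm hb
      omega
    push Not at ha hb
    obtain ⟨f, hfM, hfi⟩ := ha
    obtain ⟨g, hgU, hgi⟩ := hb
    rw [Nat.add_sub_cancel] at h5 h6
    obtain ⟨A, hAd⟩ : ∃ A : ℝ, A = C₁ * (q₂ * q₁ ^ s) := ⟨_, rfl⟩
    have hqs : 1 ≤ q₁ ^ s := one_le_pow₀ hq₁
    have hqq : 1 ≤ q₂ * q₁ ^ s := by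
      calc (1 : ℝ) = 1 * 1 := by ring
        _ ≤ q₂ * q₁ ^ s := mul_le_mul hq₂ hqs zero_le_one (by linarith)
    have hA1 : 1 ≤ A := by
      rw [hAd]
      calc (1 : ℝ) = 1 * 1 := by ring
        _ ≤ C₁ * (q₂ * q₁ ^ s) := mul_le_mul hC₁1 hqq zero_le_one (by linarith)
    refine hC₄ k hk hh hcan A X T hA1 hX ?_ ?_ (P ∘ f) (P ∘ g) (x ∘ f) (x ∘ g) (fun i => hP (f i))
      (fun i => hP (g i)) (fun i => hXx (f i)) (fun i => hXx (g i)) (fun i => hMm (f i) (hfM i))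
      (fun i => hUm (g i) (hgU i)) hfi hgi ?_
    · refine le_trans ?_ h5
      rw [hAd, mul_pow, ← mul_assoc]
      refine mul_le_mul_of_nonneg_right (mul_le_mul_of_nonneg_right ?_ (by positivity)) (abs_nonneg _)
      linarith
    · refine le_trans ?_ h6
      rw [hAd, mul_pow, ← mul_assoc]
      refine mul_le_mul_of_nonneg_right ?_ (by positivity)
      linarith
    · intro j
      have hcons : (Fin.cons ((P ∘ g) j) (P ∘ f) : Fin (s + 1 + 1) → Pt 0 k) =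
          P ∘ (Fin.cons (g j) f : Fin (s + 1 + 1) → Fin N) := by
        funext i
        refine Fin.cases ?_ (fun i => ?_) i
        · simp
        · simp
      rw [hcons]
      have hdep : ¬ LinearIndependent ℤ (P ∘ (Fin.cons (g j) f : Fin (s + 1 + 1) → Fin N)) := hrank _
      let q : Fin (s + 1 + 1) → ℝ := Fin.cons q₂ (fun _ => q₁)
      have hq1 : ∀ i, 1 ≤ q i := by
        intro i
        refine Fin.cases ?_ (fun i => ?_) i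
        · exact hq₂
        · exact hq₁
      have hqh : ∀ i, hh ((P ∘ (Fin.cons (g j) f : Fin (s + 1 + 1) → Fin N)) i) ≤ q i ^ 2 := by
        intro i
        refine Fin.cases ?_ (fun i => ?_) i
        · exact hh2 (g j)
        · exact hh1 (f i) (hMm (f i) (hfM i))
      have hprod : ∏ i, q i = q₂ * q₁ ^ (s + 1) := by
        rw [Fin.prod_univ_succ]
        show q₂ * ∏ _i : Fin (s + 1), q₁ = _
        rw [Finset.prod_const, Finset.card_univ, Fintype.card_fin]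
      obtain ⟨a, ha0, haq, hator⟩ := small_relationU hcan.par hcan.nonneg (lam := c₀) (hlow k hk hh hcan)
        (P ∘ (Fin.cons (g j) f : Fin (s + 1 + 1) → Fin N)) hdep q hq1 hqh Λ hΛ1 hΛ2
      refine ⟨a, ha0, ?_, hator⟩
      intro i
      have h7 := haq i
      rw [hprod, ← hC₁d] at h7
      have h8 : q₁ ≤ q i := by
        refine Fin.cases ?_ (fun i => ?_) i
        · exact hq₁₂
        · exact le_rfl
      have h9 : |(a i : ℝ)| * q₁ ≤ A * q₁ := by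
        calc |(a i : ℝ)| * q₁ ≤ |(a i : ℝ)| * q i := mul_le_mul_of_nonneg_left h8 (abs_nonneg _)
          _ ≤ C₁ * (q₂ * q₁ ^ (s + 1)) := h7
          _ = A * q₁ := by rw [hAd]; ring
      exact le_of_mul_le_mul_right h9 (by linarith)

end Pool.Agent.LibUM24
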