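import Pool.Agent.LibUM24.V5
import Pool.Agent.LibDM24.MD
import Pool.Agent.LibDM24.MH

/-!
ROW V6 (MEDIUM). Fixed rank: exponent `5/6 + ε`, at most `3 * 2 ^ r - 2 r - 3` points (cites V5 and LibDM24 MD `canM_le`, MH `x_geM` as stated; compare row MQ, `Pool/Agent/LibDM24/MQ.lean`:
`MQ_eqn`, `MQ_big`, `MQ_log` are useful).

PLAN. It suffices to treat `N = 3 * 2^r - 2 r - 2` (restrict to the first so many indices: `Fin.castLE`). `κ = |k| ≥ 1`, `ε' = min ε 1 / 2`... in short: `δ = ε / (2 r + 2)`, `C₂ ≥ 1` from `hCB (ε / 2)`,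
`C₅` from `layers_count C₀ _ r`. Suppose all `x i > C κ^(5/6+ε) =: X` (so `x i > 0`, `κ ≤ x i ^ 3`). `hh (P i) ≤ log x i + C₀ ≤ C₂ κ^(1/2+ε/2) + C₀ ≤ q₂²`, `q₂² = (C₂ + C₀) κ^(1/2+ε/2)`, `q₁² = (1 + C₀) κ^δ`
(`q₁ ≤ q₂` if we also take `q₂² = (1 + C₂ + C₀) κ^(1/2+ε/2)` and `δ ≤ 1/2 + ε/2`, true since `δ ≤ ε/2`).
If `κ ≤ κ₀` (a constant depending on `r, ε`, chosen below): `log x i ≤ C₂ κ₀^(1/2+ε/2)`, so `x i ≤ C` for `C` large (`κ^(5/6+ε) ≥ 1`); absurd (there is an index: `N ≥ 1`).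
If `κ > κ₀`: `T_j = κ^(δ (j+1)/(N+1))`, `j = 0..N`; `2 T_j ≤ T_(j+1)` for `κ₀^(δ/(N+1)) ≥ 2`; the `N + 1` intervals `(T_j / 2, T_j)` are disjoint, so one contains no `log x i` (`N` points): fix this `T`;
`κ^(δ/(N+1)) ≤ T ≤ κ^δ`. So `x i ≤ exp (T/2)` or `exp T ≤ x i`. `x i ≤ exp (T/2)` implies `hh (P i) ≤ T/2 + C₀ ≤ q₁²`.
Check the six inequalities of `layers_count`: `q₁^(6r) = (1+C₀)^(3r) κ^(3rδ)`, `3 r δ ≤ 3ε/2`: `C₅ q₁^(6r) κ ≤ C' κ^(1+3ε/2) < X³`; `C₅ q₁^(6r) κ⁴ ≤ C' κ^(4+3ε/2) < X⁶ = C⁶ κ^(5+6ε)`;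
`(q₂ q₁^(r-1))^6 κ ≤ C' κ^(3(1/2+ε/2) + 3(r-1)δ + 1) ≤ C' κ^(5/2+3ε) ≤ X³ = C³ κ^(5/2+3ε)` (`(r-1) δ ≤ ε/2`); the three with `exp T`: left side `≤ C' κ^(c)` with constants `C', c` depending on `r, ε, C₀`,
right side `≥ exp (κ^(δ/(N+1)) / 4)`: true for `κ > κ₀` (e.g. `Real.log_le_rpow_div`, or `tendsto` at infinity as in the proof of `MPC_exp` in `DM24_MPC.lean`).
-/

set_option autoImplicit false

open WeierstrassCurve Pool.Agent.LibDP24 Pool.Agent.LibDM24 Pool.Agent.LibHU64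

namespace Pool.Agent.LibUM24

private theorem V6_eqn {k x y : ℤ} (h : (E 0 k).toAffine.Nonsingular (x : ℚ) (y : ℚ)) :
    y ^ 2 - x ^ 3 = k := by
  have h1 := (Affine.equation_iff _ _).1 h.1
  simp at h1
  have h2 : y ^ 2 = x ^ 3 + k := by exact_mod_cast h1
  linarith

/-- a large `x` is positive and `κ ≤ x³` -/
private theorem V6_big {k x : ℤ} (hk : k ≠ 0) {C e : ℝ} (hC : 1 ≤ C)
    (he : 1 / 3 ≤ e) (hx : C * |(k : ℝ)| ^ e < (x : ℝ)) :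
    0 < x ∧ |(k : ℝ)| ≤ (x : ℝ) ^ 3 := by
  have hk1 : (1 : ℝ) ≤ |(k : ℝ)| := by
    have h1 : (1 : ℤ) ≤ |k| := Int.one_le_abs hk
    exact_mod_cast h1
  have hk0 : (0 : ℝ) < |(k : ℝ)| := by linarith
  have hp : (0 : ℝ) < |(k : ℝ)| ^ e := Real.rpow_pos_of_pos hk0 _
  have h1 : |(k : ℝ)| ≤ (|(k : ℝ)| ^ e) ^ 3 := by
    rw [← Real.rpow_natCast, ← Real.rpow_mul hk0.le]
    calc |(k : ℝ)| = |(k : ℝ)| ^ (1 : ℝ) := (Real.rpow_one _).symm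
      _ ≤ |(k : ℝ)| ^ (e * ((3 : ℕ) : ℝ)) := by
          apply Real.rpow_le_rpow_of_exponent_le hk1
          push_cast
          linarith
  have h2 : |(k : ℝ)| ^ e < (x : ℝ) := by
    refine lt_of_le_of_lt ?_ hx
    nlinarith
  have h3 : |(k : ℝ)| < (x : ℝ) ^ 3 :=
    lt_of_le_of_lt h1 (pow_lt_pow_left₀ h2 hp.le (by norm_num))
  exact ⟨by exact_mod_cast hp.trans h2, h3.le⟩

/-- a power is eventually larger than a logarithm -/
private theorem V6_log {κ δ B s : ℝ} (hκ : 1 ≤ κ) (hδ : 0 < δ) (hB : 0 ≤ B) (hs : 0 ≤ s)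
    (h : κ ^ δ < B + s * Real.log κ) : κ ≤ (B + s * (2 / δ)) ^ (2 / δ) := by
  have hκ0 : 0 < κ := by linarith
  have hδ2 : 0 < δ / 2 := by linarith
  have h1 := Real.log_le_rpow_div hκ0.le hδ2
  obtain ⟨t, ht⟩ : ∃ t, t = κ ^ (δ / 2) := ⟨_, rfl⟩
  have ht1 : 1 ≤ t := by
    rw [ht]
    exact Real.one_le_rpow hκ hδ2.le
  have ht2 : κ ^ δ = t * t := by
    rw [ht, ← Real.rpow_add hκ0]
    congr 1
    ring
  have h2 : Real.log κ ≤ (2 / δ) * t := by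
    refine h1.trans (le_of_eq ?_)
    rw [← ht]
    field_simp
  have h3 : t * t < (B + s * (2 / δ)) * t := by
    rw [← ht2]
    refine h.trans_le ?_
    have h4 : s * Real.log κ ≤ s * ((2 / δ) * t) := mul_le_mul_of_nonneg_left h2 hs
    have h5 : B ≤ B * t := by
      calc B = B * 1 := by ring
        _ ≤ B * t := mul_le_mul_of_nonneg_left ht1 hB
    calc B + s * Real.log κ ≤ B * t + s * ((2 / δ) * t) := add_le_add h5 h4
      _ = (B + s * (2 / δ)) * t := by ring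
  have h6 : t < B + s * (2 / δ) := lt_of_mul_lt_mul_right h3 (by linarith)
  have h7 : κ = t ^ (2 / δ) := by
    rw [ht, ← Real.rpow_mul hκ0.le]
    have : δ / 2 * (2 / δ) = 1 := by field_simp
    rw [this, Real.rpow_one]
  calc κ = t ^ (2 / δ) := h7
    _ ≤ (B + s * (2 / δ)) ^ (2 / δ) := Real.rpow_le_rpow (by linarith) h6.le (by positivity)

/-- pigeonhole for the gap -/
private theorem V6_gap (n : ℕ) (l : Fin n → ℝ) (T : ℕ → ℝ) (hT : ∀ i j, i < j → 2 * T i ≤ T j) :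
    ∃ j, j < n + 1 ∧ ∀ i, l i ≤ T j / 2 ∨ T j ≤ l i := by
  by_contra hcon
  have h1 : ∀ j : Fin (n + 1), ∃ i : Fin n, T j / 2 < l i ∧ l i < T j := by
    intro j
    by_contra h2
    apply hcon
    refine ⟨j, j.2, fun i => ?_⟩
    by_contra h3
    exact h2 ⟨i, not_le.1 (fun h => h3 (Or.inl h)), not_le.1 (fun h => h3 (Or.inr h))⟩
  choose f hf using h1
  obtain ⟨a, b, hab, hfab⟩ := Fintype.exists_ne_map_eq_of_card_lt f (by simp)
  have key : ∀ a b : Fin (n + 1), a < b → f a = f b → False := by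
    intro a b hlt he
    have h1 := hT a b hlt
    have h2 := (hf a).2
    have h3 := (hf b).1
    rw [← he] at h3
    linarith
  rcases lt_or_gt_of_ne hab with h | h
  · exact key a b h hfab
  · exact key b a h hfab.symm

private theorem V6_main (hCB : CB) (C₀ : ℝ) (hC₀ : 0 ≤ C₀) (r : ℕ) (ε : ℝ) (hε : 0 < ε) (n : ℕ)
    (hn : 3 * 2 ^ r ≤ n + 2 * r + 2) (hn1 : 1 ≤ n) : ∃ C : ℝ, 1 ≤ C ∧
    ∀ k : ℤ, k ≠ 0 → ∀ hh : Pt 0 k → ℝ, IsCanM C₀ hh →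
    ∀ (P : Fin n → Pt 0 k) (x : Fin n → ℤ),
      (∀ i, IsInt (P i) (x i)) → Function.Injective x → RankLe r P →
      ∃ i, (x i : ℝ) ≤ C * |(k : ℝ)| ^ ((5 : ℝ) / 6 + ε) := by
  obtain ⟨C₂, hC₂, hcb⟩ := hCB (ε / 2) (by linarith)
  obtain ⟨C₅, hC₅, hlay⟩ := layers_count C₀ hC₀ r
  have hr0 : (0 : ℝ) ≤ r := Nat.cast_nonneg r
  obtain ⟨δ, hδ⟩ : ∃ δ : ℝ, δ = ε / (2 * r + 2) := ⟨_, rfl⟩
  have hδ0 : 0 < δ := by rw [hδ]; positivity
  have hδr : δ * (2 * r + 2) = ε := by rw [hδ]; field_simp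
  have hrδ0 : 0 ≤ δ * r := by positivity
  obtain ⟨η, hη⟩ : ∃ η : ℝ, η = δ / (n + 1) := ⟨_, rfl⟩
  have hη0 : 0 < η := by rw [hη]; positivity
  obtain ⟨D, hD⟩ : ∃ D : ℝ, D = 1 + C₂ + C₀ := ⟨_, rfl⟩
  obtain ⟨D₁, hD₁⟩ : ∃ D : ℝ, D = 1 + C₀ := ⟨_, rfl⟩
  have hD1 : 1 ≤ D := by linarith
  have hD₁1 : 1 ≤ D₁ := by linarith
  have hDD : D₁ ≤ D := by linarith
  obtain ⟨e, he⟩ : ∃ e : ℝ, e = 1 / 2 + ε / 2 := ⟨_, rfl⟩
  have he0 : 0 < e := by linarith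
  obtain ⟨m, hm⟩ : ∃ m : ℕ, m = 6 * r + 8 + (r + 1) * (2 * r + 1) := ⟨_, rfl⟩
  obtain ⟨B, hB⟩ : ∃ B : ℝ, B = 4 * (Real.log C₅ + m * Real.log D) + 2 := ⟨_, rfl⟩
  have hlC₅ : 0 ≤ Real.log C₅ := Real.log_nonneg hC₅
  have hlD : 0 ≤ Real.log D := Real.log_nonneg hD1
  have hB2 : 2 ≤ B := by
    rw [hB]
    have : 0 ≤ (m : ℝ) * Real.log D := by positivity
    linarith
  obtain ⟨s, hs⟩ : ∃ s : ℝ, s = 4 * (m * e) := ⟨_, rfl⟩
  have hs0 : 0 ≤ s := by rw [hs]; positivity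
  obtain ⟨κ₀, hκ₀⟩ : ∃ κ₀ : ℝ, κ₀ = (B + s * (2 / η)) ^ (2 / η) := ⟨_, rfl⟩
  have hκ₀0 : 0 ≤ κ₀ := by
    rw [hκ₀]
    apply Real.rpow_nonneg
    have : 0 ≤ s * (2 / η) := by positivity
    linarith
  have hDp : 1 ≤ D ^ (3 * r + 3) := one_le_pow₀ hD1
  have hCD : 1 ≤ C₅ * D ^ (3 * r + 3) := by
    calc (1 : ℝ) = 1 * 1 := by ring
      _ ≤ _ := mul_le_mul hC₅ hDp zero_le_one (by linarith)
  obtain ⟨C, hC⟩ : ∃ C : ℝ, C = C₅ * D ^ (3 * r + 3) + 1 + Real.exp (C₂ * κ₀ ^ e) := ⟨_, rfl⟩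
  have hexp0 := Real.exp_pos (C₂ * κ₀ ^ e)
  have hC1 : 1 ≤ C := by linarith
  refine ⟨C, hC1, ?_⟩
  intro k hk hh hcc P x hInt hinj hrank
  by_contra hcon
  have hcon' : ∀ i, C * |(k : ℝ)| ^ ((5 : ℝ) / 6 + ε) < (x i : ℝ) := by
    intro i
    by_contra h
    exact hcon ⟨i, not_lt.1 h⟩
  obtain ⟨κ, hκd⟩ : ∃ κ : ℝ, κ = |(k : ℝ)| := ⟨_, rfl⟩
  have hκ : 1 ≤ κ := by
    rw [hκd]
    have h1 : (1 : ℤ) ≤ |k| := Int.one_le_abs hk
    exact_mod_cast h1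
  have hκ0 : 0 < κ := by linarith
  have hbig := fun i => V6_big (x := x i) hk hC1 (by linarith) (hcon' i)
  have hlog : ∀ i, Real.log (x i) ≤ C₂ * κ ^ e := by
    intro i
    obtain ⟨y, h, -⟩ := hInt i
    have hx0 : (0 : ℝ) < x i := by exact_mod_cast (hbig i).1
    have h4 := V6_eqn h
    have h5 := hcb (x i) y (by rw [h4]; exact hk)
    rw [h4, ← hκd, ← he] at h5
    have h6 : Real.log (x i : ℝ) ≤ Real.log (max |(x i : ℝ)| |(y : ℝ)|) :=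
      Real.log_le_log hx0 ((le_abs_self _).trans (le_max_left _ _))
    exact h6.trans h5
  have hke : 1 ≤ κ ^ e := Real.one_le_rpow hκ he0.le
  have hkd : 1 ≤ κ ^ δ := Real.one_le_rpow hκ hδ0.le
  rw [← hκd] at hcon'
  have hk56 : 1 ≤ κ ^ ((5 : ℝ) / 6 + ε) := Real.one_le_rpow hκ (by linarith)
  -- small κ
  by_cases hsmall : κ ≤ κ₀
  · have i : Fin n := ⟨0, hn1⟩
    have hx0 : (0 : ℝ) < x i := by exact_mod_cast (hbig i).1
    have h1 : (x i : ℝ) ≤ Real.exp (C₂ * κ₀ ^ e) := by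
      rw [← Real.exp_log hx0]
      apply Real.exp_le_exp.2
      refine (hlog i).trans ?_
      exact mul_le_mul_of_nonneg_left (Real.rpow_le_rpow hκ0.le hsmall he0.le) (by linarith)
    have h2 := hcon' i
    have h3 : C ≤ C * κ ^ ((5 : ℝ) / 6 + ε) := le_mul_of_one_le_right (by linarith) hk56
    linarith
  rw [not_le] at hsmall
  -- large κ
  have hlk : 0 ≤ Real.log κ := Real.log_nonneg hκ
  have hpw : B + s * Real.log κ ≤ κ ^ η := by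
    by_contra h
    rw [not_le] at h
    have h1 := V6_log hκ hη0 (by linarith) hs0 h
    rw [← hκ₀] at h1
    linarith
  have h2η : 2 ≤ κ ^ η := by
    have : 0 ≤ s * Real.log κ := by positivity
    linarith
  obtain ⟨W, hW⟩ : ∃ W : ℝ, W = D * κ ^ e := ⟨_, rfl⟩
  have hW1 : 1 ≤ W := by
    rw [hW]
    calc (1 : ℝ) = 1 * 1 := by ring
      _ ≤ _ := mul_le_mul hD1 hke zero_le_one (by linarith)
  have hexpW : C₅ * W ^ m < Real.exp (κ ^ η / 4) := by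
    have h1 : Real.log (C₅ * W ^ m) = Real.log C₅ + m * (Real.log D + e * Real.log κ) := by
      rw [Real.log_mul (by linarith) (by positivity), Real.log_pow, hW,
        Real.log_mul (by linarith) (by positivity), Real.log_rpow hκ0]
    rw [← Real.log_lt_iff_lt_exp (by positivity), h1]
    have h2 : Real.log C₅ + m * (Real.log D + e * Real.log κ) =
        (B + s * Real.log κ) / 4 - 1 / 2 := by
      rw [hB, hs]
      ring
    rw [h2]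
    linarith
  -- the gap
  obtain ⟨T', hT'⟩ : ∃ T' : ℕ → ℝ, T' = fun j : ℕ => κ ^ (η * ((j : ℝ) + 1)) := ⟨_, rfl⟩
  obtain ⟨j, hj, hgap⟩ := V6_gap n (fun i => Real.log (x i)) T' (by
    intro i j hij
    rw [hT']
    simp only
    have h1 : κ ^ (η * ((j : ℝ) + 1)) = κ ^ (η * ((i : ℝ) + 1)) * κ ^ (η * ((j : ℝ) - i)) := by
      rw [← Real.rpow_add hκ0]
      congr 1
      ring
    have h2 : κ ^ η ≤ κ ^ (η * ((j : ℝ) - i)) := by
      apply Real.rpow_le_rpow_of_exponent_le hκ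
      have : (i : ℝ) + 1 ≤ j := by exact_mod_cast hij
      nlinarith
    have h3 : 0 < κ ^ (η * ((i : ℝ) + 1)) := Real.rpow_pos_of_pos hκ0 _
    rw [h1]
    nlinarith)
  obtain ⟨T, hT⟩ : ∃ T : ℝ, T = T' j := ⟨_, rfl⟩
  rw [← hT] at hgap
  have hTlo : κ ^ η ≤ T := by
    rw [hT, hT']
    apply Real.rpow_le_rpow_of_exponent_le hκ
    have : (0 : ℝ) ≤ j := Nat.cast_nonneg j
    nlinarith
  have hThi : T ≤ κ ^ δ := by
    rw [hT, hT']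
    apply Real.rpow_le_rpow_of_exponent_le hκ
    have h1 : (j : ℝ) + 1 ≤ n + 1 := by exact_mod_cast hj
    have h2 : η * (n + 1) = δ := by rw [hη]; field_simp
    have h3 := mul_le_mul_of_nonneg_left h1 hη0.le
    linarith
  have hT0 : 0 < T := by linarith
  -- the radii
  obtain ⟨q₁, hq₁⟩ : ∃ q, q = Real.sqrt (D₁ * κ ^ δ) := ⟨_, rfl⟩
  obtain ⟨q₂, hq₂⟩ : ∃ q, q = Real.sqrt (D * κ ^ e) := ⟨_, rfl⟩
  have hq₁2 : q₁ ^ 2 = D₁ * κ ^ δ := by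
    rw [hq₁]
    exact Real.sq_sqrt (by positivity)
  have hq₂2 : q₂ ^ 2 = W := by
    rw [hq₂, hW]
    exact Real.sq_sqrt (by positivity)
  have hq₁1 : 1 ≤ q₁ := by
    rw [hq₁, Real.one_le_sqrt]
    calc (1 : ℝ) = 1 * 1 := by ring
      _ ≤ _ := mul_le_mul hD₁1 hkd zero_le_one (by linarith)
  have hq12 : q₁ ≤ q₂ := by
    rw [hq₁, hq₂]
    apply Real.sqrt_le_sqrt
    apply mul_le_mul hDD _ (by positivity) (by linarith)
    apply Real.rpow_le_rpow_of_exponent_le hκ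
    nlinarith
  have hq₂1 : 1 ≤ q₂ := hq₁1.trans hq12
  have hq₂W : q₂ ≤ W := by
    rw [← hq₂2]
    nlinarith
  have hq₁W : q₁ ≤ W := hq12.trans hq₂W
  have hκW : κ ≤ W ^ 2 := by
    have h1 : κ ≤ (κ ^ e) ^ 2 := by
      rw [← Real.rpow_natCast, ← Real.rpow_mul hκ0.le]
      calc κ = κ ^ (1 : ℝ) := (Real.rpow_one _).symm
        _ ≤ _ := by
            apply Real.rpow_le_rpow_of_exponent_le hκ
            push_cast
            linarith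
    refine h1.trans (pow_le_pow_left₀ (by positivity) ?_ 2)
    rw [hW]
    exact le_mul_of_one_le_left (by positivity) hD1
  have hWm : ∀ a : ℕ, a ≤ m → C₅ * W ^ a < Real.exp (T / 4) := by
    intro a ha
    refine lt_of_le_of_lt ?_ (hexpW.trans_le (Real.exp_le_exp.2 (by linarith)))
    exact mul_le_mul_of_nonneg_left (pow_le_pow_right₀ hW1 ha) (by linarith)
  obtain ⟨X, hX⟩ : ∃ X : ℝ, X = C * κ ^ ((5 : ℝ) / 6 + ε) := ⟨_, rfl⟩
  have hX0 : 0 < X := by rw [hX]; positivity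
  have hCC : C₅ * D ^ (3 * r + 3) < C := by linarith
  -- powers
  have hpowX : ∀ (t : ℕ) (c g : ℝ), 1 ≤ t → c ≤ C₅ * D ^ (3 * r + 3) → g ≤ ((5 : ℝ) / 6 + ε) * t →
      c * κ ^ g < X ^ t := by
    intro t c g ht hc hg
    have h1 : X ^ t = C ^ t * κ ^ (((5 : ℝ) / 6 + ε) * t) := by
      rw [hX, mul_pow, ← Real.rpow_natCast (κ ^ ((5 : ℝ) / 6 + ε)) t, ← Real.rpow_mul hκ0.le]
    have h2 : C ≤ C ^ t := le_self_pow₀ hC1 (by omega)
    have h3 : κ ^ g ≤ κ ^ (((5 : ℝ) / 6 + ε) * t) := Real.rpow_le_rpow_of_exponent_le hκ hg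
    have h4 : 0 < κ ^ g := Real.rpow_pos_of_pos hκ0 _
    rw [h1]
    calc c * κ ^ g < C * κ ^ g := mul_lt_mul_of_pos_right (lt_of_le_of_lt hc hCC) h4
      _ ≤ C ^ t * κ ^ (((5 : ℝ) / 6 + ε) * t) := mul_le_mul h2 h3 h4.le (by positivity)
  have hq₁6 : q₁ ^ (6 * r) = D₁ ^ (3 * r) * κ ^ (δ * (3 * r)) := by
    have h1 : q₁ ^ (6 * r) = (q₁ ^ 2) ^ (3 * r) := by rw [← pow_mul]; congr 1; ring
    rw [h1, hq₁2, mul_pow, ← Real.rpow_natCast (κ ^ δ) (3 * r), ← Real.rpow_mul hκ0.le]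
    push_cast
    ring_nf
  have hD₁D : C₅ * D₁ ^ (3 * r) ≤ C₅ * D ^ (3 * r + 3) := by
    apply mul_le_mul_of_nonneg_left _ (by linarith)
    exact (pow_le_pow_left₀ (by linarith) hDD _).trans (pow_le_pow_right₀ hD1 (by omega))
  have hmr : 6 * r + 8 ≤ m := by rw [hm]; omega
  have hexp3 : Real.exp (T / 4) ≤ Real.exp T ^ 3 := by
    rw [← Real.exp_nat_mul]
    apply Real.exp_le_exp.2
    push_cast
    linarith
  have hexp6 : Real.exp (T / 4) ≤ Real.exp T ^ 6 := by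
    rw [← Real.exp_nat_mul]
    apply Real.exp_le_exp.2
    push_cast
    linarith
  have hq₂W6 : q₂ ^ (6 * r) ≤ W ^ (6 * r) := pow_le_pow_left₀ (by linarith) hq₂W _
  have hW0 : 0 < W := by linarith
  refine hlay k hk hh hcc q₁ q₂ X T hq₁1 hq12 hX0 ?_ ?_ ?_ ?_ ?_ ?_ n hn P x hInt hinj hrank
    (fun i => by rw [hX]; exact (hcon' i).le) ?_ ?_ ?_
  · rw [← hκd, hq₁6]
    have h1 : C₅ * (D₁ ^ (3 * r) * κ ^ (δ * (3 * r))) * κ =
        C₅ * D₁ ^ (3 * r) * κ ^ (δ * (3 * r) + 1) := by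
      rw [Real.rpow_add hκ0, Real.rpow_one]
      ring
    rw [h1]
    apply hpowX 3 _ _ (by norm_num) hD₁D
    push_cast
    nlinarith
  · rw [← hκd, hq₁6]
    have h1 : C₅ * (D₁ ^ (3 * r) * κ ^ (δ * (3 * r))) * κ ^ 4 =
        C₅ * D₁ ^ (3 * r) * κ ^ (δ * (3 * r) + 4) := by
      have h7 : κ ^ (4 : ℝ) = κ ^ 4 := by
        rw [← Real.rpow_natCast κ 4]
        norm_num
      rw [Real.rpow_add hκ0, h7]
      ring
    rw [h1]
    apply hpowX 6 _ _ (by norm_num) hD₁D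
    push_cast
    nlinarith
  · rw [← hκd]
    refine lt_of_le_of_lt ?_ ((hWm (6 * r + 2) (by omega)).trans_le hexp3)
    calc C₅ * q₂ ^ (6 * r) * κ ≤ C₅ * W ^ (6 * r) * W ^ 2 := by gcongr
      _ = C₅ * W ^ (6 * r + 2) := by ring
  · rw [← hκd]
    refine lt_of_le_of_lt ?_ ((hWm (6 * r + 8) hmr).trans_le hexp6)
    calc C₅ * q₂ ^ (6 * r) * κ ^ 4 ≤ C₅ * W ^ (6 * r) * (W ^ 2) ^ 4 := by gcongr
      _ = C₅ * W ^ (6 * r + 8) := by ring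
  · rw [← hκd]
    have h1 : (q₂ * q₁ ^ (r - 1)) ^ 6 = (q₂ ^ 2) ^ 3 * (q₁ ^ 2) ^ (3 * (r - 1)) := by
      rw [mul_pow, ← pow_mul, ← pow_mul, ← pow_mul]
      congr 2
      ring
    have h2 : (q₁ ^ 2) ^ (3 * (r - 1)) = D₁ ^ (3 * (r - 1)) * κ ^ (δ * (3 * ((r - 1 : ℕ) : ℝ))) := by
      rw [hq₁2, mul_pow, ← Real.rpow_natCast (κ ^ δ) (3 * (r - 1)), ← Real.rpow_mul hκ0.le]
      push_cast
      ring_nf
    have h3 : (q₂ ^ 2) ^ 3 = D ^ 3 * κ ^ (e * 3) := by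
      rw [hq₂2, hW, mul_pow, ← Real.rpow_natCast (κ ^ e) 3, ← Real.rpow_mul hκ0.le]
      norm_num
    have h4 : C₅ * (q₂ * q₁ ^ (r - 1)) ^ 6 * κ = C₅ * (D ^ 3 * D₁ ^ (3 * (r - 1))) *
        κ ^ (e * 3 + δ * (3 * ((r - 1 : ℕ) : ℝ)) + 1) := by
      rw [h1, h2, h3, Real.rpow_add hκ0, Real.rpow_add hκ0, Real.rpow_one]
      ring
    rw [h4]
    refine (hpowX 3 _ _ (by norm_num) ?_ ?_).le
    · apply mul_le_mul_of_nonneg_left _ (by linarith)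
      have h5 : D₁ ^ (3 * (r - 1)) ≤ D ^ (3 * r) :=
        (pow_le_pow_left₀ (by linarith) hDD _).trans (pow_le_pow_right₀ hD1 (by omega))
      calc D ^ 3 * D₁ ^ (3 * (r - 1)) ≤ D ^ 3 * D ^ (3 * r) :=
            mul_le_mul_of_nonneg_left h5 (by positivity)
        _ = D ^ (3 * r + 3) := by ring
    · have h6 : ((r - 1 : ℕ) : ℝ) ≤ r := by exact_mod_cast Nat.sub_le r 1
      have h7 := mul_le_mul_of_nonneg_left h6 hδ0.le
      rw [he]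
      push_cast
      nlinarith
  · have h1 : q₂ * q₁ ^ (r - 1) ≤ W ^ (r + 1) := by
      calc q₂ * q₁ ^ (r - 1) ≤ W * W ^ (r - 1) := by gcongr
        _ = W ^ (r - 1 + 1) := by ring
        _ ≤ W ^ (r + 1) := pow_le_pow_right₀ hW1 (by omega)
    refine le_trans ?_ (hWm ((r + 1) * (2 * r + 1)) (by rw [hm]; omega)).le
    apply mul_le_mul_of_nonneg_left _ (by linarith)
    rw [pow_mul]
    exact pow_le_pow_left₀ (by positivity) h1 _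
  · intro i
    have h1 := canM_le hk hcc (hInt i) (hbig i).1 (hbig i).2
    have h2 := hlog i
    rw [hq₂2, hW, hD]
    nlinarith
  · intro i hi
    have h1 := canM_le hk hcc (hInt i) (hbig i).1 (hbig i).2
    have hx0 : (0 : ℝ) < x i := by exact_mod_cast (hbig i).1
    have h2 : Real.log (x i) ≤ T / 2 := by
      rw [Real.log_le_iff_le_exp hx0]
      exact hi
    rw [hq₁2, hD₁]
    nlinarith
  · intro i
    have hx0 : (0 : ℝ) < x i := by exact_mod_cast (hbig i).1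
    rcases hgap i with h | h
    · left
      rw [← Real.log_le_iff_le_exp hx0]
      exact h
    · right
      rw [← Real.le_log_iff_exp_le hx0]
      exact h

theorem count_V (hCB : CB) (C₀ : ℝ) (hC₀ : 0 ≤ C₀) (r : ℕ) (ε : ℝ) (hε : 0 < ε) : ∃ C : ℝ, 1 ≤ C ∧
    ∀ k : ℤ, k ≠ 0 → ∀ hh : Pt 0 k → ℝ, IsCanM C₀ hh →
    ∀ (N : ℕ), 3 * 2 ^ r ≤ N + 2 * r + 2 → ∀ (P : Fin N → Pt 0 k) (x : Fin N → ℤ),
      (∀ i, IsInt (P i) (x i)) → Function.Injective x → RankLe r P →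
      ∃ i, (x i : ℝ) ≤ C * |(k : ℝ)| ^ ((5 : ℝ) / 6 + ε) := by
  have hr : 2 * r + 3 ≤ 3 * 2 ^ r := by
    have h : r + 1 ≤ 2 ^ r := Nat.lt_two_pow_self
    omega
  obtain ⟨C, hC, h⟩ := V6_main hCB C₀ hC₀ r ε hε (3 * 2 ^ r - (2 * r + 2)) (by omega) (by omega)
  refine ⟨C, hC, ?_⟩
  intro k hk hh hcc N hN P x hInt hinj hrank
  have hle : 3 * 2 ^ r - (2 * r + 2) ≤ N := by omega
  obtain ⟨i, hi⟩ := h k hk hh hcc (fun i => P (Fin.castLE hle i)) (fun i => x (Fin.castLE hle i))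
    (fun i => hInt _) (fun a b hab => Fin.castLE_injective hle (hinj hab))
    (fun f => hrank fun j => Fin.castLE hle (f j))
  exact ⟨_, hi⟩

end Pool.Agent.LibUM24
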