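import Pool.Agent.LibDM24.MJ

/-!
ROW W1 (MEDIUM). The angle between two integral points of size at least `|k| ^ (5/6 + ε)` (cites LibDM24: MD `canM_ge`, `canM_le`, MH `near_intM`, MJ `comboM` as stated).

PLAN. `κ = |k| ≥ 1`, `λ = log κ ≥ 0`, `η = 4 ε / (5 + 6 ε) < 2/3`, so `(2/3 - η) (5/6 + ε) = 5/9`. `C' = C₀ + 4`. `m = log X - λ/3 - C'`.
`comboM C₀ _ 2` (`P, Q`, coefficients `(1, 1)` and `(1, -1)`, `A = 1`; `κ ≤ c₁ X³` for `C` large): `R = P ± Q ≠ 0` (the `x`-coordinates differ), so `|u R| ≤ (5/4)(|u P| + |u Q|) ≤ (5/4) 2 √(2/X)` (`near_intM`),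
`hh R ≥ -2 log |u R| - λ/3 - (C₀ + 1) ≥ log X - log (25/2) - λ/3 - C₀ - 1 ≥ m` (`log 12.5 ≤ 2.6`). `canM_ge`: `hh P, hh Q ≥ m`. `canM_le`: `hh P, hh Q ≤ (1+η) log X + C₀ ≤ (5/3) m`: this is
`(5/3)(λ/3 + C') + C₀ ≤ (2/3 - η) log X`, and `log X ≥ log C + (5/6+ε) λ`, so it holds if `(2/3 - η) log C ≥ 5/3 C' + C₀`. `m > 0`.
`p = hh P`, `q = hh Q`, `S = hh (P+Q) - p - q`: `par` and `hh (P ± Q) ≥ m`: `|S| ≤ p + q - m`, `p, q ∈ [m, 5m/3]`: `(p + q - m)² ≤ (49/25) p q`: convex in `p` and in `q`, corners (m = 1):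
`1 ≤ 1.96`, `(5/3)² ≤ 1.96 · 5/3`, `(7/3)² = 1.96 · 25/9` (EQUALITY, so use exact rational numbers: `1.96 p q - (p+q-m)² ≥ 0` follows from `(5m/3 - p)(..)`-type products; e.g. write `p = m (1 + s)`, `q = m (1 + t)`,
`0 ≤ s, t ≤ 2/3`: `(1+s+t)² ≤ 1.96 (1+s)(1+t)`; concave-convex check by `nlinarith [mul_nonneg hs ht, mul_nonneg (2/3-s ≥ 0) (2/3-t ≥ 0), ...]`).
-/

set_option autoImplicit false

open WeierstrassCurve Pool.Agent.LibDP24 Pool.Agent.LibDM24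

namespace Pool.Agent.LibUM24

private theorem W1_quad {m p q S : ℝ} (hm : 0 < m) (hp : m ≤ p) (hq : m ≤ q)
    (hp' : p ≤ 5 / 3 * m) (hq' : q ≤ 5 / 3 * m) (h1 : S ≤ p + q - m) (h2 : -(p + q - m) ≤ S) :
    S ^ 2 ≤ 49 / 25 * p * q := by
  have h3 : S ^ 2 ≤ (p + q - m) ^ 2 := sq_le_sq' h2 h1
  refine h3.trans ?_
  obtain ⟨s, hs⟩ : ∃ s, s = p - m := ⟨_, rfl⟩
  obtain ⟨t, ht⟩ : ∃ t, t = q - m := ⟨_, rfl⟩
  have hs0 : 0 ≤ s := by linarith
  have ht0 : 0 ≤ t := by linarith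
  have hs1 : s ≤ 2 / 3 * m := by linarith
  have ht1 : t ≤ 2 / 3 * m := by linarith
  have hpp : p = m + s := by linarith
  have hqq : q = m + t := by linarith
  rw [hpp, hqq]
  have e1 : s * s ≤ 2 / 3 * m * (2 / 3 * m) := mul_le_mul hs1 hs1 hs0 (by positivity)
  have e2 : t * t ≤ 2 / 3 * m * (2 / 3 * m) := mul_le_mul ht1 ht1 ht0 (by positivity)
  have e3 : s * t ≤ 2 / 3 * m * (2 / 3 * m) := mul_le_mul hs1 ht1 ht0 (by positivity)
  have e4 : m * s ≤ m * (2 / 3 * m) := mul_le_mul_of_nonneg_left hs1 hm.le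
  have e5 : m * t ≤ m * (2 / 3 * m) := mul_le_mul_of_nonneg_left ht1 hm.le
  have e6 : 49 / 25 * (m + s) * (m + t) - (m + s + (m + t) - m) ^ 2 =
      24 / 25 * (m * m) - 1 / 25 * (m * s) - 1 / 25 * (m * t) - s * s - t * t -
        1 / 25 * (s * t) := by ring
  have e7 : 24 / 25 * (m * m) - 1 / 25 * (m * (2 / 3 * m)) - 1 / 25 * (m * (2 / 3 * m)) -
      2 / 3 * m * (2 / 3 * m) - 2 / 3 * m * (2 / 3 * m) - 1 / 25 * (2 / 3 * m * (2 / 3 * m)) = 0 := by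
    ring
  linarith

private theorem W1_log : Real.log (25 / 2) ≤ 3 := by
  rw [Real.log_le_iff_le_exp (by norm_num)]
  have e1 : Real.exp 3 = Real.exp 1 ^ 3 := by
    rw [← Real.exp_nat_mul]
    norm_num
  rw [e1]
  have e2 : (2.7 : ℝ) ≤ Real.exp 1 := by
    have := Real.exp_one_gt_d9
    linarith
  have e3 : (2.7 : ℝ) ^ 3 ≤ Real.exp 1 ^ 3 := pow_le_pow_left₀ (by norm_num) e2 3
  refine le_trans ?_ e3
  norm_num

/-- the size of the parameter of `P + Q` or `P - Q` gives the lower bound of its height -/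
private theorem W1_low {X u v w : ℝ} (hX : 0 < X) (hu : X * u ^ 2 ≤ 2) (hv : X * v ^ 2 ≤ 2)
    (hw : |w| ≤ 5 / 4 * (|u| + |v|)) (hw0 : w ≠ 0) : Real.log X - 3 ≤ -2 * Real.log |w| := by
  have hwp : 0 < |w| := abs_pos.2 hw0
  have h1 : |w| ^ 2 ≤ (5 / 4 * (|u| + |v|)) ^ 2 := pow_le_pow_left₀ (abs_nonneg w) hw 2
  have h2 : (5 / 4 * (|u| + |v|)) ^ 2 ≤ 25 / 8 * (u ^ 2 + v ^ 2) := by
    have e1 := sq_abs u
    have e2 := sq_abs v
    nlinarith [sq_nonneg (|u| - |v|)]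
  have h3 : X * |w| ^ 2 ≤ 25 / 2 := by
    have h4 : X * |w| ^ 2 ≤ X * (25 / 8 * (u ^ 2 + v ^ 2)) :=
      mul_le_mul_of_nonneg_left (h1.trans h2) hX.le
    have h5 : X * (25 / 8 * (u ^ 2 + v ^ 2)) = 25 / 8 * (X * u ^ 2 + X * v ^ 2) := by ring
    linarith
  have h6 := Real.log_le_log (by positivity) h3
  rw [Real.log_mul hX.ne' (by positivity), Real.log_pow] at h6
  have h7 := W1_log
  push_cast at h6
  linarith

private theorem W1_ne {k : ℤ} {P Q : Pt 0 k} {x y : ℤ} (hP : IsInt P x) (hQ : IsInt Q y)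
    (hxy : x ≠ y) : P + Q ≠ 0 ∧ P - Q ≠ 0 := by
  obtain ⟨a, ha, rfl⟩ := hP
  obtain ⟨b, hb, rfl⟩ := hQ
  have hq : (x : ℚ) ≠ (y : ℚ) := by exact_mod_cast hxy
  constructor
  · intro h
    have h1 := eq_neg_of_add_eq_zero_left h
    rw [Affine.Point.neg_some] at h1
    exact hq (Affine.Point.some.inj h1).1
  · intro h
    have h1 := sub_eq_zero.1 h
    exact hq (Affine.Point.some.inj h1).1

theorem angleM (C₀ : ℝ) (hC₀ : 0 ≤ C₀) (ε : ℝ) (hε : 0 < ε) : ∃ C η : ℝ, 1 ≤ C ∧ 0 < η ∧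
    ∀ k : ℤ, k ≠ 0 → ∀ hh : Pt 0 k → ℝ, IsCanM C₀ hh →
    ∀ (P Q : Pt 0 k) (x y : ℤ), IsInt P x → IsInt Q y → x ≠ y →
    ∀ X : ℝ, C * |(k : ℝ)| ^ ((5 : ℝ) / 6 + ε) ≤ X → X ≤ x → X ≤ y →
      (x : ℝ) ≤ X ^ (1 + η) → (y : ℝ) ≤ X ^ (1 + η) →
      0 < hh P ∧ 0 < hh Q ∧ (hh (P + Q) - hh P - hh Q) ^ 2 ≤ 49 / 25 * hh P * hh Q := by
  obtain ⟨c₁, hc₁, hc₁', hcombo⟩ := comboM C₀ hC₀ 2
  obtain ⟨η, hη⟩ : ∃ η : ℝ, η = 4 * ε / (5 + 6 * ε) := ⟨_, rfl⟩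
  obtain ⟨D, hD⟩ : ∃ D : ℝ, D = 2 / 3 - η := ⟨_, rfl⟩
  obtain ⟨W, hW⟩ : ∃ W : ℝ, W = 5 / 3 * (C₀ + 4) + C₀ := ⟨_, rfl⟩
  have hη0 : 0 < η := by
    rw [hη]
    positivity
  have hDe : D = 10 / (3 * (5 + 6 * ε)) := by
    rw [hD, hη]
    field_simp
    ring
  have hD0 : 0 < D := by
    rw [hDe]
    positivity
  have hD1 : D * (5 / 6 + ε) = 5 / 9 := by
    rw [hDe]
    field_simp
    ring
  have hW0 : 0 < W := by
    rw [hW]
    linarith
  obtain ⟨C, hC⟩ : ∃ C : ℝ, C = 1 / c₁ + Real.exp (W / D) := ⟨_, rfl⟩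
  have hexp := Real.exp_pos (W / D)
  have hc₁i : (1 : ℝ) ≤ 1 / c₁ := by
    rw [one_le_div hc₁]
    linarith
  have hCc : 1 / c₁ ≤ C := by linarith
  have hCe : Real.exp (W / D) ≤ C := by linarith
  have hC1 : 1 ≤ C := by linarith
  have hC0 : 0 < C := by linarith
  have hcC : 1 ≤ c₁ * C := by
    rw [div_le_iff₀ hc₁] at hCc
    linarith
  have hlogC : W / D ≤ Real.log C := by
    rw [Real.le_log_iff_exp_le hC0]
    exact hCe
  have hlogC' : W ≤ D * Real.log C := by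
    rw [div_le_iff₀ hD0] at hlogC
    linarith
  refine ⟨C, η, hC1, hη0, ?_⟩
  intro k hk hh hc P Q x y hP hQ hxy X hX hXx hXy hx1 hy1
  have hκ1 : 1 ≤ |(k : ℝ)| := by exact_mod_cast Int.one_le_abs hk
  obtain ⟨κ, hκ⟩ : ∃ κ : ℝ, κ = |(k : ℝ)| := ⟨_, rfl⟩
  rw [← hκ] at hX hκ1
  have hκ0 : 0 < κ := by linarith
  have hlam : 0 ≤ Real.log κ := Real.log_nonneg hκ1
  have hpow1 : 1 ≤ κ ^ ((5 : ℝ) / 6 + ε) := Real.one_le_rpow hκ1 (by positivity)
  have hXC : C ≤ X := (le_mul_of_one_le_right hC0.le hpow1).trans hX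
  have hX0 : 0 < X := by linarith
  have hlogX : Real.log C + (5 / 6 + ε) * Real.log κ ≤ Real.log X := by
    have h1 := Real.log_le_log (by positivity) hX
    rwa [Real.log_mul hC0.ne' (by positivity), Real.log_rpow hκ0] at h1
  -- `κ ≤ c₁ X³`
  have hκX : κ ≤ c₁ * X ^ 3 := by
    have h1 : κ ≤ (κ ^ ((5 : ℝ) / 6 + ε)) ^ 3 := by
      rw [← Real.rpow_natCast, ← Real.rpow_mul hκ0.le]
      calc κ = κ ^ (1 : ℝ) := (Real.rpow_one κ).symm
        _ ≤ κ ^ (((5 : ℝ) / 6 + ε) * ((3 : ℕ) : ℝ)) := by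
          refine Real.rpow_le_rpow_of_exponent_le hκ1 ?_
          push_cast
          linarith
    have h2 : (C * κ ^ ((5 : ℝ) / 6 + ε)) ^ 3 ≤ X ^ 3 :=
      pow_le_pow_left₀ (by positivity) hX 3
    have h3 : 1 ≤ c₁ * C ^ 3 := by
      have h4 : c₁ * C ^ 3 = (c₁ * C) * (C * C) := by ring
      rw [h4]
      exact one_le_mul_of_one_le_of_one_le hcC (one_le_mul_of_one_le_of_one_le hC1 hC1)
    have h5 : κ ≤ c₁ * C ^ 3 * (κ ^ ((5 : ℝ) / 6 + ε)) ^ 3 :=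
      h1.trans (le_mul_of_one_le_left (by positivity) h3)
    calc κ ≤ c₁ * C ^ 3 * (κ ^ ((5 : ℝ) / 6 + ε)) ^ 3 := h5
      _ = c₁ * (C * κ ^ ((5 : ℝ) / 6 + ε)) ^ 3 := by ring
      _ ≤ c₁ * X ^ 3 := mul_le_mul_of_nonneg_left h2 hc₁.le
  have hκX' : κ ≤ 1 / 10 ^ 6 * X ^ 3 :=
    hκX.trans (mul_le_mul_of_nonneg_right hc₁' (by positivity))
  have hX3 : 0 < X ^ 3 := by positivity
  -- one point
  have hpt : ∀ (R : Pt 0 k) (z : ℤ), IsInt R z → X ≤ z → (z : ℝ) ≤ X ^ (1 + η) →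
      X * uu R ^ 2 ≤ 2 ∧ Real.log X - 1 / 3 * Real.log κ - (C₀ + 4) ≤ hh R ∧
        hh R ≤ 5 / 3 * (Real.log X - 1 / 3 * Real.log κ - (C₀ + 4)) := by
    intro R z hR hz hz1
    have hz0 : (0 : ℝ) < z := lt_of_lt_of_le hX0 hz
    have hz3 : X ^ 3 ≤ (z : ℝ) ^ 3 := pow_le_pow_left₀ hX0.le hz 3
    have hz6 : 10 ^ 6 * |(k : ℝ)| ≤ (z : ℝ) ^ 3 := by
      rw [← hκ]
      have h1 : 10 ^ 6 * κ ≤ 10 ^ 6 * (1 / 10 ^ 6 * X ^ 3) :=
        mul_le_mul_of_nonneg_left hκX' (by norm_num)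
      have h2 : (10 : ℝ) ^ 6 * (1 / 10 ^ 6 * X ^ 3) = X ^ 3 := by ring
      linarith
    obtain ⟨-, -, h3, -, -⟩ := near_intM hk hR hz6
    have hlz : Real.log X ≤ Real.log z := Real.log_le_log hX0 hz
    refine ⟨?_, ?_, ?_⟩
    · exact (mul_le_mul_of_nonneg_right hz (sq_nonneg _)).trans h3
    · have hR' := hR
      obtain ⟨b, hb, hRb⟩ := hR'
      have hzq : (z : ℚ) ≠ 0 := by
        have : z ≠ 0 := by
          rintro rfl
          simp at hz0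
        exact_mod_cast this
      have h4 := canM_ge hk hc hb hzq
      rw [← hRb, ← hκ] at h4
      have h5 : Real.log |((z : ℚ) : ℝ)| = Real.log (z : ℝ) := by
        push_cast
        exact Real.log_abs _
      rw [h5] at h4
      linarith
    · have hzi : 0 < z := by exact_mod_cast hz0
      have h6 : |(k : ℝ)| ≤ (z : ℝ) ^ 3 := by
        rw [← hκ] at hz6 ⊢
        have : κ ≤ 10 ^ 6 * κ := by
          have : (10 : ℝ) ^ 6 * κ = κ + 999999 * κ := by ring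
          linarith
        linarith
      have h7 := canM_le hk hc hR hzi h6
      have h8 : Real.log z ≤ (1 + η) * Real.log X := by
        have h9 := Real.log_le_log hz0 hz1
        rwa [Real.log_rpow hX0] at h9
      have h10 : D * (Real.log C + (5 / 6 + ε) * Real.log κ) ≤ D * Real.log X :=
        mul_le_mul_of_nonneg_left hlogX hD0.le
      have h11 : D * (Real.log C + (5 / 6 + ε) * Real.log κ) =
          D * Real.log C + D * (5 / 6 + ε) * Real.log κ := by ring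
      rw [h11, hD1] at h10
      have h12 : D * Real.log X = 2 / 3 * Real.log X - η * Real.log X := by
        rw [hD]
        ring
      rw [h12] at h10
      have h13 : (1 + η) * Real.log X = Real.log X + η * Real.log X := by ring
      rw [h13] at h8
      linarith
  obtain ⟨hP1, hP2, hP3⟩ := hpt P x hP hXx hx1
  obtain ⟨hQ1, hQ2, hQ3⟩ := hpt Q y hQ hXy hy1
  obtain ⟨m, hm⟩ : ∃ m : ℝ, m = Real.log X - 1 / 3 * Real.log κ - (C₀ + 4) := ⟨_, rfl⟩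
  rw [← hm] at hP2 hP3 hQ2 hQ3
  have hm0 : 0 < m := by
    have hlC0 : 0 ≤ Real.log C := Real.log_nonneg hC1
    have h1 : D * Real.log C ≤ 2 / 3 * Real.log C :=
      mul_le_mul_of_nonneg_right (by linarith) hlC0
    have h2 : 0 ≤ (1 / 2 + ε) * Real.log κ := by positivity
    have h3 : (5 / 6 + ε) * Real.log κ = 1 / 3 * Real.log κ + (1 / 2 + ε) * Real.log κ := by ring
    linarith
  obtain ⟨hne1, hne2⟩ := W1_ne hP hQ hxy
  -- the combinations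
  have hcomb : ∀ s : ℤ, (s = 1 ∨ s = -1) → P + s • Q ≠ 0 → m ≤ hh (P + s • Q) := by
    intro s hs hne
    have hsa : |(s : ℝ)| = 1 := by
      rcases hs with rfl | rfl <;> simp
    have h1 := hcombo k hk hh hc ![P, Q] ![x, y] (by
      intro i
      fin_cases i
      · exact hP
      · exact hQ) X 1 hX0 le_rfl (by
      intro i
      fin_cases i
      · exact hXx
      · exact hXy) (by
      rw [one_pow, one_mul, ← hκ]
      exact hκX) ![1, s] (by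
      intro i
      fin_cases i
      · simp
      · show |(s : ℝ)| ≤ 1
        exact hsa.le)
    have e1 : ∑ i, (![1, s] : Fin 2 → ℤ) i • (![P, Q] : Fin 2 → Pt 0 k) i = P + s • Q := by
      rw [Fin.sum_univ_two]
      simp
    have e2 : ∑ i, (((![1, s] : Fin 2 → ℤ) i : ℤ) : ℝ) * uu ((![P, Q] : Fin 2 → Pt 0 k) i) =
        uu P + s * uu Q := by
      rw [Fin.sum_univ_two]
      simp
    have e3 : ∑ i, |(((![1, s] : Fin 2 → ℤ) i : ℤ) : ℝ)| *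
        |uu ((![P, Q] : Fin 2 → Pt 0 k) i)| = |uu P| + |uu Q| := by
      rw [Fin.sum_univ_two]
      simp [hsa]
    rw [e1, e2, e3] at h1
    obtain ⟨h2, -, -, h3⟩ := h1
    obtain ⟨h4, h5⟩ := h3 hne
    rw [← hκ] at h5
    have h6 : |uu (P + s • Q)| ≤ 5 / 4 * (|uu P| + |uu Q|) := by
      have h7 : |uu (P + s • Q)| ≤ |uu (P + s • Q) - (uu P + s * uu Q)| + |uu P + s * uu Q| := by
        have := abs_add_le (uu (P + s • Q) - (uu P + s * uu Q)) (uu P + s * uu Q)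
        rwa [sub_add_cancel] at this
      have h8 : |uu P + s * uu Q| ≤ |uu P| + |uu Q| := by
        refine (abs_add_le _ _).trans ?_
        rw [abs_mul, hsa, one_mul]
      linarith
    have h9 := W1_low hX0 hP1 hQ1 h6 h4
    linarith
  have hp1 : m ≤ hh (P + Q) := by
    have := hcomb 1 (Or.inl rfl) (by rwa [one_smul])
    rwa [one_smul] at this
  have hp2 : m ≤ hh (P - Q) := by
    have := hcomb (-1) (Or.inr rfl) (by rwa [neg_smul, one_smul, ← sub_eq_add_neg])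
    rwa [neg_smul, one_smul, ← sub_eq_add_neg] at this
  have hpar := hc.par P Q
  refine ⟨by linarith, by linarith, W1_quad hm0 hP2 hQ2 hP3 hQ3 (by linarith) (by linarith)⟩

end Pool.Agent.LibUM24
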