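import Pool.Agent.LibUM24.PK
import Pool.Agent.LibHU64.A4

/-!
Packing in a group of rank `r`, `cos ^ 2 ≤ 49 / 100`.
-/

set_option autoImplicit false

open Pool.Agent.LibHU64

namespace Pool.Agent.LibUM24

theorem packing_groupM {G : Type*} [AddCommGroup G] {hh : G → ℝ}
    (par : ∀ R S, hh (R + S) + hh (R - S) = 2 * hh R + 2 * hh S) (nonneg : ∀ R, 0 ≤ hh R)
    {r n : ℕ} (P : Fin n → G) (hpos : ∀ i, 0 < hh (P i))
    (hang : ∀ i j, i ≠ j → (hh (P i + P j) - hh (P i) - hh (P j)) ^ 2 ≤ 49 / 25 * hh (P i) * hh (P j))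
    (hrank : RankLe r P) : (n : ℝ) ≤ pkM r := by
  obtain ⟨v, hv, hvv⟩ := gram_vec par nonneg P hpos hrank
  refine packing_vecM v hv fun i j hij => ?_
  have h1 := hang i j hij
  rw [hvv i j] at h1
  have h2 := mul_pos (hpos i) (hpos j)
  nlinarith

end Pool.Agent.LibUM24
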