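import Pool.Agent.LibUM24.W1
import Pool.Agent.LibUM24.W2

/-!
ROW W3 (MEDIUM). The number of integral points between `C |k| ^ (5/6 + ε)` and a power of it (cites W1, W2 as stated).

PLAN. `C₁, η` from `angleM`; `C = max C₁ 3`. Window: for `X ≥ C κ^(5/6+ε)` a family (injective `x`, `RankLe r`) with all `X ≤ x i ≤ X^(1+η)` has at most `pkM r` members: `n ≤ 1`: `pkM r ≥ 3`;
`n ≥ 2`: every `i` has a `j ≠ i`, `angleM` gives `0 < hh (P i)` and the angle; `packing_groupM`.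
Given `M₀`: `X₀ = C κ^(5/6+ε)`, `log X₀ ≥ log 3 + (5/6) log κ ≥ (5/6) log (3κ) ≥ (5/6) log (2 + κ) = (5/6) ell 0 k` (`κ ≥ 1`; `ell 0 k = log (2 + |0| + |k|)`). Choose `J` with `(1+η)^J (5/6) ≥ M₀`. For `j < J` the indices with
`X₀^((1+η)^j) ≤ x i ≤ X₀^((1+η)^(j+1))` are at most `pkM r` many (`X := X₀^((1+η)^j) ≥ X₀`, `X^(1+η) = X₀^((1+η)^(j+1))`), and every index lies in one of them. `W = J + 1`.
-/

set_option autoImplicit false

open WeierstrassCurve Pool.Agent.LibDP24 Pool.Agent.LibDM24 Pool.Agent.LibHU64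

namespace Pool.Agent.LibUM24

private theorem W3_pkM (r : ℕ) : 3 ≤ pkM r := by
  unfold pkM
  have h1 : (1 : ℝ) ≤ ((r : ℝ) + 1) ^ 2 := by
    have : (0 : ℝ) ≤ r := Nat.cast_nonneg r
    nlinarith
  have h2 : (1 : ℝ) ≤ (2 : ℝ) ^ (50 / 51 * (r : ℝ)) := Real.one_le_rpow (by norm_num) (by positivity)
  nlinarith

private theorem W3_win {C₀ ε C₁ η : ℝ}
    (hang : ∀ k : ℤ, k ≠ 0 → ∀ hh : Pt 0 k → ℝ, IsCanM C₀ hh →
      ∀ (P Q : Pt 0 k) (x y : ℤ), IsInt P x → IsInt Q y → x ≠ y →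
      ∀ X : ℝ, C₁ * |(k : ℝ)| ^ ((5 : ℝ) / 6 + ε) ≤ X → X ≤ x → X ≤ y →
        (x : ℝ) ≤ X ^ (1 + η) → (y : ℝ) ≤ X ^ (1 + η) →
        0 < hh P ∧ 0 < hh Q ∧ (hh (P + Q) - hh P - hh Q) ^ 2 ≤ 49 / 25 * hh P * hh Q)
    {k : ℤ} (hk : k ≠ 0) {hh : Pt 0 k → ℝ} (hcan : IsCanM C₀ hh) {X : ℝ}
    (hX : C₁ * |(k : ℝ)| ^ ((5 : ℝ) / 6 + ε) ≤ X) {r n : ℕ} (P : Fin n → Pt 0 k) (x : Fin n → ℤ)
    (hint : ∀ i, IsInt (P i) (x i)) (hinj : Function.Injective x) (hrank : RankLe r P)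
    (h1 : ∀ i, X ≤ x i) (h2 : ∀ i, (x i : ℝ) ≤ X ^ (1 + η)) : (n : ℝ) ≤ pkM r := by
  rcases Nat.lt_or_ge n 2 with hn | hn
  · have h3 : (n : ℝ) ≤ 1 := by
      have h4 : n ≤ 1 := by omega
      exact_mod_cast h4
    have h5 := W3_pkM r
    linarith
  · have hnt : Nontrivial (Fin n) := Fin.nontrivial_iff_two_le.2 hn
    have key : ∀ i j, i ≠ j → 0 < hh (P i) ∧ 0 < hh (P j) ∧
        (hh (P i + P j) - hh (P i) - hh (P j)) ^ 2 ≤ 49 / 25 * hh (P i) * hh (P j) := by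
      intro i j hij
      exact hang k hk hh hcan (P i) (P j) (x i) (x j) (hint i) (hint j) (fun h => hij (hinj h)) X hX
        (h1 i) (h1 j) (h2 i) (h2 j)
    refine packing_groupM hcan.par hcan.nonneg P (fun i => ?_) (fun i j hij => (key i j hij).2.2) hrank
    obtain ⟨j, hj⟩ := exists_ne i
    exact (key i j (Ne.symm hj)).1

private theorem W3_log {C ε : ℝ} (hC : 3 ≤ C) (hε : 0 < ε) {k : ℤ} (hk : k ≠ 0) :
    0 < C * |(k : ℝ)| ^ ((5 : ℝ) / 6 + ε) ∧ 0 < Real.log (C * |(k : ℝ)| ^ ((5 : ℝ) / 6 + ε)) ∧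
      5 / 6 * ell 0 k ≤ Real.log (C * |(k : ℝ)| ^ ((5 : ℝ) / 6 + ε)) := by
  have hκ : (1 : ℝ) ≤ |(k : ℝ)| := by
    have h1 : (1 : ℤ) ≤ |k| := Int.one_le_abs hk
    have h2 : ((1 : ℤ) : ℝ) ≤ ((|k| : ℤ) : ℝ) := Int.cast_le.2 h1
    rwa [Int.cast_one, Int.cast_abs] at h2
  have hκ0 : (0 : ℝ) < |(k : ℝ)| := by linarith
  have hp : 0 < |(k : ℝ)| ^ ((5 : ℝ) / 6 + ε) := Real.rpow_pos_of_pos hκ0 _
  have hlogκ : 0 ≤ Real.log |(k : ℝ)| := Real.log_nonneg hκ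
  have hlog3 : 0 < Real.log 3 := Real.log_pos (by norm_num)
  have hlogC : Real.log 3 ≤ Real.log C := Real.log_le_log (by norm_num) hC
  have e : Real.log (C * |(k : ℝ)| ^ ((5 : ℝ) / 6 + ε)) =
      Real.log C + ((5 : ℝ) / 6 + ε) * Real.log |(k : ℝ)| := by
    rw [Real.log_mul (by linarith) hp.ne', Real.log_rpow hκ0]
  have h5 : 5 / 6 * Real.log |(k : ℝ)| ≤ ((5 : ℝ) / 6 + ε) * Real.log |(k : ℝ)| :=
    mul_le_mul_of_nonneg_right (by linarith) hlogκ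
  refine ⟨by positivity, ?_, ?_⟩
  · rw [e]
    linarith
  · rw [e]
    have h6 : ell 0 k ≤ Real.log 3 + Real.log |(k : ℝ)| := by
      rw [← Real.log_mul (by norm_num) hκ0.ne']
      unfold ell aa
      rw [Int.cast_zero, abs_zero, add_zero]
      exact Real.log_le_log (by linarith) (by linarith)
    linarith

theorem count_midM (C₀ : ℝ) (hC₀ : 0 ≤ C₀) (ε : ℝ) (hε : 0 < ε) : ∃ C : ℝ, 1 ≤ C ∧ ∀ M₀ : ℝ, ∃ W : ℝ, 1 ≤ W ∧
    ∀ (r : ℕ) (k : ℤ), k ≠ 0 → ∀ hh : Pt 0 k → ℝ, IsCanM C₀ hh →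
    ∀ (N : ℕ) (P : Fin N → Pt 0 k) (x : Fin N → ℤ),
      (∀ i, IsInt (P i) (x i)) → Function.Injective x → RankLe r P →
      (∀ i, C * |(k : ℝ)| ^ ((5 : ℝ) / 6 + ε) ≤ x i) → (∀ i, (x i : ℝ) < Real.exp (M₀ * ell 0 k)) →
      (N : ℝ) ≤ W * pkM r := by
  obtain ⟨C₁, η, hC₁, hη, hang⟩ := angleM C₀ hC₀ ε hε
  refine ⟨max C₁ 3, le_trans hC₁ (le_max_left _ _), fun M₀ => ?_⟩
  have hq1 : 1 < 1 + η := by linarith
  have hq0 : 0 < 1 + η := by linarith
  obtain ⟨J, hJ⟩ := pow_unbounded_of_one_lt (6 / 5 * M₀) hq1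
  refine ⟨J + 1, by
    have h0 : (0 : ℝ) ≤ J := Nat.cast_nonneg J
    linarith, ?_⟩
  intro r k hk hh hcan N P x hint hinj hrank hlo hhi
  obtain ⟨hX0, hL0, hLell⟩ := W3_log (C := max C₁ 3) (le_max_right _ _) hε hk
  obtain ⟨X₀, hX₀⟩ : ∃ X₀ : ℝ, X₀ = max C₁ 3 * |(k : ℝ)| ^ ((5 : ℝ) / 6 + ε) := ⟨_, rfl⟩
  rw [← hX₀] at hX0 hL0 hLell
  have hlo' : ∀ i, X₀ ≤ x i := by
    intro i
    rw [hX₀]
    exact hlo i
  have hC1X : C₁ * |(k : ℝ)| ^ ((5 : ℝ) / 6 + ε) ≤ X₀ := by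
    rw [hX₀]
    exact mul_le_mul_of_nonneg_right (le_max_left _ _) (Real.rpow_nonneg (abs_nonneg _) _)
  have hx0 : ∀ i, (0 : ℝ) < x i := fun i => lt_of_lt_of_le hX0 (hlo' i)
  have hell : 0 ≤ ell 0 k := by
    unfold ell
    refine Real.log_nonneg ?_
    unfold aa
    have h1 := abs_nonneg ((0 : ℤ) : ℝ)
    have h2 := abs_nonneg (k : ℝ)
    linarith
  have hL1 : ∀ i, Real.log X₀ ≤ Real.log (x i) := fun i => Real.log_le_log hX0 (hlo' i)
  have hL2 : ∀ i, Real.log (x i) < Real.log X₀ * (1 + η) ^ J := by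
    intro i
    have h1 : Real.log (x i) < M₀ * ell 0 k := (Real.log_lt_iff_lt_exp (hx0 i)).2 (hhi i)
    have h2 : M₀ * ell 0 k ≤ (5 / 6 * (1 + η) ^ J) * ell 0 k :=
      mul_le_mul_of_nonneg_right (by linarith) hell
    have h3 : (1 + η) ^ J * (5 / 6 * ell 0 k) ≤ (1 + η) ^ J * Real.log X₀ :=
      mul_le_mul_of_nonneg_left hLell (pow_nonneg hq0.le J)
    calc Real.log (x i) < _ := h1
      _ ≤ _ := h2
      _ = (1 + η) ^ J * (5 / 6 * ell 0 k) := by ring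
      _ ≤ _ := h3
      _ = _ := by ring
  have hkk : ∀ i, ∃ b, b < J ∧ Real.log X₀ * (1 + η) ^ b ≤ Real.log (x i) ∧
      Real.log (x i) ≤ Real.log X₀ * (1 + η) ^ b * (1 + η) := by
    intro i
    classical
    have hex : ∃ m : ℕ, Real.log (x i) < Real.log X₀ * (1 + η) ^ m := ⟨_, hL2 i⟩
    have hs := Nat.find_spec hex
    have hle : Nat.find hex ≤ J := Nat.find_min' hex (hL2 i)
    have hne : Nat.find hex ≠ 0 := by
      intro h0
      rw [h0, pow_zero, mul_one] at hs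
      exact absurd hs (not_lt.2 (hL1 i))
    obtain ⟨b, hb⟩ := Nat.exists_eq_succ_of_ne_zero hne
    refine ⟨b, by omega, ?_, ?_⟩
    · exact not_lt.1 (Nat.find_min hex (by omega))
    · rw [hb, Nat.succ_eq_add_one, pow_succ] at hs
      refine hs.le.trans (le_of_eq ?_)
      ring
  choose κ hκ using hkk
  have hcard : N = ∑ b ∈ Finset.range J, (Finset.univ.filter (fun i : Fin N => κ i = b)).card := by
    rw [← Finset.card_eq_sum_card_fiberwise (f := κ) (s := Finset.univ)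
      (t := Finset.range J) (fun i _ => by
        simpa using (hκ i).1)]
    simp
  have hfib : ∀ b : ℕ, ((Finset.univ.filter (fun i : Fin N => κ i = b)).card : ℝ) ≤ pkM r := by
    intro b
    have hmem : ∀ j, κ ((Finset.univ.filter (fun i : Fin N => κ i = b)).orderEmbOfFin rfl j) = b := by
      intro j
      have := Finset.orderEmbOfFin_mem (Finset.univ.filter (fun i : Fin N => κ i = b)) rfl j
      exact (Finset.mem_filter.1 this).2
    refine W3_win hang hk hcan (X := Real.exp (Real.log X₀ * (1 + η) ^ b)) ?_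
      (fun j => P ((Finset.univ.filter (fun i : Fin N => κ i = b)).orderEmbOfFin rfl j))
      (fun j => x ((Finset.univ.filter (fun i : Fin N => κ i = b)).orderEmbOfFin rfl j))
      ?_ ?_ ?_ ?_ ?_
    · refine hC1X.trans ?_
      rw [← Real.log_le_iff_le_exp hX0]
      exact le_mul_of_one_le_right hL0.le (one_le_pow₀ hq1.le)
    · intro j
      exact hint _
    · intro j j' hj
      exact (Finset.orderEmbOfFin _ rfl).injective (hinj hj)
    · intro f hf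
      exact hrank (fun t => (Finset.univ.filter (fun i : Fin N => κ i = b)).orderEmbOfFin rfl (f t)) hf
    · intro j
      have := (hκ ((Finset.univ.filter (fun i : Fin N => κ i = b)).orderEmbOfFin rfl j)).2.1
      rw [hmem j] at this
      exact (Real.le_log_iff_exp_le (hx0 _)).1 this
    · intro j
      have := (hκ ((Finset.univ.filter (fun i : Fin N => κ i = b)).orderEmbOfFin rfl j)).2.2
      rw [hmem j] at this
      rw [← Real.exp_mul]
      exact (Real.log_le_iff_le_exp (hx0 _)).1 this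
  have hfin : (N : ℝ) ≤ ∑ b ∈ Finset.range J, pkM r := by
    calc (N : ℝ) = ((∑ b ∈ Finset.range J,
        (Finset.univ.filter (fun i : Fin N => κ i = b)).card : ℕ) : ℝ) := by rw [← hcard]
      _ ≤ _ := by
        rw [Nat.cast_sum]
        exact Finset.sum_le_sum fun b _ => hfib b
  rw [Finset.sum_const, Finset.card_range, nsmul_eq_mul] at hfin
  have hp := W3_pkM r
  linarith

end Pool.Agent.LibUM24
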