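import Pool.Agent.LibUM24.W3
import Pool.Agent.LibHU64.D1
import Pool.Agent.LibHU64.D2
import Pool.Agent.LibDP24.H2

/-!
ROW W4 (MEDIUM). Large rank: at most `2 ^ (r + 1) - r - 2` integral points are larger than `C |k| ^ (5/6 + ε)` (cites W3, LibHU64: D1 `count_high`, D2 `count_mid`, LibDP24.H2 `exists_can` as stated;
compare row D3 of LibHU64).

PLAN. `C₀'` from `exists_can` (for the curves `y² = x³ + A x + B`, here `A = 0`, `B = k`; a second canonical height `hh'` with `IsCan C₀' hh'` is only used to cite `count_high` and `count_mid`), `D` from `count_high hPB C₀'`,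
`M₀` from `count_mid C₀'` and `C₁` for this `D`; `C` from `count_midM C₀ _ ε` and `W` for this `M₀`. Split the indices: `x i < exp (M₀ ell)`: at most `W pkM r`; `exp (M₀ ell) ≤ x i < exp (D (r+1)² ell)`: at most
`C₁ (r+1) pk r`; the rest: at most `r pk r`. Sum `≤ 3 W (r+1)² 2^(50r/51) + 6 C₁ (r+1)³ 2^(5r/6) ≤ 2^(r+1) - r - 2` for `r ≥ r₀` (only existence of `r₀`: `2^(r/51)` beats a polynomial). `4 * 0 ^ 3 + 27 * k ^ 2 ≠ 0`.
-/

set_option autoImplicit false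

open WeierstrassCurve Pool.Agent.LibDP24 Pool.Agent.LibDM24 Pool.Agent.LibHU64

namespace Pool.Agent.LibUM24

private theorem W4_rank {G : Type*} [AddCommGroup G] {r n m : ℕ} {P : Fin n → G} (h : RankLe r P)
    (g : Fin m → Fin n) : RankLe r (fun i => P (g i)) :=
  fun f => h (g ∘ f)

private theorem W4_num (W C₁ : ℝ) (hW : 1 ≤ W) (hC : 1 ≤ C₁) : ∃ r₀ : ℕ, ∀ r : ℕ, r₀ ≤ r →
    W * pkM r + C₁ * ((r : ℝ) + 1) * pk r + r * pk r + ((r : ℝ) + 2) ≤ 2 ^ (r + 1) := by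
  set c : ℝ := (2 : ℝ) ^ (1 / 51 : ℝ) with hc
  have hc1 : 1 < c := Real.one_lt_rpow (by norm_num) (by norm_num)
  have hc0 : 0 < c := by linarith
  set K : ℝ := 3 * W + 3 * C₁ + 5 with hK
  have hK0 : 0 < K := by positivity
  have ht := tendsto_pow_const_div_const_pow_of_one_lt 3 hc1
  have hev := (ht.eventually_lt_const (show (0 : ℝ) < 1 / (8 * K) by positivity))
  obtain ⟨r₁, hr₁⟩ := Filter.eventually_atTop.1 hev
  refine ⟨max r₁ 1, fun r hr => ?_⟩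
  have h1 : 1 ≤ r := le_trans (le_max_right _ _) hr
  have h2 := hr₁ r (le_trans (le_max_left _ _) hr)
  have hr0 : (1 : ℝ) ≤ r := by exact_mod_cast h1
  have hcr : 0 < c ^ r := pow_pos hc0 r
  rw [div_lt_div_iff₀ hcr (by positivity), one_mul] at h2
  have h3 : K * ((r : ℝ) + 1) ^ 3 ≤ c ^ r := by
    have h4 : ((r : ℝ) + 1) ^ 3 ≤ 8 * (r : ℝ) ^ 3 := by
      have h5 : ((r : ℝ) + 1) ≤ 2 * r := by linarith
      calc ((r : ℝ) + 1) ^ 3 ≤ (2 * (r : ℝ)) ^ 3 := pow_le_pow_left₀ (by linarith) h5 3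
        _ = 8 * (r : ℝ) ^ 3 := by ring
    calc K * ((r : ℝ) + 1) ^ 3 ≤ K * (8 * (r : ℝ) ^ 3) := mul_le_mul_of_nonneg_left h4 hK0.le
      _ = (r : ℝ) ^ 3 * (8 * K) := by ring
      _ ≤ c ^ r := h2.le
  set E : ℝ := (2 : ℝ) ^ (50 / 51 * (r : ℝ)) with hE
  have hE1 : 1 ≤ E := Real.one_le_rpow (by norm_num) (by positivity)
  have h6 : (2 : ℝ) ^ (5 / 6 * (r : ℝ)) ≤ E :=
    Real.rpow_le_rpow_of_exponent_le (by norm_num) (by nlinarith)
  have h7 : c ^ r * E = 2 ^ r := by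
    rw [hc, hE, ← Real.rpow_natCast ((2 : ℝ) ^ (1 / 51 : ℝ)) r, ← Real.rpow_mul (by norm_num),
      ← Real.rpow_add (by norm_num), ← Real.rpow_natCast (2 : ℝ) r]
    congr 1
    ring
  have hpk : pk r ≤ 3 * ((r : ℝ) + 1) ^ 2 * E := by
    unfold pk
    gcongr
  have hpkM : pkM r = 3 * ((r : ℝ) + 1) ^ 2 * E := rfl
  have h8 : ((r : ℝ) + 1) ^ 2 ≤ ((r : ℝ) + 1) ^ 3 := pow_le_pow_right₀ (by linarith) (by norm_num)
  have h9 : ((r : ℝ) + 2) ≤ 2 * (((r : ℝ) + 1) ^ 3 * E) := by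
    have h10 : ((r : ℝ) + 1) ≤ ((r : ℝ) + 1) ^ 3 := by
      calc ((r : ℝ) + 1) = ((r : ℝ) + 1) ^ 1 := (pow_one _).symm
        _ ≤ _ := pow_le_pow_right₀ (by linarith) (by norm_num)
    have h11 : ((r : ℝ) + 1) ^ 3 ≤ ((r : ℝ) + 1) ^ 3 * E := le_mul_of_one_le_right (by positivity) hE1
    linarith
  have a1 : W * pkM r ≤ 3 * W * (((r : ℝ) + 1) ^ 3 * E) := by
    rw [hpkM]
    have : ((r : ℝ) + 1) ^ 2 * E ≤ ((r : ℝ) + 1) ^ 3 * E := mul_le_mul_of_nonneg_right h8 (by linarith)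
    nlinarith
  have a2 : C₁ * ((r : ℝ) + 1) * pk r + r * pk r ≤ (3 * C₁ + 3) * (((r : ℝ) + 1) ^ 3 * E) := by
    have h12 : (C₁ * ((r : ℝ) + 1) + r) ≤ (C₁ + 1) * ((r : ℝ) + 1) := by nlinarith
    have h13 : 0 ≤ pk r := by have := pk_ge r; linarith
    calc C₁ * ((r : ℝ) + 1) * pk r + r * pk r = (C₁ * ((r : ℝ) + 1) + r) * pk r := by ring
      _ ≤ ((C₁ + 1) * ((r : ℝ) + 1)) * (3 * ((r : ℝ) + 1) ^ 2 * E) :=
          mul_le_mul h12 hpk h13 (by positivity)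
      _ = (3 * C₁ + 3) * (((r : ℝ) + 1) ^ 3 * E) := by ring
  have h14 : W * pkM r + C₁ * ((r : ℝ) + 1) * pk r + r * pk r + ((r : ℝ) + 2) ≤
      K * ((r : ℝ) + 1) ^ 3 * E := by
    have e : K * ((r : ℝ) + 1) ^ 3 * E = 3 * W * (((r : ℝ) + 1) ^ 3 * E) +
        (3 * C₁ + 3) * (((r : ℝ) + 1) ^ 3 * E) + 2 * (((r : ℝ) + 1) ^ 3 * E) := by
      rw [hK]; ring
    rw [e]
    linarith
  have h15 : K * ((r : ℝ) + 1) ^ 3 * E ≤ 2 ^ r := by
    rw [← h7]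
    exact mul_le_mul_of_nonneg_right h3 (by linarith)
  have h16 : (2 : ℝ) ^ r ≤ 2 ^ (r + 1) := pow_le_pow_right₀ (by norm_num) (by omega)
  linarith

theorem count_bigM (hPB : PB) (C₀ : ℝ) (hC₀ : 0 ≤ C₀) (ε : ℝ) (hε : 0 < ε) : ∃ C : ℝ, 1 ≤ C ∧ ∃ r₀ : ℕ,
    ∀ r : ℕ, r₀ ≤ r → ∀ k : ℤ, k ≠ 0 → ∀ hh : Pt 0 k → ℝ, IsCanM C₀ hh →
    ∀ (N : ℕ) (P : Fin N → Pt 0 k) (x : Fin N → ℤ),
      (∀ i, IsInt (P i) (x i)) → Function.Injective x → RankLe r P →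
      (∀ i, C * |(k : ℝ)| ^ ((5 : ℝ) / 6 + ε) ≤ x i) → N + r + 2 ≤ 2 ^ (r + 1) := by
  classical
  obtain ⟨C₀', hC₀', hcan⟩ := exists_can
  obtain ⟨D, hD1, hhigh⟩ := count_high hPB C₀' (by linarith)
  obtain ⟨M₀, hM₀, hmid0⟩ := count_mid C₀' (by linarith)
  obtain ⟨C₁, hC₁, hmid⟩ := hmid0 D hD1
  obtain ⟨C, hC1, hM0⟩ := count_midM C₀ hC₀ ε hε
  obtain ⟨W, hW1, hlow⟩ := hM0 M₀
  obtain ⟨r₀, hnum⟩ := W4_num W C₁ hW1 hC₁
  refine ⟨C, hC1, r₀, ?_⟩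
  intro r hr k hk hh hcM N P x hint hinj hrank hbig
  have hdisc : 4 * (0 : ℤ) ^ 3 + 27 * k ^ 2 ≠ 0 := by
    have : k ^ 2 ≠ 0 := pow_ne_zero 2 hk
    omega
  obtain ⟨hh', hcan'⟩ := hcan 0 k hdisc
  set S₁ : Finset (Fin N) := Finset.univ.filter fun i => (x i : ℝ) < Real.exp (M₀ * ell 0 k) with hS₁
  set S₂ : Finset (Fin N) := Finset.univ.filter fun i => ¬ (x i : ℝ) < Real.exp (M₀ * ell 0 k) ∧
    (x i : ℝ) < Real.exp (D * ((r : ℝ) + 1) ^ 2 * ell 0 k) with hS₂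
  set S₃ : Finset (Fin N) := Finset.univ.filter fun i =>
    ¬ (x i : ℝ) < Real.exp (D * ((r : ℝ) + 1) ^ 2 * ell 0 k) with hS₃
  have hcov : N ≤ S₁.card + S₂.card + S₃.card := by
    have h1 : (Finset.univ : Finset (Fin N)) ⊆ S₁ ∪ S₂ ∪ S₃ := by
      intro i _
      simp only [hS₁, hS₂, hS₃, Finset.mem_union, Finset.mem_filter, Finset.mem_univ, true_and]
      tauto
    have h2 := Finset.card_le_card h1
    rw [Finset.card_univ, Fintype.card_fin] at h2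
    have h3 := Finset.card_union_le (S₁ ∪ S₂) S₃
    have h4 := Finset.card_union_le S₁ S₂
    omega
  have hsub : ∀ S : Finset (Fin N), ∃ g : Fin S.card → Fin N, Function.Injective g ∧ ∀ i, g i ∈ S :=
    fun S => ⟨S.orderEmbOfFin rfl, (S.orderEmbOfFin rfl).injective, fun i =>
      S.orderEmbOfFin_mem rfl i⟩
  have b1 : (S₁.card : ℝ) ≤ W * pkM r := by
    obtain ⟨g, hg, hgS⟩ := hsub S₁
    refine hlow r k hk hh hcM _ (fun i => P (g i)) (fun i => x (g i)) (fun i => hint _)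
      (fun i j h => hg (hinj h)) (W4_rank hrank g) (fun i => hbig _) ?_
    intro i
    have := hgS i
    rw [hS₁, Finset.mem_filter] at this
    exact this.2
  have b2 : (S₂.card : ℝ) ≤ C₁ * ((r : ℝ) + 1) * pk r := by
    obtain ⟨g, hg, hgS⟩ := hsub S₂
    refine hmid r 0 k hh' hcan' _ (fun i => P (g i)) (fun i => x (g i)) (fun i => hint _)
      (fun i j h => hg (hinj h)) (W4_rank hrank g) ?_ ?_
    · intro i
      have := hgS i
      rw [hS₂, Finset.mem_filter] at this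
      exact not_lt.1 this.2.1
    · intro i
      have := hgS i
      rw [hS₂, Finset.mem_filter] at this
      exact this.2.2
  have b3 : (S₃.card : ℝ) ≤ r * pk r := by
    obtain ⟨g, hg, hgS⟩ := hsub S₃
    refine hhigh r 0 k hdisc hh' hcan' _ (fun i => P (g i)) (fun i => x (g i)) (fun i => hint _)
      (fun i j h => hg (hinj h)) (W4_rank hrank g) ?_
    intro i
    have := hgS i
    rw [hS₃, Finset.mem_filter] at this
    exact not_lt.1 this.2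
  have hN : (N : ℝ) ≤ S₁.card + S₂.card + S₃.card := by exact_mod_cast hcov
  have hfin := hnum r hr
  have : ((N + r + 2 : ℕ) : ℝ) ≤ ((2 ^ (r + 1) : ℕ) : ℝ) := by
    push_cast
    linarith
  exact_mod_cast this

end Pool.Agent.LibUM24
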