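import Pool.Agent.LibUM24.V6
import Pool.Agent.LibUM24.W4
import Pool.Agent.LibDM24.MC

/-!
ROW W5 (MEDIUM). The theorem: absolute constant, exponent `5/6 + ε`, at most `3 * 2 ^ r - 2 r - 3` pairs (cites V6, W4, LibDM24: MC `exists_canM`, MH `x_geM` as stated; compare the last part of
`Pool/Agent/LibDM24/MQ.lean`: `MQ_indep`, `MQ_big`, last 60 lines).

PLAN. `C₀` from `exists_canM`; `C₁, r₀` from `count_bigM`; `C_r` from `count_V` for `r < r₀` (`choose` or `∀ r, ∃ C` and a finite sum); `C = C₁ + ∑ r ∈ Finset.range r₀, C_r`. Given `r, k, Γ`: let `V` be the set of the `x` with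
`C κ^(5/6+ε) < |x|` and a point of `Γ`. For every finite `W ⊆ V`: `W.card + 2 r + 3 ≤ 3 * 2^r`: family `W.equivFin.symm`, `RankLe r` as in `MQ_indep`; `x > 0` for `x ∈ V` (`MQ_big`). If `r < r₀`: `count_V` would give some
`x ≤ C_r κ^(..)`, absurd, unless `¬ (3 * 2^r ≤ W.card + 2 r + 2)`, which is the claim. If `r₀ ≤ r`: `count_bigM`: `W.card + r + 2 ≤ 2^(r+1)`, and `2^(r+1) + r + 1 ≤ 3 * 2^r` (`r + 1 ≤ 2^r`). So `V` is finite; `X = V.toFinset`.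
-/

set_option autoImplicit false

open WeierstrassCurve Pool.Agent.LibDP24 Pool.Agent.LibDM24 Pool.Agent.LibHU64

namespace Pool.Agent.LibUM24

private theorem W5_indep {k : ℤ} {r : ℕ} (Γ : AddSubgroup (Pt 0 k)) (hr : Module.rank ℤ Γ ≤ r)
    {N : ℕ} (P : Fin N → Pt 0 k) (hP : ∀ i, P i ∈ Γ) (f : Fin (r + 1) → Fin N) :
    ¬ LinearIndependent ℤ (P ∘ f) := by
  intro hli
  have h1 : LinearIndependent ℤ (fun i : Fin (r + 1) => (⟨P (f i), hP (f i)⟩ : Γ)) := by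
    apply LinearIndependent.of_comp (Γ.subtype.toIntLinearMap)
    exact hli
  have h2 := h1.cardinal_le_rank
  have h3 : ((r + 1 : ℕ) : Cardinal) ≤ ((r : ℕ) : Cardinal) := by
    refine le_trans ?_ (h2.trans hr)
    simp
  have h4 : r + 1 ≤ r := by exact_mod_cast h3
  omega

/-- a large `x` is positive -/
private theorem W5_big {k x : ℤ} {R : Pt 0 k} (hk : k ≠ 0) (hR : IsInt R x) {C e : ℝ} (hC : 1 ≤ C)
    (he : 1 / 3 ≤ e) (hx : C * |(k : ℝ)| ^ e < |(x : ℝ)|) : 0 < x := by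
  have hk1 : (1 : ℝ) ≤ |(k : ℝ)| := by
    have h1 : (1 : ℤ) ≤ |k| := Int.one_le_abs hk
    exact_mod_cast h1
  have hk0 : (0 : ℝ) < |(k : ℝ)| := by linarith
  have hp : (0 : ℝ) < |(k : ℝ)| ^ e := Real.rpow_pos_of_pos hk0 _
  have h1 : |(k : ℝ)| ≤ (|(k : ℝ)| ^ e) ^ 3 := by
    rw [← Real.rpow_natCast, ← Real.rpow_mul hk0.le]
    calc |(k : ℝ)| = |(k : ℝ)| ^ (1 : ℝ) := (Real.rpow_one _).symm
      _ ≤ |(k : ℝ)| ^ (e * ((3 : ℕ) : ℝ)) := by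
          apply Real.rpow_le_rpow_of_exponent_le hk1
          push_cast
          linarith
  have h2 : |(k : ℝ)| ^ e < |(x : ℝ)| := by
    refine lt_of_le_of_lt ?_ hx
    nlinarith
  have h3 : |(k : ℝ)| < |(x : ℝ)| ^ 3 :=
    lt_of_le_of_lt h1 (pow_lt_pow_left₀ h2 hp.le (by norm_num))
  have h4 := x_geM hR
  have h5 : (0 : ℝ) < x := by
    by_contra hcon
    have hcon' : (x : ℝ) ≤ 0 := not_lt.1 hcon
    rw [abs_of_nonpos hcon'] at h3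
    have h6 : (-(x : ℝ)) ^ 3 = -(x : ℝ) ^ 3 := by ring
    rw [h6] at h3
    linarith
  exact_mod_cast h5

theorem finalUM (hPB : PB) (hCB : CB) (ε : ℝ) (hε : 0 < ε) : ∃ C : ℝ, 0 < C ∧ ∀ (r : ℕ) (k : ℤ), k ≠ 0 →
    ∀ W : WeierstrassCurve ℚ, W = E 0 k →
    ∀ Γ : AddSubgroup W.toAffine.Point, Module.rank ℤ Γ ≤ r →
      ∃ X : Finset ℤ, X.card + 2 * r + 3 ≤ 3 * 2 ^ r ∧
        ∀ (x y : ℤ) (h : W.toAffine.Nonsingular (x : ℚ) (y : ℚ)),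
          Affine.Point.some (x : ℚ) (y : ℚ) h ∈ Γ → x ∉ X →
            |(x : ℝ)| ≤ C * |(k : ℝ)| ^ ((5 : ℝ) / 6 + ε) := by
  obtain ⟨C₀, hC₀, hcan⟩ := exists_canM
  have hC₀0 : 0 ≤ C₀ := by linarith
  obtain ⟨C₁, hC₁, r₀, hbigr⟩ := count_bigM hPB C₀ hC₀0 ε hε
  choose Cr hCr hcV using fun r => count_V hCB C₀ hC₀0 r ε hε
  obtain ⟨C, hC⟩ : ∃ C, C = C₁ + ∑ r ∈ Finset.range r₀, Cr r := ⟨_, rfl⟩
  have hsum0 : 0 ≤ ∑ r ∈ Finset.range r₀, Cr r :=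
    Finset.sum_nonneg fun r _ => zero_le_one.trans (hCr r)
  have hCC₁ : C₁ ≤ C := by linarith
  have hC1 : 1 ≤ C := hC₁.trans hCC₁
  have hCCr : ∀ r, r < r₀ → Cr r ≤ C := by
    intro r hr
    have h1 : Cr r ≤ ∑ r ∈ Finset.range r₀, Cr r :=
      Finset.single_le_sum (f := Cr) (fun i _ => zero_le_one.trans (hCr i)) (Finset.mem_range.2 hr)
    linarith
  refine ⟨C, by linarith, ?_⟩
  intro r k hk W hW Γ hr
  subst hW
  have hκ : (1 : ℝ) ≤ |(k : ℝ)| := by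
    have h1 : (1 : ℤ) ≤ |k| := Int.one_le_abs hk
    exact_mod_cast h1
  have hκ0 : (0 : ℝ) < |(k : ℝ)| := by linarith
  have hke0 : 0 ≤ |(k : ℝ)| ^ ((5 : ℝ) / 6 + ε) := Real.rpow_nonneg hκ0.le _
  obtain ⟨hh, hcc⟩ := hcan k hk
  obtain ⟨V, hV⟩ : ∃ V : Set ℤ, V = {x : ℤ | ∃ (y : ℤ) (h : (E 0 k).toAffine.Nonsingular (x : ℚ) (y : ℚ)),
        (Affine.Point.some (x : ℚ) (y : ℚ) h : Pt 0 k) ∈ Γ ∧
        C * |(k : ℝ)| ^ ((5 : ℝ) / 6 + ε) < |(x : ℝ)|} := ⟨_, rfl⟩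
  have hVm : ∀ x ∈ V, ∃ (y : ℤ) (h : (E 0 k).toAffine.Nonsingular (x : ℚ) (y : ℚ)),
      (Affine.Point.some (x : ℚ) (y : ℚ) h : Pt 0 k) ∈ Γ ∧
      C * |(k : ℝ)| ^ ((5 : ℝ) / 6 + ε) < |(x : ℝ)| := by
    intro x hx
    rw [hV] at hx
    exact hx
  have key : ∀ U : Finset ℤ, (U : Set ℤ) ⊆ V → U.card + 2 * r + 3 ≤ 3 * 2 ^ r := by
    intro U hUV
    have hU : ∀ x ∈ U, ∃ (y : ℤ) (h : (E 0 k).toAffine.Nonsingular (x : ℚ) (y : ℚ)),
      (Affine.Point.some (x : ℚ) (y : ℚ) h : Pt 0 k) ∈ Γ ∧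
      C * |(k : ℝ)| ^ ((5 : ℝ) / 6 + ε) < |(x : ℝ)| := fun x hx => hVm x (hUV hx)
    choose! y h hyh hlt using hU
    let e' : Fin U.card ≃ U := U.equivFin.symm
    let P : Fin U.card → Pt 0 k := fun i =>
      Affine.Point.some ((e' i : ℤ) : ℚ) ((y (e' i) : ℤ) : ℚ) (h (e' i) (e' i).2)
    have hInt : ∀ i, IsInt (P i) (e' i : ℤ) := fun i => ⟨y (e' i), h (e' i) (e' i).2, rfl⟩
    have hinj : Function.Injective (fun i => (e' i : ℤ)) :=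
      fun i j hij => e'.injective (Subtype.ext hij)
    have hrk : RankLe r P := W5_indep Γ hr P (fun i => hyh (e' i) (e' i).2)
    have hgt : ∀ i, C * |(k : ℝ)| ^ ((5 : ℝ) / 6 + ε) < ((e' i : ℤ) : ℝ) := by
      intro i
      have h1 := hlt (e' i) (e' i).2
      have h2 : 0 < (e' i : ℤ) := W5_big hk (hInt i) hC1 (by linarith) h1
      have h3 : (0 : ℝ) < ((e' i : ℤ) : ℝ) := by exact_mod_cast h2
      rwa [abs_of_pos h3] at h1
    rcases lt_or_ge r r₀ with hrr | hrr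
    · by_contra hcon
      have hN : 3 * 2 ^ r ≤ U.card + 2 * r + 2 := by omega
      obtain ⟨i, hi⟩ := hcV r k hk hh hcc U.card hN P (fun i => (e' i : ℤ)) hInt hinj hrk
      have h1 := hgt i
      have h2 : Cr r * |(k : ℝ)| ^ ((5 : ℝ) / 6 + ε) ≤ C * |(k : ℝ)| ^ ((5 : ℝ) / 6 + ε) :=
        mul_le_mul_of_nonneg_right (hCCr r hrr) hke0
      linarith
    · have h1 := hbigr r hrr k hk hh hcc U.card P (fun i => (e' i : ℤ)) hInt hinj hrk (by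
        intro i
        have h1 := hgt i
        have h2 : C₁ * |(k : ℝ)| ^ ((5 : ℝ) / 6 + ε) ≤ C * |(k : ℝ)| ^ ((5 : ℝ) / 6 + ε) :=
          mul_le_mul_of_nonneg_right hCC₁ hke0
        linarith)
      have h2 : r < 2 ^ r := Nat.lt_two_pow_self
      have h3 : 2 ^ (r + 1) = 2 * 2 ^ r := by ring
      omega
  have hfin : V.Finite := by
    by_contra hinf
    obtain ⟨U, hUV, hUc⟩ := Set.Infinite.exists_subset_card_eq hinf (3 * 2 ^ r)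
    have := key U hUV
    omega
  refine ⟨hfin.toFinset, key hfin.toFinset (by simp), ?_⟩
  intro x y h hΓ hx
  by_contra hcon
  apply hx
  rw [Set.Finite.mem_toFinset, hV]
  exact ⟨y, h, hΓ, not_le.1 hcon⟩

end Pool.Agent.LibUM24
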